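import Pool.Agent.ROr14.Calc

/-!
# Module TO42/Iter

Iterating a functional polynomially often.

PROOF. Let `⟨p, q, g', hq, hg', hF⟩ := hF` for the functional `F` on `α × σ`. Let
`B x := s.eval (sz x)`, `M x := p.eval (sz x + B x + 1) + 1` answers for each step.
`step x a (j, y) := (j + 1, let y' := g' ((x, y), (a.drop (j * M x)).take (M x)); if sz y' ≤ B x then
y' else y)`: this clamping keeps the size of the state `≤ max (sz (g x)) (B x)` also for bogus
answers `a`, so `st (x, a) n := (step x a)^[n] (0, g x)` is polynomial time by `PolyTime.iterate'`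
(`PolyTime.size` for the test). Question function `Q (x, a) :=` with `j := a.length / M x`,
`y := (st (x, a) j).2`: `q ((x, y), a.drop (j * M x))`. Value `G (x, a) := (st (x, a) (n x)).2`.
Correctness: by induction on `j ≤ n x`: for every `m ≥ j * M x`,
`st (x, answers X Q x m) j = (j, (fun y => F X (x, y))^[j] (g x))`: the block
`((answers X Q x m).drop (j * M x)).take (M x)` equals `answers X q (x, y_j) (M x)` by
`answers_shift` exactly as in the proof of `UT.map` (ROr14/Calc.lean; note that for
`m' < (j + 1) * M x`, `m' ≥ j * M x` one has `m' / M x = j` and that the state `j` computed from the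
first `m'` answers depends only on the first `j * M x` ones), and
`p.eval (sz (x, y_j)) ≤ M x` since `sz y_j ≤ B x` by `hs`. The clamp does nothing by `hs`
(indices `i ≤ n x`). The total number of answers is `n x * M x`, polynomially bounded.
-/

set_option autoImplicit false

namespace Pool.Agent.TO42

open Pool.Agent.PT Pool.Agent.TMB67 Pool.Agent.POpt67 Pool.Agent.POpt70 Pool.Agent.ROr14
open N68a2faeb N793a5b8e N487b59b3

/-- The clamped step of the iteration: `z` is the input with the answers, `M` the length of a block
and `B` the bound for the state. -/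
private def istep {α σ : Type} [Enc σ] (g' : (α × σ) × List Bool → σ) (M B : α → ℕ)
    (z : α × List Bool) (w : ℕ × σ) : ℕ × σ :=
  (w.1 + 1, if sz (g' ((z.1, w.2), (z.2.drop (w.1 * M z.1)).take (M z.1))) ≤ B z.1 then
    g' ((z.1, w.2), (z.2.drop (w.1 * M z.1)).take (M z.1)) else w.2)

private theorem istep_inv {α σ : Type} [Enc σ] (g' : (α × σ) × List Bool → σ) (M B : α → ℕ)
    (g : α → σ) (z : α × List Bool) (hg : sz (g z.1) ≤ B z.1) :
    ∀ i, ((istep g' M B z)^[i] (0, g z.1)).1 = i ∧ sz ((istep g' M B z)^[i] (0, g z.1)).2 ≤ B z.1 := by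
  intro i
  induction i with
  | zero => exact ⟨rfl, hg⟩
  | succ i ih =>
    rw [Function.iterate_succ_apply']
    generalize (istep g' M B z)^[i] (0, g z.1) = w at ih
    refine ⟨by simp [istep, ih.1], ?_⟩
    unfold istep
    simp only
    split_ifs with h
    · exact h
    · exact ih.2

/-- Iteration of a functional. -/
theorem UT_iterate {α σ : Type} [Enc α] [Enc σ] {F : (List Bool → Bool) → α × σ → σ}
    (hF : UT F) {n : α → ℕ} (hn : PolyTime n) {g : α → σ} (hg : PolyTime g) {s : Polynomial ℕ}
    (hs : ∀ X x i, i ≤ n x → sz ((fun y => F X (x, y))^[i] (g x)) ≤ s.eval (sz x)) :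
    UT (fun X x => (fun y => F X (x, y))^[n x] (g x)) := by
  obtain ⟨p, q, g', hq, hg', hF⟩ := hF
  set B : α → ℕ := fun x => s.eval (sz x) with hB
  set M : α → ℕ := fun x => p.eval (sz x + B x + 1) + 1 with hM
  have hB0 : ∀ x, sz (g x) ≤ B x := fun x => hs (fun _ => false) x 0 (Nat.zero_le _)
  have hBp : PolyTime B := polyEval_polyTime (PolyTime.size PolyTime.id) s
  have hMp : PolyTime M := (polyEval_polyTime (by fun_prop) p).succ
  have hMz : PolyTime (fun z : α × List Bool => M z.1) := hMp.comp PolyTime.fst'
  have hBz : PolyTime (fun z : α × List Bool => B z.1) := hBp.comp PolyTime.fst'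
  have hval : PolyTime (fun w : (α × List Bool) × (ℕ × σ) =>
      g' ((w.1.1, w.2.2), (w.1.2.drop (w.2.1 * M w.1.1)).take (M w.1.1))) := by
    refine hg'.comp (PolyTime.pair (by fun_prop) (PolyTime.take (hMz.comp PolyTime.fst')
      (PolyTime.drop (PolyTime.natMul (by fun_prop) (hMz.comp PolyTime.fst')) (by fun_prop))))
  have hstep : PolyTime (fun w : (α × List Bool) × (ℕ × σ) => istep g' M B w.1 w.2) := by
    refine PolyTime.pair (by fun_prop) (PolyTime.ite (P := fun w : (α × List Bool) × (ℕ × σ) =>
      sz (g' ((w.1.1, w.2.2), (w.1.2.drop (w.2.1 * M w.1.1)).take (M w.1.1))) ≤ B w.1.1)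
      (PolyTime.decide_le (PolyTime.size hval) (hBz.comp PolyTime.fst')) hval (by fun_prop))
  have hst : ∀ {k : α × List Bool → ℕ}, PolyTime k →
      PolyTime (fun z : α × List Bool => (istep g' M B z)^[k z] (0, g z.1)) := by
    intro k hk
    have hgz : PolyTime (fun z : α × List Bool => ((0 : ℕ), g z.1)) :=
      PolyTime.pair (PolyTime.const _) (hg.comp PolyTime.fst')
    refine PolyTime.iterate' (f := istep g' M B) hstep hk hgz (s := fun z => 2 * k z + B z.1 + 10)
      ?_ ?_
    · have h1 := hk.pbdd
      have h2 := hBz.pbdd
      have h3 : PBdd (fun z : α × List Bool => k z) := h1.of_le fun z => by rw [sz_nat]; omega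
      have h4 : PBdd (fun z : α × List Bool => B z.1) := h2.of_le fun z => by rw [sz_nat]; omega
      exact ((((PBdd.const 2).mul h3).add h4).add (PBdd.const 10))
    · intro z i hi
      have := istep_inv g' M B g z (hB0 z.1) i
      generalize hw : (istep g' M B z)^[i] (0, g z.1) = w at this
      obtain ⟨w1, w2⟩ := w
      rw [sz_prod]
      simp only [sz_nat]
      simp only at this
      omega
  have hj : PolyTime (fun z : α × List Bool => z.2.length / M z.1) :=
    PolyTime.natDiv (PolyTime.length PolyTime.snd') hMz
  set Q : α × List Bool → List Bool := fun z =>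
    q ((z.1, ((istep g' M B z)^[z.2.length / M z.1] (0, g z.1)).2),
      z.2.drop (z.2.length / M z.1 * M z.1)) with hQ
  have hQp : PolyTime Q := hq.comp (PolyTime.pair (PolyTime.pair PolyTime.fst'
    (PolyTime.snd (hst hj))) (PolyTime.drop (PolyTime.natMul hj hMz) PolyTime.snd'))
  obtain ⟨r, hr⟩ : PBdd (fun x : α => n x * M x) := by
    refine ((PolyTime.natMul hn hMp).pbdd).of_le fun x => ?_
    rw [sz_nat]
    omega
  refine ⟨r, Q, fun z => ((istep g' M B z)^[n z.1] (0, g z.1)).2, hQp,
    PolyTime.snd (hst (hn.comp PolyTime.fst')), fun X x m h => ?_⟩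
  have hM0 : 0 < M x := Nat.succ_pos _
  have key : ∀ j, j ≤ n x → ∀ a : List Bool, a.take (j * M x) = answers X Q x (j * M x) →
      (istep g' M B (x, a))^[j] (0, g x) = (j, (fun y => F X (x, y))^[j] (g x)) := by
    intro j
    induction j with
    | zero => intro _ a _; rfl
    | succ j ih =>
      intro hjn a ha
      have hjM : (j + 1) * M x = j * M x + M x := by ring
      have hle : j * M x ≤ (j + 1) * M x := by omega
      have ha1 : a.take (j * M x) = answers X Q x (j * M x) := by
        have := congrArg (List.take (j * M x)) ha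
        rwa [List.take_take, Nat.min_eq_left hle, answers_take X Q x hle] at this
      have hst1 := ih (by omega) a ha1
      rw [Function.iterate_succ_apply', hst1]
      set y := (fun y => F X (x, y))^[j] (g x) with hy
      have hyB : sz y ≤ B x := hs X x j (by omega)
      have hy' : sz (F X (x, y)) ≤ B x := by
        have := hs X x (j + 1) hjn
        rw [Function.iterate_succ_apply'] at this
        exact this
      have hblock : (a.drop (j * M x)).take (M x) = answers X q (x, y) (M x) := by
        have h1 := answers_shift X q Q (x, y) x (j * M x) (M x) (fun i hi => by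
          have h2 : (j * M x + i) / M x = j := by
            rw [Nat.add_comm, Nat.add_mul_div_right _ _ hM0, Nat.div_eq_of_lt hi, Nat.zero_add]
          rw [hQ]
          simp only [List.length_append, answers_length, h2]
          rw [ih (by omega) _ (List.take_left' (answers_length _ _ _ _)),
            List.drop_left' (answers_length _ _ _ _)]) (M x) le_rfl
        rw [List.take_drop, ← hjM, ha, hjM, h1, List.drop_left' (answers_length _ _ _ _)]
      have hval' : g' ((x, y), (a.drop (j * M x)).take (M x)) = F X (x, y) := by
        rw [hblock]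
        refine (hF X (x, y) (M x) ?_).symm
        have h5 : sz (x, y) ≤ sz x + B x + 1 := by
          rw [sz_prod]
          simp only
          omega
        have := eval_mono p h5
        simp only [hM]
        omega
      rw [Function.iterate_succ_apply']
      unfold istep
      simp only [hval']
      rw [if_pos hy']
  have h6 : n x * M x ≤ m := (hr x).trans h
  beta_reduce
  rw [key (n x) le_rfl _ (answers_take X Q x h6)]

end Pool.Agent.TO42
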