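import Pool.Agent.ROr14.Calc

/-!
# Module TO42/Use

Uniform polynomial time functionals ask only short questions.

PROOF. Let `⟨p, q, g, hq, hg, hF⟩ := hF`, `⟨r, hr⟩ := hq.pbdd` (`sz (q z) ≤ r.eval (sz z)`). Let
`U := r.comp (Polynomial.X + 4 * p + 2)`. For `m = p.eval (sz x)` show `answers X q x j =
answers Y q x j` for all `j ≤ m` by induction: the `j`-th question `q (x, answers X q x j)` has
length `≤ sz (..) ≤ r.eval (sz x + (4 * j + 1) + 1)` (`sz_prod`, `sz_answers_le`, `length_le_sz`,
`eval_mono`). Then `hF X x m le_rfl`, `hF Y x m le_rfl`.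
-/

set_option autoImplicit false

namespace Pool.Agent.TO42

open Pool.Agent.PT Pool.Agent.TMB67 Pool.Agent.POpt67 Pool.Agent.POpt70 Pool.Agent.ROr14
open N68a2faeb N793a5b8e N487b59b3

/-- The use of a functional is polynomially bounded. -/
theorem exists_use {α β : Type} [Enc α] [Enc β] {F : (List Bool → Bool) → α → β} (hF : UT F) :
    ∃ U : Polynomial ℕ, ∀ (X Y : List Bool → Bool) (x : α),
      (∀ w : List Bool, w.length ≤ U.eval (sz x) → X w = Y w) → F X x = F Y x := by
  obtain ⟨p, q, g, hq, _, hF⟩ := hF
  obtain ⟨r, hr⟩ := hq.pbdd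
  refine ⟨r.comp (Polynomial.X + 4 * p + 2), fun X Y x hXY => ?_⟩
  have key : ∀ j : ℕ, j ≤ p.eval (sz x) → answers X q x j = answers Y q x j := by
    intro j
    induction j with
    | zero => intro _; rfl
    | succ j ih =>
      intro hj
      have h1 := ih (by omega)
      have h2 : X (q (x, answers X q x j)) = Y (q (x, answers X q x j)) := by
        apply hXY
        refine (length_le_sz _).trans ((hr _).trans ?_)
        rw [Polynomial.eval_comp]
        apply eval_mono
        rw [sz_prod]
        have h := sz_answers_le X q x j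
        simp only [Polynomial.eval_add, Polynomial.eval_X, Polynomial.eval_mul,
          Polynomial.eval_ofNat]
        omega
      change answers X q x j ++ [X (q (x, answers X q x j))] =
        answers Y q x j ++ [Y (q (x, answers Y q x j))]
      rw [← h1, h2]
  rw [hF X x _ le_rfl, hF Y x _ le_rfl, key _ le_rfl]

end Pool.Agent.TO42
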