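import Pool.Agent.TO42.Use
import Pool.Agent.ROr14.Mach
import Pool.Agent.POpt70.RelUp
import Pool.Agent.POpt70.RelSys

/-!
# Module TO42/Run

The programs with number `i` and clocks below `l`.

PROOF. `cpow_polyTime`: as in `gvalR_polyTime` (POpt70/RelSparse.lean), `PolyTime.natPow` with bound
`sz l + 1`, using `guardn_pow`. `zin_polyTime`: `n5_polyTime`, `cpow_polyTime`. `run_UT`:
`UM_UT.pre zin_polyTime`. `Val_polyTime`: `guardn_polyTime`, `PolyTime.size`, `polyEval_polyTime`.
`exists_index`: let `F' X (z : In) := F X z.1` (`hF.pre`), `⟨e, Q, hQ⟩ := UM_spec hF'`. By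
`exists_pow_bound` choose `a` with `Q.eval (4 * n + 3) ≤ (n + 2) ^ (a + 1)` for all `n` (note
`sz (x, []) = sz x + sz [] + 1 ≤ 4 * x.length + 3`) and `b` with
`Q.eval (4 * n + 3 + (n + 2) ^ (a + 1)) ≤ (n + 2) ^ (b + 1)`. Let `i` code `(e, (a, b), m)`:
`i = pr e.1 (pr4 e.2 a b m)` (`n5_pr`). If both guards hold, `cpow` gives `N = (x.length+2)^(a+1)`,
`t = (x.length+2)^(b+1)`, so `run X (i, l, x) = F X x`. For the constant `C`: choose `d` with
`U.eval (sz (e, (N, t), (x, []))) + 1 ≤ (x.length + 2) ^ (d + 1)` (the size is a polynomial in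
`x.length`, `sz_prod`, `sz_nat`, `sz_listBool`), and `d'` with
`(F X x).length ≤ (x.length + 2) ^ (d' + 1)` for all `X` (`UT.bound`, `length_le_sz`), and let
`C = (a + 1) + (b + 1) + (d + 1) + (c m + 1) * (d' + 3)`: as `size_bound`:
`(n + 2) ≤ 2 ^ (size n + 1)`; `guardn a n l` means `(a + 1) * (size n + 1) ≤ log 2 l`; strictness:
`U.eval .. + 1 ≤ (n + 2) ^ (d + 1) ≤ 2 ^ ((d + 1) * (size n + 1)) ≤ 2 ^ (log 2 l) ≤ l`;
`size (F X x).length ≤ (d' + 1) * (size n + 1) + 1` as in `sysR_sim`. (`l ≠ 0` since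
`0 < C * (size + 1) ≤ log 2 l`.)
-/

set_option autoImplicit false

namespace Pool.Agent.TO42

open Pool.Agent.PT Pool.Agent.TMB67 Pool.Agent.POpt67 Pool.Agent.POpt70 Pool.Agent.ROr14
open N68a2faeb N793a5b8e N487b59b3

/-- The parameters of the program number `i`: programs, exponents of the clocks, language. -/
def ix (i : ℕ) : (ℕ × ℕ) × (ℕ × ℕ) × ℕ :=
  (((n5 i).1, (n5 i).2.1), ((n5 i).2.2.1, (n5 i).2.2.2.1), (n5 i).2.2.2.2)

/-- The clock `(n + 2) ^ (a + 1)` under the guard. -/
def cpow (a n l : ℕ) : ℕ := (n + 2) ^ (if guardn a n l then a + 1 else 0)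

/-- The input of the universal machine. -/
def zin (i l : ℕ) (x : List Bool) : (ℕ × ℕ) × (ℕ × ℕ) × In :=
  ((ix i).1, (cpow (ix i).2.1.1 x.length l, cpow (ix i).2.1.2 x.length l), (x, []))

/-- The value of program `i` with clocks below `l` on the input `x`. -/
noncomputable def run (X : List Bool → Bool) (z : ℕ × ℕ × List Bool) : List Bool :=
  UM X (zin z.1 z.2.1 z.2.2)

/-- The clocks are respected and all questions relevant for the value `y` on the input `x` are
shorter than `l`. -/
def Val (U : Polynomial ℕ) (c i l : ℕ) (x y : List Bool) : Prop :=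
  (guardn (ix i).2.1.1 x.length l ∧ guardn (ix i).2.1.2 x.length l) ∧
    U.eval (sz (zin i l x)) < l ∧ guardn c y.length l

instance (U : Polynomial ℕ) (c i l : ℕ) (x y : List Bool) : Decidable (Val U c i l x y) := by
  unfold Val; infer_instance

theorem cpow_polyTime {α : Type} [Enc α] {a n l : α → ℕ} (ha : PolyTime a) (hn : PolyTime n)
    (hl : PolyTime l) : PolyTime (fun x => cpow (a x) (n x) (l x)) := by
  have h0 := hl.pbdd
  have h1 : PolyTime (fun x => (if guardn (a x) (n x) (l x) then a x + 1 else 0)) :=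
    PolyTime.ite (guardn_polyTime ha hn hl) (by fun_prop) (by fun_prop)
  unfold cpow
  refine PolyTime.natPow (s := fun x => sz (l x) + 1) (by fun_prop) h1 (by fun_prop)
    fun x i hi => ?_
  by_cases hg : guardn (a x) (n x) (l x)
  · rw [if_pos hg] at hi
    have h3 := guardn_pow hg
    have h4 : (n x + 2) ^ i ≤ (n x + 2) ^ (a x + 1) := Nat.pow_le_pow_right (by omega) hi
    have h5 : l x ≤ sz (l x) := by rw [sz_nat]; omega
    omega
  · rw [if_neg hg] at hi
    obtain rfl : i = 0 := by omega
    simp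

private theorem ix_polyTime {α : Type} [Enc α] {i : α → ℕ} (hi : PolyTime i) :
    PolyTime (fun z => ix (i z)) := by
  have h := n5_polyTime hi
  have h2 := PolyTime.snd h
  have h3 := PolyTime.snd h2
  have h4 := PolyTime.snd h3
  exact PolyTime.pair (PolyTime.pair (PolyTime.fst h) (PolyTime.fst h2))
    (PolyTime.pair (PolyTime.pair (PolyTime.fst h3) (PolyTime.fst h4)) (PolyTime.snd h4))

theorem zin_polyTime {α : Type} [Enc α] {i l : α → ℕ} {x : α → List Bool} (hi : PolyTime i)
    (hl : PolyTime l) (hx : PolyTime x) : PolyTime (fun z => zin (i z) (l z) (x z)) := by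
  have h := ix_polyTime hi
  have h2 := PolyTime.fst (PolyTime.snd h)
  exact PolyTime.pair (PolyTime.fst h) (PolyTime.pair (PolyTime.pair
    (cpow_polyTime (PolyTime.fst h2) (by fun_prop) hl)
    (cpow_polyTime (PolyTime.snd h2) (by fun_prop) hl)) (by fun_prop))

theorem run_UT : UT run :=
  UM_UT.pre (g := fun z : ℕ × ℕ × List Bool => zin z.1 z.2.1 z.2.2)
    (zin_polyTime (by fun_prop) (by fun_prop) (by fun_prop))

theorem Val_polyTime {α : Type} [Enc α] (U : Polynomial ℕ) (c : ℕ) {i l : α → ℕ}
    {x y : α → List Bool} (hi : PolyTime i) (hl : PolyTime l) (hx : PolyTime x)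
    (hy : PolyTime y) : PolyTime (fun z => decide (Val U c (i z) (l z) (x z) (y z))) := by
  have h2 := PolyTime.fst (PolyTime.snd (ix_polyTime hi))
  refine PolyTime.decide_and (P := fun z => guardn (ix (i z)).2.1.1 (x z).length (l z) ∧
      guardn (ix (i z)).2.1.2 (x z).length (l z)) (Q := fun z =>
      U.eval (sz (zin (i z) (l z) (x z))) < l z ∧ guardn c (y z).length (l z))
    (PolyTime.decide_and (guardn_polyTime (PolyTime.fst h2) (by fun_prop) hl)
      (guardn_polyTime (PolyTime.snd h2) (by fun_prop) hl))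
    (PolyTime.decide_and (P := fun z => U.eval (sz (zin (i z) (l z) (x z))) < l z)
      (PolyTime.decide_lt (polyEval_polyTime (PolyTime.size (zin_polyTime hi hl hx)) U) hl)
      (guardn_polyTime (by fun_prop) (by fun_prop) hl))

/-- Every functional is a program. -/
theorem exists_index {F : (List Bool → Bool) → List Bool → List Bool} (hF : UT F)
    (U : Polynomial ℕ) (c : ℕ → ℕ) (m : ℕ) : ∃ i, (ix i).2.2 = m ∧
      (∀ X l x, guardn (ix i).2.1.1 x.length l → guardn (ix i).2.1.2 x.length l →
        run X (i, l, x) = F X x) ∧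
      ∃ C, ∀ X l x, C * (Nat.size x.length + 1) ≤ Nat.log 2 l → Val U (c m) i l x (F X x) := by
  have hF' : UT (fun X (z : In) => F X z.1) := hF.pre PolyTime.fst'
  obtain ⟨e, Q, hQ⟩ := UM_spec hF'
  obtain ⟨r, hr⟩ := hF.bound
  obtain ⟨a, ha⟩ := exists_pow_bound (Q.comp (4 * Polynomial.X + 3))
  obtain ⟨b, hb⟩ := exists_pow_bound (Q.comp (4 * Polynomial.X + 3 +
    (Polynomial.X + 2) ^ (a + 1)))
  obtain ⟨d', hd'⟩ := exists_pow_bound (r.comp (4 * Polynomial.X + 1))
  simp only [Polynomial.eval_comp, Polynomial.eval_add, Polynomial.eval_mul, Polynomial.eval_X,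
    Polynomial.eval_ofNat, Polynomial.eval_pow, Polynomial.eval_one] at ha hb hd'
  have hszx : ∀ x : List Bool, sz ((x, []) : In) ≤ 4 * x.length + 3 := by
    intro x
    rw [sz_prod]
    have h1 := sz_listBool x
    have h2 := sz_listBool []
    simp only [List.length_nil] at h2
    simp only
    omega
  have hix : ix (pr e.1 (pr4 e.2 a b m)) = (e, (a, b), m) := by
    unfold ix
    rw [n5_pr]
  have hcp : ∀ {a n l : ℕ}, guardn a n l → cpow a n l = (n + 2) ^ (a + 1) := by
    intro a n l h
    simp [cpow, h]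
  obtain ⟨d, hd⟩ := exists_pow_bound (U.comp (Polynomial.C (sz e) +
    (2 * (Polynomial.X + 2) ^ (a + 1) + 2 * (Polynomial.X + 2) ^ (b + 1) + 10) +
    (4 * Polynomial.X + 3) + 10) + 1)
  simp only [Polynomial.eval_comp, Polynomial.eval_add, Polynomial.eval_mul, Polynomial.eval_X,
    Polynomial.eval_ofNat, Polynomial.eval_pow, Polynomial.eval_one, Polynomial.eval_C] at hd
  refine ⟨pr e.1 (pr4 e.2 a b m), by rw [hix], fun X l x h1 h2 => ?_,
    (a + 1) + (b + 1) + (d + 1) + (c m + 1) * (d' + 3), fun X l x h => ?_⟩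
  · rw [hix] at h1 h2
    simp only at h1 h2
    unfold run zin
    rw [hix]
    simp only
    rw [hcp h1, hcp h2, hQ]
    · exact (eval_mono Q (hszx x)).trans (ha _)
    · exact (eval_mono Q (Nat.add_le_add_right (hszx x) _)).trans (hb _)
  · set n := x.length with hn
    set k := Nat.size n + 1 with hk
    have hga : guardn a n l := by
      unfold guardn
      refine le_trans ?_ h
      exact Nat.mul_le_mul_right _ (by omega)
    have hgb : guardn b n l := by
      unfold guardn
      refine le_trans ?_ h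
      exact Nat.mul_le_mul_right _ (by omega)
    have hgd : guardn d n l := by
      unfold guardn
      refine le_trans ?_ h
      exact Nat.mul_le_mul_right _ (by omega)
    unfold Val
    rw [hix]
    refine ⟨⟨hga, hgb⟩, ?_, ?_⟩
    · have h1 : sz (zin (pr e.1 (pr4 e.2 a b m)) l x) ≤ sz e +
          (2 * (n + 2) ^ (a + 1) + 2 * (n + 2) ^ (b + 1) + 10) + (4 * n + 3) + 10 := by
        unfold zin
        rw [hix]
        simp only [← hn]
        rw [hcp hga, hcp hgb, sz_prod, sz_prod (α := ℕ × ℕ) (β := In)]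
        simp only
        have h5 : sz ((n + 2) ^ (a + 1), (n + 2) ^ (b + 1)) ≤
            2 * (n + 2) ^ (a + 1) + 2 * (n + 2) ^ (b + 1) + 10 := by
          rw [sz_prod, sz_nat, sz_nat]
          omega
        have := hszx x
        omega
      have h2 := eval_mono U h1
      have h3 := hd n
      have h4 := guardn_pow hgd
      omega
    · unfold guardn
      have h1 : (F X x).length ≤ (n + 2) ^ (d' + 1) :=
        (length_le_sz _).trans ((hr X x).trans ((eval_mono r (sz_listBool x)).trans (hd' _)))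
      have h2 : Nat.size (F X x).length ≤ k * (d' + 1) + 1 := by
        refine size_le_of_lt_pow (h1.trans_lt ?_)
        calc (n + 2) ^ (d' + 1) ≤ (2 ^ k) ^ (d' + 1) :=
              Nat.pow_le_pow_left (size_bound _) _
          _ = 2 ^ (k * (d' + 1)) := by rw [← pow_mul]
          _ < _ := Nat.pow_lt_pow_right (by norm_num) (by omega)
      have hk1 : 1 ≤ k := by omega
      have h3 : Nat.size (F X x).length + 1 ≤ (d' + 3) * k := by nlinarith
      calc (c m + 1) * (Nat.size (F X x).length + 1) ≤ (c m + 1) * ((d' + 3) * k) :=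
            Nat.mul_le_mul_left _ h3
        _ = ((c m + 1) * (d' + 3)) * k := by ring
        _ ≤ _ := (Nat.mul_le_mul_right _ (by omega)).trans h

end Pool.Agent.TO42
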