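import Pool.Agent.TO42.NPF
import Pool.Agent.POpt70.RelComp

/-!
# Module TO42/Canon

Reductions and complete languages relative to an oracle.

PROOF. `hasPOptimal_of_reduction`: port of `optimal_of_reduction` (POpt70/Rel.lean): with
`⟨F, hF, rfl⟩ := hf.exists_UT` etc. all functions are values at `X` of `UT` functionals; the new
system is `π ↦ if Q (D π).2 = f (D π).1 then (D π).1 else y0`, `D` a decoder of pairs
(`Compat.dec`); use `UT.pair`, `UT.comp`, `UT.pre`, `UT.post`, `UT.isPolyTimeOracle`.
`exists_complete`: `K z := ∃ w, w.length ≤ |b| ∧ UM X ((e₁,e₂), (N,t), (x, w)) = [true]` where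
`z` encodes (`bitEncode`) the list data `(1^e₁, 1^e₂, 1^N, 1^t, 1^b, x)`; it is `npf p F X` for the
functional `F X (z, w) := decide (w.length ≤ |b|) && decide (UM X (.., (x, w)) = [true])`
(`UM_UT.pre`, `UT.post`), `p` a bound for `|b|` in `z.length` (`exists_length_bound` of
POpt70/RelP.lean). Hardness: for `B = npf p G X` (`mem_NPOracle_iff`) let `G' X v := [G X v]`,
`⟨e, Q, h⟩ := UM_spec G'`, and reduce `x` to the code of `(e₁, e₂, N, t, p.eval x.length, x)` with
`N = Q.eval (size bound of (x, w))`, `t = Q.eval (.. + N)`, `sz (x, w) ≤ 4 * x.length +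
4 * p.eval x.length + 3`. Nonempty: reduce the language of all strings.
`not_QOne_iff`: from left to right: a hard `L₀ ∈ NP^X` with an optimal system; every nonempty
`L ∈ NP^X` reduces to it. From right to left: apply the hypothesis to the complete language.
-/

set_option autoImplicit false

namespace Pool.Agent.TO42

open Pool.Agent.PT Pool.Agent.TMB67 Pool.Agent.POpt67 Pool.Agent.POpt70 Pool.Agent.ROr14
open N68a2faeb N793a5b8e N487b59b3

theorem hasPOptimal_of_reduction {X : List Bool → Bool} {L B : DecisionProblem}
    {f : List Bool → List Bool} (hf : IsPolyTimeOracle X f) (hfB : ∀ x, B x = L (f x))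
    (hne : ∃ y, B y = true) (hL : HasPOptimal X L) : HasPOptimal X B := by
  obtain ⟨y0, h0⟩ := hne
  obtain ⟨Q, hQ, hopt⟩ := hL
  obtain ⟨hQ1, hQ2⟩ := hQ
  obtain ⟨f', hf', rfl⟩ := hf.exists_UT
  obtain ⟨Q', hQ', rfl⟩ := hQ1.exists_UT
  obtain ⟨D, hD, hD'⟩ := Compat.dec (α := List Bool × List Bool)
  have key : ∀ S : List Bool → List Bool, IsPolyTimeOracle X S → (∀ π, B (S π) = true) →
      ∃ h : List Bool → List Bool, IsPolyTimeOracle X h ∧
        ∀ π, (if Q' X (D (h π)).2 = f' X (D (h π)).1 then (D (h π)).1 else y0) = S π := by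
    intro S hS hSA
    obtain ⟨S', hS', rfl⟩ := hS.exists_UT
    have h1 : IsProofSystemOracle X L
        (fun π => bif π.headD false then f' X (S' X π.tail) else Q' X π.tail) := by
      refine ⟨?_, fun y => ⟨fun hy => ?_, ?_⟩⟩
      · have h2 : UT (fun X (π : List Bool) =>
            (π.headD false, (f' X (S' X π.tail), Q' X π.tail))) :=
          (UT.of (f := fun π : List Bool => π.headD false) (by fun_prop)).pair
            (((hf'.comp hS').pre (g := fun π : List Bool => π.tail) (by fun_prop)).pair
              (hQ'.pre (g := fun π : List Bool => π.tail) (by fun_prop)))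
        exact (UT.post (g := fun p : Bool × (List Bool × List Bool) =>
          bif p.1 then p.2.1 else p.2.2) (PolyTime.cond (by fun_prop) (by fun_prop)
            (by fun_prop)) h2).isPolyTimeOracle X
      · obtain ⟨π, hπ⟩ := (hQ2 y).1 hy
        exact ⟨false :: π, by simpa using hπ⟩
      · rintro ⟨π, rfl⟩
        beta_reduce
        cases π.headD false
        · simpa using (hQ2 _).2 ⟨_, rfl⟩
        · simpa [← hfB] using hSA _
    obtain ⟨h, hh, hh'⟩ := hopt _ h1
    obtain ⟨h', hh1, rfl⟩ := hh.exists_UT
    refine ⟨fun π => bitEncode (S' X π, h' X (true :: π)), ?_, fun π => ?_⟩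
    · exact (UT.post (Compat.enc (α := List Bool × List Bool)) (hS'.pair
        (hh1.pre (g := fun π : List Bool => true :: π) (by fun_prop)))).isPolyTimeOracle X
    · have h3 := hh' (true :: π)
      simp only [List.headD_cons, List.tail_cons, cond_true] at h3
      simp [hD', h3]
  refine ⟨fun π => if Q' X (D π).2 = f' X (D π).1 then (D π).1 else y0,
    ⟨?_, fun y => ⟨fun hy => ?_, ?_⟩⟩, fun S hS => ?_⟩
  · have h2 : UT (fun X (π : List Bool) => ((D π).1, (f' X (D π).1, Q' X (D π).2))) :=
      (UT.of (f := fun π : List Bool => (D π).1) (by fun_prop)).pair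
        ((hf'.pre (g := fun π : List Bool => (D π).1) (by fun_prop)).pair
          (hQ'.pre (g := fun π : List Bool => (D π).2) (by fun_prop)))
    exact (UT.post (g := fun p : List Bool × (List Bool × List Bool) =>
      if p.2.2 = p.2.1 then p.1 else y0) (PolyTime.ite (PolyTime.decide_eq (by fun_prop)
        (by fun_prop)) (by fun_prop) (by fun_prop)) h2).isPolyTimeOracle X
  · obtain ⟨h, _, hh⟩ := key (fun _ => y)
      ((UT.of (f := fun _ : List Bool => y) (PolyTime.const y)).isPolyTimeOracle X) fun _ => hy
    exact ⟨h [], hh []⟩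
  · rintro ⟨π, rfl⟩
    beta_reduce
    by_cases hc : Q' X (D π).2 = f' X (D π).1
    · rw [if_pos hc, hfB, ← hc]
      exact (hQ2 _).2 ⟨_, rfl⟩
    · rw [if_neg hc]
      exact h0
  · obtain ⟨h, hh, hh'⟩ := key S hS.1 fun π => (hS.2 _).2 ⟨π, rfl⟩
    exact ⟨h, hh, hh'⟩

/-- The data of an instance of the complete language. -/
abbrev KData := List Bool × (List Bool × (List Bool × (List Bool × (List Bool × List Bool))))

theorem exists_hard (X : List Bool → Bool) :
    ∃ L ∈ NPOracle X, IsNPHardOracle X L := by
  obtain ⟨D, hD, hD'⟩ := Compat.dec (α := KData)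
  obtain ⟨q, hq⟩ := exists_length_bound (s := fun z => (D z).2.2.2.2.1.length)
    ((PolyTime.length (PolyTime.fst (PolyTime.snd (PolyTime.snd (PolyTime.snd
      (PolyTime.snd hD)))))).pbdd.of_le fun x => by rw [sz_nat]; omega)
  set F : (List Bool → Bool) → List Bool × List Bool → Bool := fun X z =>
    decide (z.2.length ≤ (D z.1).2.2.2.2.1.length) &&
      decide (UM X (((D z.1).1.length, (D z.1).2.1.length),
        ((D z.1).2.2.1.length, (D z.1).2.2.2.1.length), ((D z.1).2.2.2.2.2, z.2)) = [true])
    with hFdef
  have hF : UT F := by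
    have hD2 : PolyTime (fun z : List Bool × List Bool => D z.1) := hD.comp PolyTime.fst'
    have h1 : UT (fun X (z : List Bool × List Bool) =>
        (decide (z.2.length ≤ (D z.1).2.2.2.2.1.length),
          UM X (((D z.1).1.length, (D z.1).2.1.length),
        ((D z.1).2.2.1.length, (D z.1).2.2.2.1.length), ((D z.1).2.2.2.2.2, z.2)))) := by
      refine UT.pair (UT.of ?_) (UM_UT.pre ?_)
      · exact PolyTime.decide_le (by fun_prop) (by fun_prop)
      · fun_prop
    exact UT.post (g := fun p : Bool × List Bool => p.1 && decide (p.2 = [true]))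
      (PolyTime.and (by fun_prop) (PolyTime.decide_eq (by fun_prop) (PolyTime.const [true]))) h1
  refine ⟨npf q F X, npf_mem q hF, fun B hB => ?_⟩
  obtain ⟨p, G, hG, rfl⟩ := mem_NPOracle_iff.1 hB
  have hG' : UT (fun X (v : In) => [G X v]) :=
    UT.post (g := fun b : Bool => [b]) (by fun_prop) hG
  obtain ⟨e, Q, hUM⟩ := UM_spec hG'
  have hp : PolyTime (fun x : List Bool => p.eval x.length) := polyEval_length p PolyTime.id
  have hs : PolyTime (fun x : List Bool => 4 * x.length + 4 * p.eval x.length + 3) :=
    PolyTime.natAdd (PolyTime.natAdd (PolyTime.natMul (PolyTime.const 4) (by fun_prop))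
      (PolyTime.natMul (PolyTime.const 4) hp)) (PolyTime.const 3)
  have hN : PolyTime (fun x : List Bool => Q.eval (4 * x.length + 4 * p.eval x.length + 3)) :=
    polyEval_polyTime hs Q
  have ht : PolyTime (fun x : List Bool => Q.eval (4 * x.length + 4 * p.eval x.length + 3 +
      Q.eval (4 * x.length + 4 * p.eval x.length + 3))) :=
    polyEval_polyTime (PolyTime.natAdd hs hN) Q
  refine ⟨fun x => bitEncode ((List.replicate e.1 true, (List.replicate e.2 true,
    (List.replicate (Q.eval (4 * x.length + 4 * p.eval x.length + 3)) true,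
    (List.replicate (Q.eval (4 * x.length + 4 * p.eval x.length + 3 +
      Q.eval (4 * x.length + 4 * p.eval x.length + 3))) true,
    (List.replicate (p.eval x.length) true, x))))) : KData), ?_, fun x => ?_⟩
  · refine (UT.of ?_).isPolyTimeOracle X
    exact (Compat.enc (α := KData)).comp (PolyTime.pair (PolyTime.const _)
      (PolyTime.pair (PolyTime.const _) (PolyTime.pair (PolyTime.replicate hN
        (PolyTime.const true)) (PolyTime.pair (PolyTime.replicate ht (PolyTime.const true))
          (PolyTime.pair (PolyTime.replicate hp (PolyTime.const true)) PolyTime.id)))))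
  · rw [Bool.eq_iff_iff, npf_iff, npf_iff]
    have key : ∀ w : List Bool, w.length ≤ p.eval x.length →
        UM X (e, (Q.eval (4 * x.length + 4 * p.eval x.length + 3),
          Q.eval (4 * x.length + 4 * p.eval x.length + 3 +
            Q.eval (4 * x.length + 4 * p.eval x.length + 3))), (x, w)) = [G X (x, w)] := by
      intro w hw
      have h1 : sz ((x, w) : In) ≤ 4 * x.length + 4 * p.eval x.length + 3 := by
        have h1 := sz_listBool x
        have h2 := sz_listBool w
        rw [sz_prod]
        simp only
        omega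
      exact hUM X (x, w) _ _ (eval_mono Q h1) (eval_mono Q (by omega))
    constructor
    · rintro ⟨w, hw, hw'⟩
      refine ⟨w, hw.trans ?_, ?_⟩
      · refine le_trans ?_ (hq _)
        rw [hD']
        simp
      · rw [hFdef]
        simp only [hD', List.length_replicate, Bool.and_eq_true, decide_eq_true_iff]
        refine ⟨hw, ?_⟩
        rw [key w hw, hw']
    · rintro ⟨w, _, hw'⟩
      rw [hFdef] at hw'
      simp only [hD', List.length_replicate, Bool.and_eq_true, decide_eq_true_iff] at hw'
      obtain ⟨hw, hw'⟩ := hw'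
      refine ⟨w, hw, ?_⟩
      rw [key w hw] at hw'
      simpa using hw'

theorem exists_complete (X : List Bool → Bool) :
    ∃ L ∈ NPOracle X, IsNPHardOracle X L ∧ ∃ y, L y = true := by
  obtain ⟨L, hL, hhard⟩ := exists_hard X
  obtain ⟨f, _, hf⟩ := hhard _ (npf_mem (X := X) 0
    (UT.of (f := fun _ : List Bool × List Bool => true) (PolyTime.const true)))
  refine ⟨L, hL, hhard, f [], ?_⟩
  rw [← hf, npf_iff]
  exact ⟨[], by simp, rfl⟩

/-- The negation of the relativized question in terms of all languages. -/
theorem not_QOne_iff (X : List Bool → Bool) :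
    ¬ QOne X ↔ ∀ L ∈ NPOracle X, (∃ y, L y = true) → HasPOptimal X L := by
  constructor
  · intro h L hL hne
    unfold QOne at h
    push Not at h
    obtain ⟨L₀, _, hhard, hopt⟩ := h
    obtain ⟨f, hf, hf'⟩ := hhard L hL
    exact hasPOptimal_of_reduction hf hf' hne hopt
  · intro h hQ
    obtain ⟨L, hL, hhard, hne⟩ := exists_complete X
    exact hQ L hL hhard (h L hL hne)

end Pool.Agent.TO42
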