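import Pool.Agent.POpt70.RelDefs
import Pool.Agent.ROr14.Defs
import Mathlib.Topology.Baire.Lemmas
import Mathlib.Topology.GDelta.Basic

/-!
# Tiny oracles: definitions
-/

set_option autoImplicit false

namespace Pool.Agent.TO42

open N68a2faeb N793a5b8e N487b59b3 MeasureTheory Pool.Agent.ROr14

/-- The tally oracle `{1^(2^k) : T k}`. -/
def tal (T : ℕ → Bool) (w : List Bool) : Bool :=
  decide (w = List.replicate (2 ^ Nat.log 2 w.length) true) && T (Nat.log 2 w.length)

/-- `P` relative to `X`. -/
def POracle (X : List Bool → Bool) : DecisionComplexityClass := { L | IsPolyTimeOracle X L }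

/-- `L` has a p-optimal proof system relative to `X`. -/
def HasPOptimal (X : List Bool → Bool) (L : DecisionProblem) : Prop :=
  ∃ P, IsProofSystemOracle X L P ∧ ∀ Q, IsProofSystemOracle X L Q →
    ∃ h : List Bool → List Bool, IsPolyTimeOracle X h ∧ ∀ π, P (h π) = Q π

/-- The question relative to `X`: no `NP`-complete language has a p-optimal proof system. -/
def QOne (X : List Bool → Bool) : Prop :=
  ∀ L ∈ NPOracle X, IsNPHardOracle X L → ¬ HasPOptimal X L

/-- Languages relative to an oracle `X` such that the membership of `x` depends only on the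
restriction of `X` to the strings of length at most `p(|x|)`, for a polynomial `p`. -/
def PolyUse (Λ : (List Bool → Bool) → DecisionProblem) : Prop :=
  ∃ p : Polynomial ℕ, ∀ (X Y : List Bool → Bool) (x : List Bool),
    (∀ w : List Bool, w.length ≤ p.eval x.length → X w = Y w) → Λ X x = Λ Y x

/-- `Π₂ᵖ` relative to `X`. -/
def PiTwoOracle (X : List Bool → Bool) : DecisionComplexityClass :=
  { L | ∃ (p : Polynomial ℕ) (R : List Bool × (List Bool × List Bool) → Bool),
      IsPolyTimeOracle X R ∧ ∀ x, L x ↔ ∀ u : List Bool, u.length ≤ p.eval x.length →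
        ∃ w : List Bool, w.length ≤ p.eval x.length ∧ R (x, (u, w)) }

/-- `F` is one-way with exponential security relative to `X`: it is computable in polynomial time
relative to `X`, and for every `M` computable in polynomial time relative to `X` there is `k` such
that for all `n ≥ k` and every advice string `a` of length at most `2^(n/k)`, at most
`2^(n - n/k)` of the strings `x` of length `n` are such that `M (a, F x)` is a preimage
of `F x`. -/
def IsOneWay (X : List Bool → Bool) (F : List Bool → List Bool) : Prop :=
  IsPolyTimeOracle X F ∧ ∀ M : List Bool × List Bool → List Bool, IsPolyTimeOracle X M →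
    ∃ k : ℕ, ∀ n ≥ k, ∀ a : List Bool, a.length ^ k ≤ 2 ^ n →
      Nat.card {x : List.Vector Bool n // F (M (a, F x.toList)) = F x.toList} ^ k * 2 ^ n ≤
        2 ^ (k * n)

end Pool.Agent.TO42
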