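import Pool.Agent.TO42.Use
import Pool.Agent.TO42.Defs
import Pool.Agent.ROr14.Mach

/-!
# Module TO42/NPF

`NP` functionals, and countability.

PROOF. `mem_NPOracle_iff`: `IsPolyTimeOracle.exists_UT`, `UT.isPolyTimeOracle`.
`npf_polyUse`: `exists_use hF` gives `U`; for `w.length ≤ p.eval x.length` we have
`sz (x, w) ≤ 4 * x.length + 4 * p.eval x.length + 3`; take
`U.comp (4 * X + 4 * p + 3)`.
`countable_polyTime'`: every `PolyTime` function `f` is determined by a program: by the definition
of `PolyTime` (PT/Basic.lean: `∃ p P, ..` a program `p : Cmd` that computes `f` in the sense of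
`Exec`, which is deterministic) the map `f ↦ p` (choice) is injective into the countable type of the
programs (`cmdOf_surjective` shows that `Cmd` is countable); alternatively via `Compat`:
`f = D ∘ val q a ∘ bitEncode` as in `countable_polyTime` of POpt70/RelGen.lean, which is enough if
instances `N487b59b3`, `Compat` are added as hypotheses (allowed: then add them also to
`countable_UT`; all our types are products of `List Bool`).
`countable_UT`: `F` is determined by `(p, q, g)` via `F X x = g (x, answers X q x (p.eval (sz x)))`;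
image of a countable product set. `countable_npf`: image of a countable set.
-/

set_option autoImplicit false

namespace Pool.Agent.TO42

open Pool.Agent.PT Pool.Agent.TMB67 Pool.Agent.POpt67 Pool.Agent.POpt70 Pool.Agent.ROr14
open N68a2faeb N793a5b8e N487b59b3

open Classical in
/-- The `NP` functional with verifier `F` and bound `p`. -/
noncomputable def npf (p : Polynomial ℕ) (F : (List Bool → Bool) → List Bool × List Bool → Bool)
    (X : List Bool → Bool) (x : List Bool) : Bool :=
  decide (∃ w : List Bool, w.length ≤ p.eval x.length ∧ F X (x, w) = true)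

theorem npf_iff {p : Polynomial ℕ} {F : (List Bool → Bool) → List Bool × List Bool → Bool}
    {X : List Bool → Bool} {x : List Bool} : npf p F X x = true ↔
      ∃ w : List Bool, w.length ≤ p.eval x.length ∧ F X (x, w) = true := by
  simp [npf]

theorem mem_NPOracle_iff {X : List Bool → Bool} {L : DecisionProblem} : L ∈ NPOracle X ↔
    ∃ (p : Polynomial ℕ) (F : (List Bool → Bool) → List Bool × List Bool → Bool),
      UT F ∧ L = npf p F X := by
  constructor
  · rintro ⟨p, R, hR, hL⟩
    obtain ⟨F, hF, rfl⟩ := hR.exists_UT
    refine ⟨p, F, hF, funext fun x => ?_⟩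
    rw [Bool.eq_iff_iff, npf_iff]
    exact hL x
  · rintro ⟨p, F, hF, rfl⟩
    exact ⟨p, F X, hF.isPolyTimeOracle X, fun x => npf_iff⟩

theorem npf_mem {X : List Bool → Bool} (p : Polynomial ℕ)
    {F : (List Bool → Bool) → List Bool × List Bool → Bool} (hF : UT F) :
    npf p F X ∈ NPOracle X := mem_NPOracle_iff.2 ⟨p, F, hF, rfl⟩

theorem npf_polyUse (p : Polynomial ℕ) {F : (List Bool → Bool) → List Bool × List Bool → Bool}
    (hF : UT F) : PolyUse (npf p F) := by
  obtain ⟨U, hU⟩ := exists_use hF
  refine ⟨U.comp (4 * Polynomial.X + 4 * p + 3), fun X Y x h => ?_⟩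
  have key : ∀ w : List Bool, w.length ≤ p.eval x.length → F X (x, w) = F Y (x, w) := by
    intro w hw
    refine hU X Y (x, w) fun v hv => h v (hv.trans ?_)
    rw [Polynomial.eval_comp]
    refine eval_mono U ?_
    rw [sz_prod]
    have h1 := sz_listBool x
    have h2 := sz_listBool w
    simp only [Polynomial.eval_add, Polynomial.eval_X, Polynomial.eval_mul, Polynomial.eval_ofNat]
    omega
  rw [Bool.eq_iff_iff, npf_iff, npf_iff]
  constructor
  · rintro ⟨w, hw, h1⟩
    exact ⟨w, hw, by rw [← key w hw]; exact h1⟩
  · rintro ⟨w, hw, h1⟩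
    exact ⟨w, hw, by rw [key w hw]; exact h1⟩

private theorem npf_run_det {p : Cmd} {S S1 : St} {t1 : ℕ} (h1 : Run p S S1 t1) :
    ∀ {S2 : St} {t2 : ℕ}, Run p S S2 t2 → S1 = S2 := by
  induction h1 with
  | skip S => intro S2 t2 h; cases h; rfl
  | push k x S => intro S2 t2 h; cases h; rfl
  | seq _ _ ih1 ih2 =>
    intro S2 t2 h
    cases h with
    | seq h1 h2 =>
      have := ih1 h1
      subst this
      exact ih2 h2
  | caseNone hk _ ih =>
    intro S2 t2 h
    cases h with
    | caseNone _ h2 => exact ih h2
    | caseFalse hk' _ => rw [hk] at hk'; cases hk'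
    | caseTrue hk' _ => rw [hk] at hk'; cases hk'
  | caseFalse hk _ ih =>
    intro S2 t2 h
    cases h with
    | caseNone hk' _ => rw [hk] at hk'; cases hk'
    | caseFalse hk' h2 => rw [hk] at hk'; cases hk'; exact ih h2
    | caseTrue hk' _ => rw [hk] at hk'; cases hk'
  | caseTrue hk _ ih =>
    intro S2 t2 h
    cases h with
    | caseNone hk' _ => rw [hk] at hk'; cases hk'
    | caseFalse hk' _ => rw [hk] at hk'; cases hk'
    | caseTrue hk' h2 => rw [hk] at hk'; cases hk'; exact ih h2
  | loopNone hk =>
    intro S2 t2 h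
    cases h with
    | loopNone _ => rfl
    | loopFalse hk' => rw [hk] at hk'; cases hk'
    | loopTrue hk' _ _ => rw [hk] at hk'; cases hk'
  | loopFalse hk =>
    intro S2 t2 h
    cases h with
    | loopNone hk' => rw [hk] at hk'; cases hk'
    | loopFalse hk' => rw [hk] at hk'; cases hk'; rfl
    | loopTrue hk' _ _ => rw [hk] at hk'; cases hk'
  | loopTrue hk _ _ ih1 ih2 =>
    intro S2 t2 h
    cases h with
    | loopNone hk' => rw [hk] at hk'; cases hk'
    | loopFalse hk' => rw [hk] at hk'; cases hk'
    | loopTrue hk' h1 h2 =>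
      rw [hk] at hk'
      cases hk'
      have := ih1 h1
      subst this
      exact ih2 h2

theorem countable_polyTime' {α β : Type} [Enc α] [Enc β] :
    {f : α → β | PolyTime f}.Countable := by
  classical
  have hc : Countable Cmd := Function.Surjective.countable cmdOf_surjective
  have hex : ∀ f : {f : α → β | PolyTime f}, ∃ p : Cmd, ∃ P : Polynomial ℕ,
      ∀ (x : α) (a b c d : List Bool),
        Exec p ⟨code x ++ a, b, c, d⟩ ⟨code (f.1 x) ++ a, b, c, d⟩ (P.eval (sz x)) := fun f => f.2
  choose φ hφ using hex
  refine Set.countable_coe_iff.1 (Function.Injective.countable (f := φ) fun f g hfg => ?_)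
  refine Subtype.ext (funext fun x => ?_)
  obtain ⟨P, hP⟩ := hφ f
  obtain ⟨Q, hQ⟩ := hφ g
  obtain ⟨t1, _, h1⟩ := hP x [] [] [] []
  obtain ⟨t2, _, h2⟩ := hQ x [] [] [] []
  rw [hfg] at h1
  have h3 := npf_run_det h1 h2
  have h4 : code (f.1 x) = code (g.1 x) := by simpa using h3
  exact Enc.inj (Dt.enc_inj h4)

private theorem npf_countable_poly : Countable (Polynomial ℕ) := by
  refine Function.Injective.countable
    (f := fun p : Polynomial ℕ => (List.range (p.natDegree + 1)).map p.coeff) fun p q h => ?_
  have h1 : p.natDegree = q.natDegree := by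
    have := congrArg List.length h
    simpa using this
  ext n
  by_cases hn : n ≤ p.natDegree
  · have h2 := congrArg (fun l : List ℕ => l[n]?) h
    simp only [List.getElem?_map] at h2
    rw [List.getElem?_range (by omega), List.getElem?_range (by omega)] at h2
    simpa using h2
  · rw [Polynomial.coeff_eq_zero_of_natDegree_lt (by omega),
      Polynomial.coeff_eq_zero_of_natDegree_lt (by omega)]

theorem countable_UT {α β : Type} [Enc α] [Enc β] :
    {F : (List Bool → Bool) → α → β | UT F}.Countable := by
  have := npf_countable_poly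
  have h1 : (Set.univ : Set (Polynomial ℕ)).Countable := Set.countable_univ
  have h2 := (h1.prod ((countable_polyTime' (α := α × List Bool) (β := List Bool)).prod
    (countable_polyTime' (α := α × List Bool) (β := β)))).image
      (fun z : Polynomial ℕ × (α × List Bool → List Bool) × (α × List Bool → β) =>
        fun (X : List Bool → Bool) (x : α) => z.2.2 (x, answers X z.2.1 x (z.1.eval (sz x))))
  refine h2.mono ?_
  rintro F ⟨p, q, g, hq, hg, hF⟩
  refine ⟨(p, q, g), ⟨trivial, hq, hg⟩, ?_⟩
  funext X x
  exact (hF X x _ le_rfl).symm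

theorem countable_npf : {Λ : (List Bool → Bool) → DecisionProblem |
    ∃ (p : Polynomial ℕ) (F : (List Bool → Bool) → List Bool × List Bool → Bool),
      UT F ∧ Λ = npf p F}.Countable := by
  have := npf_countable_poly
  have h1 : (Set.univ : Set (Polynomial ℕ)).Countable := Set.countable_univ
  have h2 := (h1.prod (countable_UT (α := List Bool × List Bool) (β := Bool))).image
      (fun z : Polynomial ℕ × ((List Bool → Bool) → List Bool × List Bool → Bool) =>
        npf z.1 z.2)
  refine h2.mono ?_
  rintro Λ ⟨p, F, hF, rfl⟩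
  exact ⟨(p, F), ⟨trivial, hF⟩, rfl⟩

end Pool.Agent.TO42
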