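import Pool.Agent.ROr14.Calc

/-!
# Module TO42/Subst

Replacing the oracle of a functional by an oracle that is computed with ONE question.

PROOF. Let `⟨p, q, g, hq, hg, hF⟩ := hF`. For raw answers `a : List Bool` define
`conv (c, x) a : List Bool := a.foldl (fun b r => b ++ [v ((c, q (x, b)), r)]) []`. It is
polynomial time in `((c, x), a)` by `PolyTime.foldl` (or `foldl_add`): the accumulator after `i`
steps has length `i ≤ a.length`, so its size is at most `4 * a.length + 1`. Put
`Q (z, a) := ρ (z.1, q (z.2, conv z a))`, `g' (z, a) := g (z.2, conv z a)`, polynomial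
`p` composed so that `p.eval (sz z.2) ≤ p.eval (sz z)`. By induction on `m`:
`conv z (answers X Q z m) = answers (fun w => v ((z.1, w), X (ρ (z.1, w)))) q z.2 m`
(`List.foldl_append`). Hence the claim.
-/

set_option autoImplicit false

namespace Pool.Agent.TO42

open Pool.Agent.PT Pool.Agent.TMB67 Pool.Agent.POpt67 Pool.Agent.POpt70 Pool.Agent.ROr14
open N68a2faeb N793a5b8e N487b59b3

/-- Substitution of an oracle computed with one question. -/
theorem UT_subst {α β γ : Type} [Enc α] [Enc β] [Enc γ] {F : (List Bool → Bool) → α → β}
    (hF : UT F) {ρ : γ × List Bool → List Bool} {v : (γ × List Bool) × Bool → Bool}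
    (hρ : PolyTime ρ) (hv : PolyTime v) :
    UT (fun X (z : γ × α) => F (fun w => v ((z.1, w), X (ρ (z.1, w)))) z.2) := by
  obtain ⟨p, q, g, hq, hg, hF⟩ := hF
  set stp : γ × α → List Bool → Bool → List Bool :=
    fun z b r => b ++ [v ((z.1, q (z.2, b)), r)] with hstp
  set conv : γ × α → List Bool → List Bool := fun z a => a.foldl (stp z) [] with hconv
  have hlen : ∀ (z : γ × α) (a b : List Bool),
      (a.foldl (stp z) b).length = b.length + a.length := by
    intro z a
    induction a with
    | nil => intro b; simp
    | cons r a ih =>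
      intro b
      rw [List.foldl_cons, ih, hstp]
      simp only [List.length_append, List.length_cons, List.length_nil]
      omega
  have hstpp : PolyTime (fun w : ((γ × α) × List Bool) × (List Bool × Bool) =>
      stp w.1.1 w.2.1 w.2.2) := by
    rw [hstp]
    have h1 : PolyTime (fun w : ((γ × α) × List Bool) × (List Bool × Bool) =>
        q (w.1.1.2, w.2.1)) := hq.comp (by fun_prop)
    have h2 : PolyTime (fun w : ((γ × α) × List Bool) × (List Bool × Bool) =>
        v ((w.1.1.1, q (w.1.1.2, w.2.1)), w.2.2)) :=
      hv.comp (PolyTime.pair (PolyTime.pair (by fun_prop) h1) (by fun_prop))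
    fun_prop
  have hconvp : PolyTime (fun w : (γ × α) × List Bool => conv w.1 w.2) := by
    refine PolyTime.foldl (l := fun w : (γ × α) × List Bool => w.2)
      (g := fun w b r => stp w.1 b r) (y := fun _ => []) (by fun_prop) hstpp (by fun_prop)
      (s := fun w => 4 * sz w.2 + 1) (by
        have h0 : PolyTime (fun w : (γ × α) × List Bool => w.2) := by fun_prop
        have := h0.pbdd
        fun_prop) ?_
    intro w i
    have h1 := sz_listBool ((w.2.take i).foldl (stp w.1) [])
    rw [hlen, List.length_nil, Nat.zero_add] at h1
    have h2 : (w.2.take i).length ≤ w.2.length := (List.take_sublist i w.2).length_le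
    have h3 : w.2.length ≤ sz w.2 := length_le_sz _
    change sz ((w.2.take i).foldl (stp w.1) []) ≤ 4 * sz w.2 + 1
    omega
  refine ⟨p, fun w => ρ (w.1.1, q (w.1.2, conv w.1 w.2)), fun w => g (w.1.2, conv w.1 w.2),
    ?_, ?_, ?_⟩
  · have h1 : PolyTime (fun w : (γ × α) × List Bool => q (w.1.2, conv w.1 w.2)) :=
      hq.comp (PolyTime.pair (by fun_prop) hconvp)
    exact hρ.comp (PolyTime.pair (by fun_prop) h1)
  · exact hg.comp (PolyTime.pair (by fun_prop) hconvp)
  · intro X z m hm
    have key : ∀ m : ℕ, conv z (answers X
        (fun w : (γ × α) × List Bool => ρ (w.1.1, q (w.1.2, conv w.1 w.2))) z m) =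
        answers (fun w => v ((z.1, w), X (ρ (z.1, w)))) q z.2 m := by
      intro m
      induction m with
      | zero => rfl
      | succ m ih =>
        have e : ∀ (a : List Bool) (r : Bool), conv z (a ++ [r]) =
            conv z a ++ [v ((z.1, q (z.2, conv z a)), r)] := by
          intro a r
          simp only [hconv, List.foldl_append, List.foldl_cons, List.foldl_nil, hstp]
        rw [answers, e, ih, answers]
    have hm' : p.eval (sz z.2) ≤ m := by
      refine (eval_mono p ?_).trans hm
      rw [sz_prod]
      omega
    beta_reduce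
    rw [key m]
    exact hF _ z.2 m hm'

end Pool.Agent.TO42
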