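import Pool.Agent.TO42.Defs
import Pool.Agent.TO42.Use
import Pool.Agent.TO42.Subst
import Pool.Agent.POpt70.RelGen

/-!
# Module TO42/Tal

The oracles `A ⊕ {1^(2^k) : T k}`.

PROOF. `tal_ones`: `Nat.log_pow`. `tal_congr`: only `k = Nat.log 2 w.length` matters, and if the
first conjunct holds then `w.length = 2 ^ k`. `join_congr` follows by cases on `w`.
`UT_par`: `UT_subst` with `γ`, `ρ (c, w) := w.tail`,
`v ((c, w), b) := if w = [] then false else if w.head = true then tal (fun j => t (c, j)) w.tail
else b`; `tal (fun j => t (c, j)) z = decide (z = replicate (cp z.length (log z.length)) true ∧ ..) &&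
t (c, log z.length)`: for polynomial time replace `2 ^ Nat.log 2 z.length` by
`cp z.length (Nat.log 2 z.length)` (equal, also for length `0`: `cp 0 0 = 1`), see `cp`, `cp_eq`,
`natLog_polyTime`, `PolyTime.replicate`. `UT_seg` is the special case `t (s, j) = s.getD j false`.
`UT_left`: `UT_subst` with `γ = Unit` or a dummy (e.g. `γ = List Bool`, constant `[]`, precomposed by
`UT.pre`), `ρ (c, w) := false :: w`, `v (_, b) := b`.
`readT_eq`: for `k < Nat.log 2 l` we have `2 ^ k ≤ l` so `cp l k = 2 ^ k`, then `tal_ones`.
`readT_UT`: `UT.map` with `UT.query`. `exists_use_tal`: `exists_use`; if `w.length ≤ U.eval (sz x)`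
then `join A (tal T) w = join A (tal T') w` since `w = true :: ones (2^j)` implies
`2 ^ j < U.eval (sz x)`.
-/

set_option autoImplicit false

namespace Pool.Agent.TO42

open Pool.Agent.PT Pool.Agent.TMB67 Pool.Agent.POpt67 Pool.Agent.POpt70 Pool.Agent.ROr14
open N68a2faeb N793a5b8e N487b59b3

/-- The oracle bits given by a finite segment, continued by zeros. -/
def sg (s : List Bool) (j : ℕ) : Bool := s.getD j false

theorem tal_ones (T : ℕ → Bool) (k : ℕ) : tal T (List.replicate (2 ^ k) true) = T k := by
  simp [tal, Nat.log_pow]

theorem tal_congr {T T' : ℕ → Bool} {w : List Bool} (h : ∀ j, 2 ^ j = w.length → T j = T' j) :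
    tal T w = tal T' w := by
  unfold tal
  by_cases hw : w = List.replicate (2 ^ Nat.log 2 w.length) true
  · have h1 : 2 ^ Nat.log 2 w.length = w.length := by
      conv_rhs => rw [hw]
      rw [List.length_replicate]
    rw [h _ h1]
  · simp [hw]

theorem join_congr {A : List Bool → Bool} {T T' : ℕ → Bool} {n : ℕ}
    (h : ∀ j, 2 ^ j < n → T j = T' j) (w : List Bool) (hw : w.length ≤ n) :
    join A (tal T) w = join A (tal T') w := by
  rcases w with _ | ⟨b, z⟩
  · rfl
  · cases b
    · rfl
    · change tal T z = tal T' z
      refine tal_congr fun j hj => h j ?_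
      rw [List.length_cons] at hw
      omega

theorem sg_pre {T : ℕ → Bool} {j k : ℕ} (h : j < k) : sg (pre T k) j = T j := by
  unfold sg
  rw [List.getD_eq_getElem _ _ (by simpa [pre] using h)]
  simp [pre]

section

variable {α β γ : Type} [Enc α] [Enc β] [Enc γ] {F : (List Bool → Bool) → α → β}

/-- Evaluation relative to `A ⊕ T` where `T` is given by a parameter. -/
theorem UT_par (hF : UT F) {t : γ × ℕ → Bool} (ht : PolyTime t) :
    UT (fun A (z : γ × α) => F (join A (tal fun j => t (z.1, j))) z.2) := by
  have htal : PolyTime (fun z : γ × List Bool => tal (fun j => t (z.1, j)) z.2) := by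
    have h1 : PolyTime (fun z : γ × List Bool =>
        decide (z.2 = List.replicate (cp z.2.length (Nat.log 2 z.2.length)) true) &&
          t (z.1, Nat.log 2 z.2.length)) := by
      refine PolyTime.and (PolyTime.decide_eq (by fun_prop) (PolyTime.replicate (by fun_prop)
        (by fun_prop))) (ht.comp (by fun_prop))
    refine h1.congr fun z => ?_
    have h2 : cp z.2.length (Nat.log 2 z.2.length) = 2 ^ Nat.log 2 z.2.length := by
      unfold cp
      rw [min_self]
    rw [h2]
    rfl
  have hv : PolyTime (fun z : (γ × List Bool) × Bool => bif decide (z.1.2 = []) then false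
      else bif z.1.2.headD false then tal (fun j => t (z.1.1, j)) z.1.2.tail else z.2) := by
    refine PolyTime.cond (PolyTime.decide_eq (by fun_prop) (by fun_prop)) (by fun_prop)
      (PolyTime.cond (PolyTime.headD (by fun_prop) (by fun_prop)) ?_ (by fun_prop))
    exact htal.comp (f := fun z : (γ × List Bool) × Bool => (z.1.1, z.1.2.tail)) (by fun_prop)
  refine (UT_subst hF (ρ := fun z : γ × List Bool => z.2.tail) (PolyTime.tail (by fun_prop))
    hv).congr fun X z => ?_
  congr 1
  funext w
  rcases w with _ | ⟨b, w⟩
  · rfl
  · cases b <;> simp [join]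

/-- Evaluation relative to `A ⊕ T` where `T` is given by a segment. -/
theorem UT_seg (hF : UT F) :
    UT (fun A (z : List Bool × α) => F (join A (tal (sg z.1))) z.2) := by
  have ht : PolyTime (fun z : List Bool × ℕ => sg z.1 z.2) := by
    unfold sg
    exact PolyTime.getD (by fun_prop) (by fun_prop) (by fun_prop)
  exact UT_par (γ := List Bool) hF (t := fun z => sg z.1 z.2) ht

/-- Functionals of the left half of the oracle. -/
theorem UT_left (hF : UT F) : UT (fun X => F (fun w => X (false :: w))) := by
  have h := UT_subst (γ := List Bool) hF (ρ := fun z => false :: z.2) (v := fun z => z.2)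
    (PolyTime.cons (by fun_prop) (by fun_prop)) (by fun_prop)
  exact (h.pre (g := fun x : α => (([] : List Bool), x)) (by fun_prop)).congr fun X x => rfl

theorem exists_use_tal (hF : UT F) : ∃ U : Polynomial ℕ, ∀ (A : List Bool → Bool)
    (T T' : ℕ → Bool) (x : α), (∀ j, 2 ^ j < U.eval (sz x) → T j = T' j) →
      F (join A (tal T)) x = F (join A (tal T')) x := by
  obtain ⟨U, hU⟩ := exists_use hF
  exact ⟨U, fun A T T' x h => hU _ _ x fun w hw => join_congr h w hw⟩

end

theorem join_left (A S : List Bool → Bool) : (fun w => join A S (false :: w)) = A := rfl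

/-- Everything computable relative to `A` is computable relative to `A ⊕ S`. -/
theorem IsPolyTimeOracle.join_left {α β : Type} [N487b59b3 α] [N487b59b3 β] [Enc α] [Enc β]
    [Compat α] [Compat β] {A : List Bool → Bool} {f : α → β} (hf : IsPolyTimeOracle A f)
    (S : List Bool → Bool) : IsPolyTimeOracle (join A S) f := by
  obtain ⟨p, q, g, hq, hg, h⟩ := hf
  refine ⟨p, fun z => false :: q z, g, isPolyTime_iff.2 (PolyTime.cons (PolyTime.const _)
    (isPolyTime_iff.1 hq)), hg, fun x => ?_⟩
  have key : ∀ m : ℕ, answers (join A S) (fun z => false :: q z) x m = answers A q x m := by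
    intro m
    induction m with
    | zero => rfl
    | succ m ih =>
      rw [answers, answers, ih]
      rfl
  rw [key, h x]

/-- Reading the oracle `T`. -/
def readT (X : List Bool → Bool) (l : ℕ) : List Bool :=
  (List.range (Nat.log 2 l)).map fun k => X (true :: List.replicate (cp l k) true)

theorem readT_eq (A : List Bool → Bool) (T : ℕ → Bool) (l : ℕ) :
    readT (join A (tal T)) l = pre T (Nat.log 2 l) := by
  unfold readT pre
  refine List.map_congr_left fun k hk => ?_
  rw [List.mem_range] at hk
  have hl : l ≠ 0 := by
    rintro rfl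
    simp at hk
  rw [cp_eq (Nat.pow_le_of_le_log hl hk.le)]
  exact tal_ones T k

theorem readT_UT : UT readT := by
  have h : UT (fun X (z : ℕ × ℕ) => X (true :: List.replicate (cp z.1 z.2) true)) :=
    UT.query.pre (g := fun z : ℕ × ℕ => true :: List.replicate (cp z.1 z.2) true)
      (PolyTime.cons (by fun_prop) (PolyTime.replicate (by fun_prop) (by fun_prop)))
  exact (UT.map (l := fun l : ℕ => List.range (Nat.log 2 l)) (PolyTime.range (by fun_prop))
    h).congr fun X x => rfl

end Pool.Agent.TO42
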