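import Pool.Agent.TO42.Run
import Pool.Agent.TO42.Defs

/-!
# Module TO42/Bad

Death of a program depends only on short questions.

PROOF. `bad_congr`: by symmetry one direction. Let `x` witness `Bad … X`. The third clause of `Val`
gives `U.eval (sz (zin i l x)) < l`, so by `hU` (for `z = zin i l x`) `UM X z = UM Y z`, i.e.
`run X (i, l, x) = run Y (i, l, x) =: y`. By `guardn_pow` `(y.length + 2) ^ (c m + 1) ≤ l`, hence
`(p m).eval y.length < l` by `hc`, and `Λ m X y = Λ m Y y` by `hp`.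
-/

set_option autoImplicit false

namespace Pool.Agent.TO42

open Pool.Agent.PT Pool.Agent.TMB67 Pool.Agent.POpt67 Pool.Agent.POpt70 Pool.Agent.ROr14
open N68a2faeb N793a5b8e N487b59b3

/-- Program `i` is found to be unsound below `l`. -/
def Bad (Λ : ℕ → (List Bool → Bool) → DecisionProblem) (U : Polynomial ℕ) (c : ℕ → ℕ) (i l : ℕ)
    (X : List Bool → Bool) : Prop :=
  ∃ x : List Bool, Val U (c (ix i).2.2) i l x (run X (i, l, x)) ∧
    Λ (ix i).2.2 X (run X (i, l, x)) = false

theorem bad_congr {Λ : ℕ → (List Bool → Bool) → DecisionProblem} {U : Polynomial ℕ}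
    {c : ℕ → ℕ} {p : ℕ → Polynomial ℕ}
    (hU : ∀ (X Y : List Bool → Bool) (z : (ℕ × ℕ) × (ℕ × ℕ) × In),
      (∀ w : List Bool, w.length ≤ U.eval (sz z) → X w = Y w) → UM X z = UM Y z)
    (hp : ∀ m (X Y : List Bool → Bool) (x : List Bool),
      (∀ w : List Bool, w.length ≤ (p m).eval x.length → X w = Y w) → Λ m X x = Λ m Y x)
    (hc : ∀ m n, (p m).eval n + 1 ≤ (n + 2) ^ (c m + 1)) (i l : ℕ) (X Y : List Bool → Bool)
    (h : ∀ w : List Bool, w.length < l → X w = Y w) : Bad Λ U c i l X ↔ Bad Λ U c i l Y := by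
  have key : ∀ (X Y : List Bool → Bool), (∀ w : List Bool, w.length < l → X w = Y w) →
      Bad Λ U c i l X → Bad Λ U c i l Y := by
    intro X Y h hB
    obtain ⟨x, hv, hx⟩ := hB
    have hrun : run X (i, l, x) = run Y (i, l, x) := by
      unfold run
      exact hU X Y (zin i l x) fun w hw => h w (lt_of_le_of_lt hw hv.2.1)
    have hg := guardn_pow hv.2.2
    have hc' := hc (ix i).2.2 (run X (i, l, x)).length
    have hΛ : Λ (ix i).2.2 X (run X (i, l, x)) = Λ (ix i).2.2 Y (run X (i, l, x)) :=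
      hp _ X Y _ fun w hw => h w (by omega)
    refine ⟨x, ?_, ?_⟩
    · rw [← hrun]; exact hv
    · rw [← hrun, ← hΛ]; exact hx
  exact ⟨key X Y h, key Y X fun w hw => (h w hw).symm⟩

end Pool.Agent.TO42
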