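import Pool.Agent.TO42.Canon
import Pool.Agent.TO42.Tal
import Pool.Agent.POpt70.RelUp

/-!
# Module TO42/Coll

If all tally languages of `Π₂^{p,A}` are in `P^A`, optimal systems exist relative to all `A ⊕ T`.

PROOF (port of `snd_mem`, `optimal_of_collapse` in POpt70/RelUp.lean). `X S = join A (tal S)`.
Let `L = npf p V (X T) ∋ y0`. `U₁` polynomial use (`exists_use_tal`) of `UM` on
`z = ((e₁,e₂),(N,t),(u,[]))`, `U₂` use of `npf p V` (`npf_polyUse`, `join_congr`). For numbers
`e₁ e₂ N t n l c` (`c` codes a segment of length `k = log 2 l`, `s = bitsTo c k`) let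
`Snd ⟺ ∀ u, u.length = n → (let y := UM (X (sg s)) ((e₁,e₂),(N,t),(u,[])); 2 * U₁.eval (sz z) ≤ l →
2 * U₂.eval y.length ≤ l → ∃ w, w.length ≤ p.eval y.length ∧ V (X (sg s)) (y, w) = true)`.
`Snd` is the membership of `1^code` in a tally language `B` of `Π₂^{p,A}`, where
`code = pr e₁ (pr e₂ (pr4 N t n (pr l c)))` (or any injective polynomially bounded coding from
POpt67/Tally.lean: `pr`, `unpr`, `pr4`, `un4`, `unpr_pr`, `un4_pr4`): all lengths are bounded by a
polynomial in the code (`UT.bound` for `UM`), `∀ u, |u| ≤ q(code) ∃ w, |w| ≤ q(code)` a predicate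
`UT` relative to `A` (`UT_par`/`UT_seg`, `UM_UT`). So `B ∈ P^A`, hence `B` is polynomial time relative
to `X T` (`IsPolyTimeOracle.join_left`). System: `D π = (1^e₁, 1^e₂, 1^N, 1^t, 1^l, u)`,
`s = readT X l = pre T k`, `c = codeOf l s` (POpt70/RelUp.lean, `codeOf_spec`, `codeOf_polyTime`),
`y = UM X ((e₁,e₂),(N,t),(u,[]))`; output `y` if `B (1^code)`, `2 * U₁.eval (sz z) ≤ l` and
`2 * U₂.eval y.length ≤ l`, else `y0`. Sound: `s = pre T k`, `l < 2^(k+1)`, so the uses are
`< 2 ^ k` and everything is the same relative to `sg s` and to `T` (`sg_pre`). Simulation of `S = F X`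
(`UT F`): `⟨⟨e₁, e₂⟩, Q, hQ⟩ := UM_spec` for `fun X z => F X z.1`; `N(n)`, `t(n)`, `l(n)` polynomials in
`n = u.length` (as in `RelUp`: `l` bounds twice the uses for all `u` of length `n`; `UT.bound`).
Then for all `v` of length `n` with the two tests: the value relative to `sg s` is the one relative to
`T`, `= F X v ∈ L`; so `Snd` holds.
-/

set_option autoImplicit false

namespace Pool.Agent.TO42

open Pool.Agent.PT Pool.Agent.TMB67 Pool.Agent.POpt67 Pool.Agent.POpt70 Pool.Agent.ROr14
open N68a2faeb N793a5b8e N487b59b3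

namespace Coll

/-- The input of the universal machine. -/
def zz (m : (ℕ × ℕ) × (ℕ × ℕ)) (u : List Bool) : (ℕ × ℕ) × (ℕ × ℕ) × In := (m.1, m.2, (u, []))

theorem zz_polyTime {α : Type} [Enc α] {m : α → (ℕ × ℕ) × (ℕ × ℕ)} {u : α → List Bool}
    (hm : PolyTime m) (hu : PolyTime u) : PolyTime (fun x => zz (m x) (u x)) := by
  unfold zz
  exact PolyTime.pair (PolyTime.fst hm) (PolyTime.pair (PolyTime.snd hm)
    (PolyTime.pair hu (PolyTime.const [])))

/-- The oracle with a finite segment. -/
noncomputable def Xs (A : List Bool → Bool) (s : List Bool) : List Bool → Bool :=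
  join A (tal (sg s))

/-- Soundness on the inputs of length `n`. -/
def Snd (p U₁ U₂ : Polynomial ℕ) (V : (List Bool → Bool) → List Bool × List Bool → Bool)
    (A : List Bool → Bool) (m : (ℕ × ℕ) × (ℕ × ℕ)) (n l c : ℕ) : Prop :=
  ∀ u : List Bool, u.length = n → 2 * U₁.eval (sz (zz m u)) ≤ l →
    2 * U₂.eval (UM (Xs A (bitsTo c (Nat.log 2 l))) (zz m u)).length ≤ l →
    ∃ w : List Bool, w.length ≤ p.eval (UM (Xs A (bitsTo c (Nat.log 2 l))) (zz m u)).length ∧
      V (Xs A (bitsTo c (Nat.log 2 l))) (UM (Xs A (bitsTo c (Nat.log 2 l))) (zz m u), w) = true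

/-- The matrix of soundness. -/
noncomputable def sndB (p U₁ U₂ : Polynomial ℕ)
    (V : (List Bool → Bool) → List Bool × List Bool → Bool)
    (A : List Bool → Bool) (m : (ℕ × ℕ) × (ℕ × ℕ)) (n l c : ℕ) (u w : List Bool) : Bool :=
  !(decide (u.length = n)) || (!(decide (2 * U₁.eval (sz (zz m u)) ≤ l)) ||
    (!(decide (2 * U₂.eval (UM (Xs A (bitsTo c (Nat.log 2 l))) (zz m u)).length ≤ l)) ||
      (decide (w.length ≤ p.eval (UM (Xs A (bitsTo c (Nat.log 2 l))) (zz m u)).length) &&
        V (Xs A (bitsTo c (Nat.log 2 l)))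
          (UM (Xs A (bitsTo c (Nat.log 2 l))) (zz m u), w))))

theorem sndB_iff {p U₁ U₂ : Polynomial ℕ}
    {V : (List Bool → Bool) → List Bool × List Bool → Bool}
    {A : List Bool → Bool} {m : (ℕ × ℕ) × (ℕ × ℕ)} {n l c : ℕ} {u w : List Bool} :
    sndB p U₁ U₂ V A m n l c u w = true ↔ (u.length = n → 2 * U₁.eval (sz (zz m u)) ≤ l →
      2 * U₂.eval (UM (Xs A (bitsTo c (Nat.log 2 l))) (zz m u)).length ≤ l →
      w.length ≤ p.eval (UM (Xs A (bitsTo c (Nat.log 2 l))) (zz m u)).length ∧
        V (Xs A (bitsTo c (Nat.log 2 l)))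
          (UM (Xs A (bitsTo c (Nat.log 2 l))) (zz m u), w) = true) := by
  unfold sndB
  simp only [Bool.or_eq_true, Bool.not_eq_true', decide_eq_false_iff_not, Bool.and_eq_true,
    decide_eq_true_iff]
  generalize 2 * U₁.eval (sz (zz m u)) = a
  generalize V (Xs A (bitsTo c (Nat.log 2 l))) (UM (Xs A (bitsTo c (Nat.log 2 l))) (zz m u), w) = d
  generalize (UM (Xs A (bitsTo c (Nat.log 2 l))) (zz m u)).length = b
  tauto

/-- The parameters coded by a number. -/
def dc (N : ℕ) : ((ℕ × ℕ) × (ℕ × ℕ)) × (ℕ × (ℕ × ℕ)) :=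
  ((((unpr N).1, (unpr (unpr N).2).1),
    ((un4 (unpr (unpr N).2).2).1, (un4 (unpr (unpr N).2).2).2.1)),
    ((un4 (unpr (unpr N).2).2).2.2.1, unpr (un4 (unpr (unpr N).2).2).2.2.2))

/-- The number coding the parameters. -/
def en (m : (ℕ × ℕ) × (ℕ × ℕ)) (n l c : ℕ) : ℕ :=
  pr m.1.1 (pr m.1.2 (pr4 m.2.1 m.2.2 n (pr l c)))

theorem dc_en (m : (ℕ × ℕ) × (ℕ × ℕ)) (n l c : ℕ) : dc (en m n l c) = (m, (n, (l, c))) := by
  obtain ⟨⟨a, b⟩, ⟨d, e⟩⟩ := m
  simp [dc, en, unpr_pr, un4_pr4]

theorem dc_le (N : ℕ) : (dc N).1.1.1 ≤ N ∧ (dc N).1.1.2 ≤ N ∧ (dc N).1.2.1 ≤ N ∧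
    (dc N).1.2.2 ≤ N ∧ (dc N).2.1 ≤ N ∧ (dc N).2.2.1 ≤ N := by
  have l0 := unpr_le N
  have l1 := unpr_le (unpr N).2
  have l2 := un4_le (unpr (unpr N).2).2
  have l3 := unpr_le (un4 (unpr (unpr N).2).2).2.2.2
  simp only [dc]
  generalize unpr (un4 (unpr (unpr N).2).2).2.2.2 = x3 at *
  generalize un4 (unpr (unpr N).2).2 = x2 at *
  generalize unpr (unpr N).2 = x1 at *
  generalize unpr N = x0 at *
  refine ⟨?_, ?_, ?_, ?_, ?_, ?_⟩ <;> omega

theorem dc_polyTime {α : Type} [Enc α] {f : α → ℕ} (hf : PolyTime f) :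
    PolyTime (fun x => dc (f x)) := by
  have key : ∀ {g : α → ℕ × ℕ} {g' : α → ℕ × ℕ} {h : α → ℕ × ℕ × ℕ × ℕ} {k : α → ℕ × ℕ},
      PolyTime g → PolyTime g' → PolyTime h → PolyTime k →
      PolyTime (fun x => ((((g x).1, (g' x).1), ((h x).1, (h x).2.1)), ((h x).2.2.1, k x))) :=
    fun h1 h2 h3 h4 => PolyTime.pair (PolyTime.pair (PolyTime.pair (PolyTime.fst h1)
      (PolyTime.fst h2)) (PolyTime.pair (PolyTime.fst h3) (PolyTime.fst (PolyTime.snd h3))))
      (PolyTime.pair (PolyTime.fst (PolyTime.snd (PolyTime.snd h3))) h4)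
  have h1 : PolyTime (fun x => unpr (f x)) := unpr_polyTime.comp hf
  have h2 : PolyTime (fun x => unpr (unpr (f x)).2) := unpr_polyTime.comp (PolyTime.snd h1)
  have h3 : PolyTime (fun x => un4 (unpr (unpr (f x)).2).2) :=
    un4_polyTime.comp (PolyTime.snd h2)
  have h4 : PolyTime (fun x => unpr (un4 (unpr (unpr (f x)).2).2).2.2.2) :=
    unpr_polyTime.comp (PolyTime.snd (PolyTime.snd (PolyTime.snd h3)))
  exact key h1 h2 h3 h4

theorem en_polyTime {α : Type} [Enc α] {m : α → (ℕ × ℕ) × (ℕ × ℕ)} {n l c : α → ℕ}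
    (hm : PolyTime m) (hn : PolyTime n) (hl : PolyTime l) (hc : PolyTime c) :
    PolyTime (fun x => en (m x) (n x) (l x) (c x)) := by
  unfold en
  exact pr_polyTime (PolyTime.fst (PolyTime.fst hm)) (pr_polyTime (PolyTime.snd (PolyTime.fst hm))
    (pr4_polyTime (PolyTime.fst (PolyTime.snd hm)) (PolyTime.snd (PolyTime.snd hm)) hn
      (pr_polyTime hl hc)))

theorem sz_zz (m : (ℕ × ℕ) × (ℕ × ℕ)) (u : List Bool) :
    sz (zz m u) ≤ 2 * (m.1.1 + m.1.2 + m.2.1 + m.2.2) + 4 * u.length + 12 := by
  obtain ⟨⟨a, b⟩, ⟨d, e⟩⟩ := m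
  have := sz_listBool u
  simp only [zz, sz_prod, sz_nat, sz_nil]
  omega

section

variable {α : Type} [Enc α]

theorem UM_UTs {s : α → List Bool} {z : α → (ℕ × ℕ) × (ℕ × ℕ) × In} (hs : PolyTime s)
    (hz : PolyTime z) : UT (fun A (x : α) => UM (Xs A (s x)) (z x)) :=
  ((UT_seg UM_UT).pre (g := fun x : α => (s x, z x)) (PolyTime.pair hs hz)).congr
    fun _ _ => rfl

theorem sndB_UT (p U₁ U₂ : Polynomial ℕ)
    {V : (List Bool → Bool) → List Bool × List Bool → Bool} (hV : UT V)
    {m : α → (ℕ × ℕ) × (ℕ × ℕ)} {n l c : α → ℕ} {u w : α → List Bool} (hm : PolyTime m)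
    (hn : PolyTime n) (hl : PolyTime l) (hc : PolyTime c) (hu : PolyTime u) (hw : PolyTime w) :
    UT (fun A (x : α) => sndB p U₁ U₂ V A (m x) (n x) (l x) (c x) (u x) (w x)) := by
  have hs : PolyTime (fun x => bitsTo (c x) (Nat.log 2 (l x))) :=
    bitsTo_polyTime hc (natLog_polyTime hl)
  have hy := UM_UTs hs (zz_polyTime hm hu)
  have hv : UT (fun A (x : α) => V (Xs A (bitsTo (c x) (Nat.log 2 (l x))))
      (UM (Xs A (bitsTo (c x) (Nat.log 2 (l x)))) (zz (m x) (u x)), w x)) :=
    ((UT_seg hV).comp ((UT.of hs).pair (hy.pair (UT.of hw)))).congr fun _ _ => rfl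
  have hall := (UT.of (β := α) (f := fun x : α => x) PolyTime.id).pair (hy.pair hv)
  refine (hall.post (g := fun z : α × (List Bool × Bool) =>
    !(decide ((u z.1).length = n z.1)) || (!(decide (2 * U₁.eval (sz (zz (m z.1) (u z.1))) ≤
      l z.1)) || (!(decide (2 * U₂.eval z.2.1.length ≤ l z.1)) ||
        (decide ((w z.1).length ≤ p.eval z.2.1.length) && z.2.2)))) ?_).congr fun A x => ?_
  · have hl1 : PolyTime (fun z : α × (List Bool × Bool) => l z.1) := hl.comp PolyTime.fst'
    have hn1 : PolyTime (fun z : α × (List Bool × Bool) => n z.1) := hn.comp PolyTime.fst'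
    have hu1 : PolyTime (fun z : α × (List Bool × Bool) => u z.1) := hu.comp PolyTime.fst'
    have hw1 : PolyTime (fun z : α × (List Bool × Bool) => w z.1) := hw.comp PolyTime.fst'
    have hm1 : PolyTime (fun z : α × (List Bool × Bool) => m z.1) := hm.comp PolyTime.fst'
    have hy1 : PolyTime (fun z : α × (List Bool × Bool) => z.2.1) :=
      PolyTime.fst PolyTime.snd'
    have hb1 : PolyTime (fun z : α × (List Bool × Bool) => z.2.2) :=
      PolyTime.snd PolyTime.snd'
    exact PolyTime.or (PolyTime.not (PolyTime.decide_eq (PolyTime.length hu1) hn1))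
      (PolyTime.or (PolyTime.not (PolyTime.decide_le (PolyTime.natMul (PolyTime.const 2)
        (polyEval_polyTime (PolyTime.size (zz_polyTime hm1 hu1)) U₁)) hl1))
        (PolyTime.or (PolyTime.not (PolyTime.decide_le (PolyTime.natMul (PolyTime.const 2)
          (polyEval_length U₂ hy1)) hl1))
          (PolyTime.and (PolyTime.decide_le (PolyTime.length hw1) (polyEval_length p hy1))
            hb1)))
  · rfl

end

/-- Soundness as a `Π₂` statement. -/
theorem snd_iff {p U₁ U₂ r : Polynomial ℕ}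
    {V : (List Bool → Bool) → List Bool × List Bool → Bool}
    (hr : ∀ X x, sz (UM X x) ≤ r.eval (sz x))
    {A : List Bool → Bool} {m : (ℕ × ℕ) × (ℕ × ℕ)} {n l c N : ℕ} (hn : n ≤ N)
    (h1 : m.1.1 ≤ N) (h2 : m.1.2 ≤ N) (h3 : m.2.1 ≤ N) (h4 : m.2.2 ≤ N) :
    Snd p U₁ U₂ V A m n l c ↔ ∀ u : List Bool, u.length ≤ p.eval (r.eval (12 * N + 12)) + N →
      ∃ w : List Bool, w.length ≤ p.eval (r.eval (12 * N + 12)) + N ∧
        sndB p U₁ U₂ V A m n l c u w = true := by
  constructor
  · intro h u _
    by_cases hc : u.length = n ∧ 2 * U₁.eval (sz (zz m u)) ≤ l ∧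
        2 * U₂.eval (UM (Xs A (bitsTo c (Nat.log 2 l))) (zz m u)).length ≤ l
    · obtain ⟨w, hw, hw'⟩ := h u hc.1 hc.2.1 hc.2.2
      refine ⟨w, ?_, sndB_iff.2 fun _ _ _ => ⟨hw, hw'⟩⟩
      refine (hw.trans (eval_mono p ?_)).trans (Nat.le_add_right _ _)
      refine ((length_le_sz _).trans (hr _ _)).trans (eval_mono r ?_)
      have h5 := sz_zz m u
      have h6 := hc.1
      omega
    · exact ⟨[], Nat.zero_le _, sndB_iff.2 fun a1 a2 a3 => absurd ⟨a1, a2, a3⟩ hc⟩
  · intro h u hu a1 a2
    obtain ⟨w, _, hw⟩ := h u (by omega)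
    exact ⟨w, sndB_iff.1 hw hu a1 a2⟩

open Classical in
theorem snd_mem (p U₁ U₂ : Polynomial ℕ)
    {V : (List Bool → Bool) → List Bool × List Bool → Bool} (hV : UT V) (A : List Bool → Bool) :
    ∃ B ∈ PiTwoOracle A, Tally B ∧ ∀ m n l c,
      (B (List.replicate (en m n l c) true) = true ↔ Snd p U₁ U₂ V A m n l c) := by
  obtain ⟨r, hr⟩ := UM_UT.bound
  refine ⟨fun x => decide (x = List.replicate x.length true ∧ Snd p U₁ U₂ V A (dc x.length).1
    (dc x.length).2.1 (dc x.length).2.2.1 (dc x.length).2.2.2),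
    ⟨p.comp (r.comp (12 * Polynomial.X + 12)) + Polynomial.X, fun z =>
      decide (z.1 = List.replicate z.1.length true) && sndB p U₁ U₂ V A (dc z.1.length).1
        (dc z.1.length).2.1 (dc z.1.length).2.2.1 (dc z.1.length).2.2.2 z.2.1 z.2.2, ?_,
      fun x => ?_⟩, fun x hx => ?_, fun m n l c => ?_⟩
  · have h1 : PolyTime (fun z : List Bool × (List Bool × List Bool) => dc z.1.length) :=
      dc_polyTime (by fun_prop)
    have h2 : UT (fun A (z : List Bool × (List Bool × List Bool)) =>
        sndB p U₁ U₂ V A (dc z.1.length).1 (dc z.1.length).2.1 (dc z.1.length).2.2.1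
          (dc z.1.length).2.2.2 z.2.1 z.2.2) :=
      sndB_UT p U₁ U₂ hV (PolyTime.fst h1) (PolyTime.fst (PolyTime.snd h1))
        (PolyTime.fst (PolyTime.snd (PolyTime.snd h1)))
        (PolyTime.snd (PolyTime.snd (PolyTime.snd h1))) (by fun_prop) (by fun_prop)
    have h3 : PolyTime (fun z : List Bool × (List Bool × List Bool) =>
        decide (z.1 = List.replicate z.1.length true)) :=
      PolyTime.decide_eq (by fun_prop) (PolyTime.replicate (by fun_prop) (PolyTime.const true))
    have h4 := ((UT.of h3).pair h2).post (g := fun b : Bool × Bool => b.1 && b.2)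
      (PolyTime.and PolyTime.fst' PolyTime.snd')
    exact h4.isPolyTimeOracle A
  · have h1 := dc_le x.length
    beta_reduce
    rw [decide_eq_true_iff, snd_iff hr h1.2.2.2.2.1 h1.1 h1.2.1 h1.2.2.1 h1.2.2.2.1]
    have he : (p.comp (r.comp (12 * Polynomial.X + 12)) + Polynomial.X).eval x.length =
        p.eval (r.eval (12 * x.length + 12)) + x.length := by
      simp only [Polynomial.eval_add, Polynomial.eval_comp, Polynomial.eval_mul,
        Polynomial.eval_X, Polynomial.eval_ofNat]
    rw [he]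
    constructor
    · rintro ⟨hx, hall⟩ u hu
      obtain ⟨w, hw, hw'⟩ := hall u hu
      refine ⟨w, hw, ?_⟩
      rw [Bool.and_eq_true, decide_eq_true_iff]
      exact ⟨hx, hw'⟩
    · intro hall
      refine ⟨?_, fun u hu => ?_⟩
      · obtain ⟨w, _, hw⟩ := hall [] (Nat.zero_le _)
        rw [Bool.and_eq_true, decide_eq_true_iff] at hw
        exact hw.1
      · obtain ⟨w, hw, hw'⟩ := hall u hu
        rw [Bool.and_eq_true, decide_eq_true_iff] at hw'
        exact ⟨w, hw, hw'.2⟩
  · beta_reduce at hx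
    rw [decide_eq_true_iff] at hx
    exact hx.1
  · rw [decide_eq_true_iff, List.length_replicate, dc_en]
    simp

/-- If `2 * n ≤ l` then the first `log l` bits are enough. -/
theorem sg_eq {T : ℕ → Bool} {n l : ℕ} (h : 2 * n ≤ l) (j : ℕ) (hj : 2 ^ j < n) :
    sg (pre T (Nat.log 2 l)) j = T j := by
  refine sg_pre ?_
  have h1 : 2 ^ (j + 1) ≤ l := by
    rw [pow_succ]
    omega
  have h2 := Nat.le_log_of_pow_le (b := 2) (by norm_num) h1
  omega

end Coll

open Coll

theorem optimal_of_collapse {A : List Bool → Bool}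
    (hcol : ∀ B ∈ PiTwoOracle A, Tally B → B ∈ POracle A) (T : ℕ → Bool) {L : DecisionProblem}
    (hL : L ∈ NPOracle (join A (tal T))) (hne : ∃ y, L y = true) :
    HasPOptimal (join A (tal T)) L := by
  obtain ⟨y0, h0⟩ := hne
  obtain ⟨p, V, hV, rfl⟩ := mem_NPOracle_iff.1 hL
  obtain ⟨U₁, hU₁⟩ := exists_use_tal UM_UT
  obtain ⟨U₂, hU₂⟩ := npf_polyUse p hV
  obtain ⟨B, hB, hBT, hB'⟩ := snd_mem p U₁ U₂ hV A
  have hBP : IsPolyTimeOracle A B := hcol B hB hBT
  obtain ⟨FB, hFB, hFB'⟩ := (IsPolyTimeOracle.join_left hBP (tal T)).exists_UT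
  set X : List Bool → Bool := join A (tal T) with hX
  -- values relative to a segment
  have hUM : ∀ (l : ℕ) (z : (ℕ × ℕ) × (ℕ × ℕ) × In), 2 * U₁.eval (sz z) ≤ l →
      UM (Xs A (pre T (Nat.log 2 l))) z = UM X z := by
    intro l z hl
    exact hU₁ A _ _ z fun j hj => sg_eq hl j hj
  have hnp : ∀ (l : ℕ) (y : List Bool), 2 * U₂.eval y.length ≤ l →
      npf p V (Xs A (pre T (Nat.log 2 l))) y = npf p V X y := by
    intro l y hl
    exact hU₂ _ _ y fun w hw => join_congr (n := U₂.eval y.length)
      (fun j hj => sg_eq hl j hj) w hw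
  obtain ⟨D, hD, hD'⟩ := Compat.dec
    (α := List Bool × (List Bool × (List Bool × (List Bool × (List Bool × List Bool)))))
  let τ : Type := List Bool × (List Bool × (List Bool × (List Bool × (List Bool × List Bool))))
  let mm : List Bool × (List Bool × (List Bool × (List Bool × (List Bool × List Bool)))) →
      (ℕ × ℕ) × (ℕ × ℕ) :=
    fun z => ((z.1.length, z.2.1.length), (z.2.2.1.length, z.2.2.2.1.length))
  have hmm : PolyTime mm := by
    show PolyTime (fun z : List Bool × (List Bool × (List Bool × (List Bool ×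
      (List Bool × List Bool)))) => ((z.1.length, z.2.1.length),
        (z.2.2.1.length, z.2.2.2.1.length)))
    exact PolyTime.pair (PolyTime.pair (by fun_prop) (by fun_prop))
      (PolyTime.pair (by fun_prop) (by fun_prop))
  set G : (List Bool → Bool) → List Bool × (List Bool × (List Bool × (List Bool ×
      (List Bool × List Bool)))) → List Bool := fun X z =>
    bif FB X (List.replicate (en (mm z) z.2.2.2.2.2.length z.2.2.2.2.1.length
        (codeOf z.2.2.2.2.1.length (readT X z.2.2.2.2.1.length))) true) &&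
      (decide (2 * U₁.eval (sz (zz (mm z) z.2.2.2.2.2)) ≤ z.2.2.2.2.1.length) &&
        decide (2 * U₂.eval (UM X (zz (mm z) z.2.2.2.2.2)).length ≤ z.2.2.2.2.1.length))
    then UM X (zz (mm z) z.2.2.2.2.2) else y0 with hG
  have hl5 : PolyTime (fun z : List Bool × (List Bool × (List Bool × (List Bool ×
      (List Bool × List Bool)))) => z.2.2.2.2.1.length) := by fun_prop
  have hu6 : PolyTime (fun z : List Bool × (List Bool × (List Bool × (List Bool ×
      (List Bool × List Bool)))) => z.2.2.2.2.2) := by fun_prop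
  have hzz := zz_polyTime hmm hu6
  have hGU : UT G := by
    have g1 : UT (fun X (z : List Bool × (List Bool × (List Bool × (List Bool ×
        (List Bool × List Bool)))) ) => (z, readT X z.2.2.2.2.1.length)) :=
      (UT.of PolyTime.id).pair (readT_UT.pre hl5)
    have g2 := g1.post (g := fun y : (List Bool × (List Bool × (List Bool × (List Bool ×
        (List Bool × List Bool))))) × List Bool =>
        List.replicate (en (mm y.1) y.1.2.2.2.2.2.length y.1.2.2.2.2.1.length
          (codeOf y.1.2.2.2.2.1.length y.2)) true) (PolyTime.replicate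
            (en_polyTime (hmm.comp PolyTime.fst') (PolyTime.length (hu6.comp PolyTime.fst'))
              (hl5.comp PolyTime.fst') (codeOf_polyTime (hl5.comp PolyTime.fst')
                PolyTime.snd')) (PolyTime.const true))
    have g3 := hFB.comp g2
    have g4 : UT (fun X (z : List Bool × (List Bool × (List Bool × (List Bool ×
        (List Bool × List Bool)))) ) => UM X (zz (mm z) z.2.2.2.2.2)) := UM_UT.pre hzz
    have g5 := (UT.of (PolyTime.id (α := List Bool × (List Bool × (List Bool × (List Bool ×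
        (List Bool × List Bool))))))).pair (g3.pair g4)
    refine (g5.post (g := fun y : (List Bool × (List Bool × (List Bool × (List Bool ×
        (List Bool × List Bool))))) × (Bool × List Bool) =>
        bif y.2.1 && (decide (2 * U₁.eval (sz (zz (mm y.1) y.1.2.2.2.2.2)) ≤
          y.1.2.2.2.2.1.length) && decide (2 * U₂.eval y.2.2.length ≤ y.1.2.2.2.2.1.length))
        then y.2.2 else y0) ?_).congr fun X z => rfl
    have k1 : PolyTime (fun y : (List Bool × (List Bool × (List Bool × (List Bool ×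
        (List Bool × List Bool))))) × (Bool × List Bool) => y.1.2.2.2.2.1.length) :=
      hl5.comp PolyTime.fst'
    have k2 : PolyTime (fun y : (List Bool × (List Bool × (List Bool × (List Bool ×
        (List Bool × List Bool))))) × (Bool × List Bool) => zz (mm y.1) y.1.2.2.2.2.2) :=
      hzz.comp PolyTime.fst'
    exact PolyTime.cond (PolyTime.and (PolyTime.fst PolyTime.snd') (PolyTime.and
      (PolyTime.decide_le (PolyTime.natMul (PolyTime.const 2) (polyEval_polyTime
        (PolyTime.size k2) U₁)) k1)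
      (PolyTime.decide_le (PolyTime.natMul (PolyTime.const 2) (polyEval_length U₂
        (PolyTime.snd PolyTime.snd'))) k1))) (PolyTime.snd PolyTime.snd') (PolyTime.const y0)
  have hQ : UT (fun X (π : List Bool) => G X (D π)) := hGU.pre hD
  -- soundness
  have hsound : ∀ z, npf p V X (G X z) = true := by
    intro z
    simp only [hG]
    cases hc : FB X (List.replicate (en (mm z) z.2.2.2.2.2.length z.2.2.2.2.1.length
        (codeOf z.2.2.2.2.1.length (readT X z.2.2.2.2.1.length))) true) &&
      (decide (2 * U₁.eval (sz (zz (mm z) z.2.2.2.2.2)) ≤ z.2.2.2.2.1.length) &&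
        decide (2 * U₂.eval (UM X (zz (mm z) z.2.2.2.2.2)).length ≤ z.2.2.2.2.1.length))
    · simpa using h0
    · rw [cond_true]
      rw [Bool.and_eq_true, Bool.and_eq_true, decide_eq_true_iff, decide_eq_true_iff, hFB',
        hB', hX, readT_eq, ← hX] at hc
      obtain ⟨c1, c2, c3⟩ := hc
      have e1 := hUM _ _ c2
      have h1 := c1 z.2.2.2.2.2 rfl c2
      rw [codeOf_spec, e1] at h1
      have h2 := npf_iff.2 (h1 c3)
      rwa [hnp _ _ c3] at h2
  -- simulation
  have hsim : ∀ F : (List Bool → Bool) → List Bool → List Bool, UT F →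
      (∀ u, npf p V X (F X u) = true) →
      ∃ h : List Bool → List Bool, PolyTime h ∧ ∀ u, G X (D (h u)) = F X u := by
    intro F hF hFL
    obtain ⟨r, hr⟩ := hF.bound
    obtain ⟨e, Q, hQ⟩ := UM_spec (F := fun X (z : In) => F X z.1) (hF.pre PolyTime.fst')
    set N : ℕ → ℕ := fun n => Q.eval (4 * n + 3) with hN
    set t : ℕ → ℕ := fun n => Q.eval (4 * n + 3 + N n) with ht
    set l : ℕ → ℕ := fun n => 2 * U₁.eval (2 * (e.1 + e.2 + N n + t n) + 4 * n + 12) +
      2 * U₂.eval (r.eval (4 * n + 1)) with hl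
    have hlen : PolyTime (fun u : List Bool => u.length) := by fun_prop
    have h43 : PolyTime (fun u : List Bool => 4 * u.length + 3) :=
      PolyTime.natAdd (PolyTime.natMul (PolyTime.const 4) hlen) (PolyTime.const 3)
    have hNP : PolyTime (fun u : List Bool => N u.length) := polyEval_polyTime h43 Q
    have htP : PolyTime (fun u : List Bool => t u.length) :=
      polyEval_polyTime (PolyTime.natAdd h43 hNP) Q
    have hlP : PolyTime (fun u : List Bool => l u.length) := by
      refine PolyTime.natAdd (PolyTime.natMul (PolyTime.const 2) (polyEval_polyTime ?_ U₁))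
        (PolyTime.natMul (PolyTime.const 2) (polyEval_polyTime (polyEval_polyTime ?_ r) U₂))
      · exact PolyTime.natAdd (PolyTime.natAdd (PolyTime.natMul (PolyTime.const 2)
          (PolyTime.natAdd (PolyTime.natAdd (PolyTime.const _) hNP) htP))
          (PolyTime.natMul (PolyTime.const 4) hlen)) (PolyTime.const 12)
      · exact PolyTime.natAdd (PolyTime.natMul (PolyTime.const 4) hlen) (PolyTime.const 1)
    have hval : ∀ u v : List Bool, v.length = u.length →
        UM X (zz (e, (N u.length, t u.length)) v) = F X v := by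
      intro u v huv
      have h1 : sz ((v, []) : In) ≤ 4 * u.length + 3 := by
        have := sz_listBool v
        simp only [sz_prod, sz_nil]
        omega
      refine hQ X (v, []) _ _ (eval_mono Q h1) (eval_mono Q ?_)
      omega
    have hb1 : ∀ u v : List Bool, v.length = u.length →
        2 * U₁.eval (sz (zz (e, (N u.length, t u.length)) v)) ≤ l u.length := by
      intro u v huv
      have h1 := sz_zz (e, (N u.length, t u.length)) v
      have h2 := eval_mono U₁ h1
      simp only [huv] at h2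
      simp only [hl]
      omega
    have hb2 : ∀ u v : List Bool, v.length = u.length →
        2 * U₂.eval (F X v).length ≤ l u.length := by
      intro u v huv
      have h1 : (F X v).length ≤ r.eval (4 * u.length + 1) := by
        refine ((length_le_sz _).trans (hr X v)).trans (eval_mono r ?_)
        rw [← huv]
        exact sz_listBool v
      have h2 := eval_mono U₂ h1
      simp only [hl]
      omega
    refine ⟨fun u => bitEncode (List.replicate e.1 true, (List.replicate e.2 true,
      (List.replicate (N u.length) true, (List.replicate (t u.length) true,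
        (List.replicate (l u.length) true, u))))), ?_, fun u => ?_⟩
    · exact (Compat.enc (α := List Bool × (List Bool × (List Bool × (List Bool ×
        (List Bool × List Bool)))))).comp (PolyTime.pair (PolyTime.const _)
          (PolyTime.pair (PolyTime.const _) (PolyTime.pair (PolyTime.replicate hNP
            (PolyTime.const true)) (PolyTime.pair (PolyTime.replicate htP (PolyTime.const true))
              (PolyTime.pair (PolyTime.replicate hlP (PolyTime.const true)) PolyTime.id)))))
    · have hm : mm (List.replicate e.1 true, (List.replicate e.2 true,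
          (List.replicate (N u.length) true, (List.replicate (t u.length) true,
            (List.replicate (l u.length) true, u))))) = (e, (N u.length, t u.length)) := by
        simp [mm]
      simp only [hD', hG, hm, List.length_replicate]
      rw [hval u u rfl]
      have h1 : FB X (List.replicate (en (e, (N u.length, t u.length)) u.length (l u.length)
          (codeOf (l u.length) (readT X (l u.length)))) true) = true := by
        rw [hFB', hB', hX, readT_eq]
        intro v hv a1 a2
        rw [codeOf_spec, hUM _ _ a1, hval u v hv] at a2 ⊢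
        exact npf_iff.1 ((hnp _ _ a2).trans (hFL v))
      rw [h1, decide_eq_true (hb1 u u rfl), decide_eq_true (hb2 u u rfl)]
      rfl
  refine ⟨fun π => G X (D π), ⟨hQ.isPolyTimeOracle X, fun y => ⟨fun hy => ?_, ?_⟩⟩,
    fun S hS => ?_⟩
  · obtain ⟨h, _, hh⟩ := hsim (fun _ _ => y) (UT.of (PolyTime.const y)) fun _ => hy
    exact ⟨h [], hh []⟩
  · rintro ⟨π, rfl⟩
    exact hsound (D π)
  · obtain ⟨F, hF, rfl⟩ := hS.1.exists_UT
    obtain ⟨h, hh, hh'⟩ := hsim F hF fun u => (hS.2 _).2 ⟨u, rfl⟩
    exact ⟨h, (UT.of hh).isPolyTimeOracle X, hh'⟩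

end Pool.Agent.TO42
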