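import Pool.Agent.TO42.NPF
import Pool.Agent.TO42.Tal

/-!
# Module TO42/Hard

A hard family of instances relative to `A` when tally sets do not collapse.

Port of POpt70/RelHard.lean (`tallyNP_of_easy`, `collapse_of_easy`, `exists_hard`).
-/

set_option autoImplicit false

namespace Pool.Agent.TO42

open Pool.Agent.PT Pool.Agent.TMB67 Pool.Agent.POpt67 Pool.Agent.POpt70 Pool.Agent.ROr14
open N68a2faeb N793a5b8e N487b59b3

/-- The instances `G` of `L` are verified in polynomial time relative to `A`. -/
def EasyRel (A : List Bool → Bool) (L : DecisionProblem) (G : ℕ × List Bool → List Bool) : Prop :=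
  ∃ V : ℕ × List Bool → Bool, (∃ F, UT F ∧ F A = V) ∧
    (∀ n u, V (n, u) = true → L (G (n, u)) = true) ∧
    ∀ n, (∀ u, L (G (n, u)) = true) → ∀ u, V (n, u) = true

namespace Hard

theorem tally_polyTime : PolyTime
    (fun x : List Bool => decide (x = List.replicate x.length true)) :=
  PolyTime.decide_eq PolyTime.id (PolyTime.replicate (by fun_prop) (PolyTime.const true))

/-- Membership in `P^A` from a functional. -/
theorem mem_P {A : List Bool → Bool} {F : (List Bool → Bool) → List Bool → Bool} (hF : UT F)
    {L : DecisionProblem} (h : ∀ x, L x = F A x) : L ∈ POracle A := by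
  have h1 := hF.isPolyTimeOracle A
  have h2 : F A = L := funext fun x => (h x).symm
  rw [h2] at h1
  exact h1

open Classical in
theorem exists_mem (p : Polynomial ℕ) {α : Type} [Enc α] {D : List Bool → List Bool × α}
    (hD : PolyTime D) {F : (List Bool → Bool) → (List Bool × List Bool) × α → Bool} (hF : UT F)
    (A : List Bool → Bool) :
    ∃ B ∈ NPOracle A, ∀ z, B z = true ↔ ∃ w : List Bool, w.length ≤ p.eval (D z).1.length ∧
      F A (((D z).1, w), (D z).2) = true := by
  obtain ⟨q, hq⟩ := exists_length_bound (s := fun z => p.eval (D z).1.length)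
    ((polyEval_length p (PolyTime.fst hD)).pbdd.of_le fun x => by rw [sz_nat]; omega)
  have hD1 : PolyTime (fun z : List Bool × List Bool => D z.1) := hD.comp PolyTime.fst'
  have h1 : UT (fun X (z : List Bool × List Bool) =>
      (decide (z.2.length ≤ p.eval (D z.1).1.length), F X (((D z.1).1, z.2), (D z.1).2))) := by
    refine UT.pair (UT.of ?_) (hF.pre ?_)
    · exact PolyTime.decide_le (by fun_prop) (polyEval_length p (PolyTime.fst hD1))
    · exact PolyTime.pair (PolyTime.pair (PolyTime.fst hD1) PolyTime.snd') (PolyTime.snd hD1)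
  have h2 : UT (fun X (z : List Bool × List Bool) =>
      decide (z.2.length ≤ p.eval (D z.1).1.length) && F X (((D z.1).1, z.2), (D z.1).2)) :=
    UT.post (g := fun p : Bool × Bool => p.1 && p.2)
      (PolyTime.and PolyTime.fst' PolyTime.snd') h1
  refine ⟨npf q _ A, npf_mem q h2, fun z => ?_⟩
  rw [npf_iff]
  simp only [Bool.and_eq_true, decide_eq_true_iff]
  constructor
  · rintro ⟨w, _, hw, hw'⟩
    exact ⟨w, hw, hw'⟩
  · rintro ⟨w, hw, hw'⟩
    exact ⟨w, hw.trans (hq z), hw, hw'⟩

/-- Tally sets in `NP^A` are in `P^A` if all families are easy. -/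
theorem tallyNP_of_easy {A : List Bool → Bool}
    (h : ∀ L ∈ NPOracle A, (∃ y, L y = true) → ∀ G, PolyTime G → EasyRel A L G)
    {C : DecisionProblem} (hC : C ∈ NPOracle A) (hT : Tally C) : C ∈ POracle A := by
  by_cases hne : ∃ y, C y = true
  · obtain ⟨V, ⟨F, hF, rfl⟩, h1, h2⟩ := h C hC hne (fun z => List.replicate z.1 true)
      (PolyTime.replicate (by fun_prop) (PolyTime.const true))
    beta_reduce at h1 h2
    have h3 : UT (fun X (x : List Bool) => F X (x.length, [])) :=
      hF.pre (g := fun x : List Bool => (x.length, ([] : List Bool)))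
        (PolyTime.pair (by fun_prop) (PolyTime.const []))
    have h4 : UT (fun X (x : List Bool) =>
        decide (x = List.replicate x.length true) && F X (x.length, [])) :=
      UT.post (g := fun p : Bool × Bool => p.1 && p.2)
        (PolyTime.and PolyTime.fst' PolyTime.snd') ((UT.of tally_polyTime).pair h3)
    refine mem_P h4 fun x => ?_
    rw [Bool.eq_iff_iff, Bool.and_eq_true, decide_eq_true_iff]
    constructor
    · intro hx
      exact ⟨hT x hx, h2 _ (fun _ => by rw [← hT x hx]; exact hx) _⟩
    · rintro ⟨hx, hx'⟩
      rw [hx]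
      exact h1 _ _ hx'
  · refine mem_P (UT.of (PolyTime.const false)) fun x => ?_
    rw [← Bool.not_eq_true]
    exact fun hx => hne ⟨x, hx⟩

theorem collapse_of_easy {A : List Bool → Bool}
    (h : ∀ L ∈ NPOracle A, (∃ y, L y = true) → ∀ G, PolyTime G → EasyRel A L G)
    {B : DecisionProblem} (hB : B ∈ PiTwoOracle A) (hT : Tally B) : B ∈ POracle A := by
  obtain ⟨p, R, hR, hBR⟩ := hB
  obtain ⟨R', hR', rfl⟩ := hR.exists_UT
  obtain ⟨D, hD, hD'⟩ := Compat.dec (α := List Bool × List Bool)
  obtain ⟨L, hL, hLR⟩ := exists_mem p hD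
    (F := fun X (z : (List Bool × List Bool) × List Bool) =>
    R' X (z.1.1, (z.2, z.1.2))) (hR'.pre (g := fun z : (List Bool × List Bool) × List Bool =>
      (z.1.1, (z.2, z.1.2))) (by fun_prop)) A
  have hLR' : ∀ x u : List Bool, L (bitEncode (x, u)) = true ↔ ∃ w : List Bool,
      w.length ≤ p.eval x.length ∧ R' A (x, (u, w)) = true := by
    intro x u
    rw [hLR, hD']
  by_cases hne : ∃ x, B x = true
  · obtain ⟨x0, hx0⟩ := hne
    have hy0 := (hLR' x0 []).2 ((hBR x0).1 hx0 [] (Nat.zero_le _))
    obtain ⟨V, ⟨F, hF, rfl⟩, h1, h2⟩ := h L hL ⟨_, hy0⟩ (fun z => if z.2.length ≤ p.eval z.1 then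
      bitEncode (List.replicate z.1 true, z.2) else bitEncode (x0, ([] : List Bool)))
      (PolyTime.ite (PolyTime.decide_le (by fun_prop) (polyEval_polyTime (by fun_prop) p))
        ((Compat.enc (α := List Bool × List Bool)).comp (PolyTime.pair
          (PolyTime.replicate (by fun_prop) (PolyTime.const true)) (by fun_prop)))
        (PolyTime.const _))
    beta_reduce at h1 h2
    -- characterisation of `B`
    have hchar : ∀ n : ℕ, B (List.replicate n true) = true ↔
        ∀ u : List Bool, u.length ≤ p.eval n → F A (n, u) = true := by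
      intro n
      constructor
      · intro hA1 u _
        refine h2 n (fun v => ?_) u
        by_cases hv : v.length ≤ p.eval n
        · rw [if_pos hv, hLR', List.length_replicate]
          have := (hBR _).1 hA1 v (by rw [List.length_replicate]; exact hv)
          rwa [List.length_replicate] at this
        · rw [if_neg hv]
          exact hy0
      · intro hall
        rw [hBR, List.length_replicate]
        intro u hu
        have := h1 n u (hall u hu)
        rw [if_pos hu, hLR', List.length_replicate] at this
        exact this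
    -- the complement is a tally set in NP
    have hV : UT (fun X (z : List Bool × List Bool) =>
        decide (z.1 = List.replicate z.1.length true) && !(F X (z.1.length, z.2))) := by
      have k1 : UT (fun X (z : List Bool × List Bool) => F X (z.1.length, z.2)) :=
        hF.pre (g := fun z : List Bool × List Bool => (z.1.length, z.2)) (by fun_prop)
      have k2 : UT (fun (_ : List Bool → Bool) (z : List Bool × List Bool) =>
          decide (z.1 = List.replicate z.1.length true)) :=
        UT.of (tally_polyTime.comp (f := fun z : List Bool × List Bool => z.1) PolyTime.fst')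
      exact UT.post (g := fun p : Bool × Bool => p.1 && !p.2)
        (PolyTime.and PolyTime.fst' (PolyTime.not PolyTime.snd')) (k2.pair k1)
    have hC : ∀ x, npf p (fun X (z : List Bool × List Bool) =>
        decide (z.1 = List.replicate z.1.length true) && !(F X (z.1.length, z.2))) A x = true ↔
        (x = List.replicate x.length true ∧ ∃ u : List Bool, u.length ≤ p.eval x.length ∧
          ¬ F A (x.length, u) = true) := by
      intro x
      rw [npf_iff]
      simp only [Bool.and_eq_true, decide_eq_true_iff, Bool.not_eq_true']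
      constructor
      · rintro ⟨u, hu, h3, h4⟩
        exact ⟨h3, u, hu, by rw [h4]; exact Bool.false_ne_true⟩
      · rintro ⟨h3, u, hu, h4⟩
        exact ⟨u, hu, h3, by rwa [Bool.not_eq_true] at h4⟩
    have hCP := tallyNP_of_easy h (npf_mem p hV) fun x hx => ((hC x).1 hx).1
    obtain ⟨K, hK, hK'⟩ := IsPolyTimeOracle.exists_UT (X := A) hCP
    have k3 : UT (fun X (x : List Bool) =>
        decide (x = List.replicate x.length true) && !(K X x)) :=
      UT.post (g := fun p : Bool × Bool => p.1 && !p.2)
        (PolyTime.and PolyTime.fst' (PolyTime.not PolyTime.snd')) ((UT.of tally_polyTime).pair hK)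
    refine mem_P k3 fun x => ?_
    rw [hK', Bool.eq_iff_iff, Bool.and_eq_true, decide_eq_true_iff, Bool.not_eq_true']
    constructor
    · intro hx
      have hx' := hT x hx
      refine ⟨hx', ?_⟩
      rw [← Bool.not_eq_true, hC]
      rintro ⟨_, u, hu, hne⟩
      rw [hx'] at hx
      exact hne ((hchar _).1 hx u hu)
    · rintro ⟨hx', hx⟩
      rw [hx', hchar]
      intro u hu
      by_contra hne
      rw [← Bool.not_eq_true, hC] at hx
      exact hx ⟨hx', u, hu, hne⟩
  · refine mem_P (UT.of (PolyTime.const false)) fun x => ?_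
    rw [← Bool.not_eq_true]
    exact fun hx => hne ⟨x, hx⟩

end Hard

theorem exists_hard_rel {A : List Bool → Bool}
    (h : ¬ ∀ B ∈ PiTwoOracle A, Tally B → B ∈ POracle A) :
    ∃ L ∈ NPOracle A, (∃ y, L y = true) ∧
      ∃ G : ℕ × List Bool → List Bool, PolyTime G ∧ ¬ EasyRel A L G := by
  by_contra hcon
  refine h fun B hB hT => Hard.collapse_of_easy (fun L hL hne G hG => ?_) hB hT
  by_contra hE
  exact hcon ⟨L, hL, hne, G, hG, hE⟩

end Pool.Agent.TO42
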