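import Pool.Agent.TO42.Canon
import Pool.Agent.TO42.Hard
import Pool.Agent.POpt70.RelGen

/-!
# Module TO42/Forc

If some tally language of `Π₂^{p,A}` is not in `P^A`, then for some `T` no `NP`-complete language
has an optimal system relative to `A ⊕ T`.

PROOF. Port of `exists_oracle_not_optimal` and `exists_oracle_complete_not_optimal`
(POpt70/RelGen.lean). `X T = join A (tal T)`. Let `L`, `y0`, `G` be from `exists_hard_rel`, `L = npf p
V A`, `Q0` a proof system for `L` relative to `A` (`π ↦ if D π = (y, w) with w.length ≤ p.eval y.length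
∧ V A (y, w) then y else y0`), `Q0 = Q0F A`, `UT Q0F`. Enumerate the `UT` functionals
`List Bool → List Bool`: `E : ℕ → ..` (`countable_UT`, `Set.Countable.exists_eq_range`);
`ev s T ρ := E s (X T) ρ`; `Sd s T := ∀ ρ, L (ev s T ρ) = true`; `Good n := ∀ u, L (G (n, u)) = true`;
`Fn Q0 D G y0 s m0` the SAME function as in RelGen (only `Q0 : List Bool → List Bool` changes:
the definition `Fn` and the lemmas `Fn_use`, `Fn_sound` do not use that `Q0` is polynomial time).
`exists_generic` (RelForce.lean) applies: `huse`, `hev` from `exists_use_tal` (finite use), `hFn`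
is `Fn_use`. `hard`: suppose the two hypotheses at `s j m0 m T0`; then `EasyRel A L G` by
`V' (n, u) := decide (E s (X (Tn T0 m c)) (E j (X (Tn T0 m c)) (pf (n, u))) = G (n, u))`,
`c = pr s n + 1`, `pf` as in RelGen; it is `UT` by `UT_par` with `t (c, k) = Tn T0 m c k`
(`Tn_polyTime`), twice (`UT.comp`, `UT.pair`, `UT.post` with `PolyTime.decide_eq`). The rest of the
argument is literally the one in RelGen (`Tn_agree`, `Tn_cl`, `Tn_cl'`, `fB_of_cl`). For the generic
`T`: every optimal system `Q` of `L` relative to `X T` is some `ev s T` (`exists_UT`); `Fn … s m0 T`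
is a proof system for `L` relative to `X T`: it is polynomial time relative to `X T` because
`pre T (Nat.log 2 n) = readT (X T) n` (`readT_eq`, `readT_UT`) and `Q0` is
(`IsPolyTimeOracle.join_left`; in terms of functionals: `UT_left Q0F`), and its translation is some
`ev j T`: contradiction. `L ∈ NPOracle (X T)` by `IsPolyTimeOracle.join_left` for the verifier. The
last step to complete languages: `hasPOptimal_of_reduction`.
-/

set_option autoImplicit false

namespace Pool.Agent.TO42

open Pool.Agent.PT Pool.Agent.TMB67 Pool.Agent.POpt67 Pool.Agent.POpt70 Pool.Agent.ROr14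
open N68a2faeb N793a5b8e N487b59b3

namespace Forc

/-- The challenge function as a functional of the oracle. -/
def FnF (Q0F : (List Bool → Bool) → List Bool → List Bool)
    (D : List Bool → List Bool × (List Bool × List Bool))
    (G : ℕ × List Bool → List Bool) (y0 : List Bool) (s m0 : ℕ) (X : List Bool → Bool)
    (π : List Bool) : List Bool :=
  bif π.headD false then
    (bif fB s m0 (D π.tail).1.length (D π.tail).2.2
      (readT X ((D π.tail).2.2.length * (D π.tail).2.2.length)) then
      G ((D π.tail).1.length, (D π.tail).2.1) else y0)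
  else Q0F (fun w => X (false :: w)) π.tail

theorem FnF_UT {Q0F : (List Bool → Bool) → List Bool → List Bool}
    {D : List Bool → List Bool × (List Bool × List Bool)}
    {G : ℕ × List Bool → List Bool} (hQ : UT Q0F) (hD : PolyTime D) (hG : PolyTime G)
    (y0 : List Bool) (s m0 : ℕ) : UT (FnF Q0F D G y0 s m0) := by
  have h0 : PolyTime (fun π : List Bool => D π.tail) := hD.comp (PolyTime.tail PolyTime.id)
  have h2 : PolyTime (fun π : List Bool => (D π.tail).2.2.length) :=
    PolyTime.length (PolyTime.snd (PolyTime.snd h0))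
  have h1 : UT (fun X (π : List Bool) =>
      readT X ((D π.tail).2.2.length * (D π.tail).2.2.length)) :=
    readT_UT.pre (PolyTime.natMul h2 h2)
  have h3 : UT (fun X (π : List Bool) => Q0F (fun w => X (false :: w)) π.tail) :=
    (UT_left hQ).pre (g := fun π : List Bool => π.tail) (by fun_prop)
  have h5 : PolyTime (fun z : List Bool × (List Bool × List Bool) => D z.1.tail) :=
    h0.comp PolyTime.fst'
  have h4 : PolyTime (fun z : List Bool × (List Bool × List Bool) => bif z.1.headD false then
      (bif fB s m0 (D z.1.tail).1.length (D z.1.tail).2.2 z.2.1 then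
        G ((D z.1.tail).1.length, (D z.1.tail).2.1) else y0) else z.2.2) :=
    PolyTime.cond (by fun_prop) (PolyTime.cond (fB_polyTime s m0 (PolyTime.length
      (PolyTime.fst h5)) (PolyTime.snd (PolyTime.snd h5)) (by fun_prop)) (hG.comp
        (f := fun z : List Bool × (List Bool × List Bool) =>
          ((D z.1.tail).1.length, (D z.1.tail).2.1))
        (PolyTime.pair (PolyTime.length (PolyTime.fst h5)) (PolyTime.fst (PolyTime.snd h5))))
      (PolyTime.const y0)) (by fun_prop)
  exact (((UT.of (PolyTime.id (α := List Bool))).pair (h1.pair h3)).post h4).congr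
    fun X π => rfl

theorem FnF_eq (Q0F : (List Bool → Bool) → List Bool → List Bool)
    (D : List Bool → List Bool × (List Bool × List Bool))
    (G : ℕ × List Bool → List Bool) (y0 : List Bool) (s m0 : ℕ) (A : List Bool → Bool)
    (T : ℕ → Bool) (π : List Bool) :
    FnF Q0F D G y0 s m0 (join A (tal T)) π = Fn (Q0F A) D G y0 s m0 T π := by
  unfold FnF Fn
  rw [readT_eq, join_left]

/-- Evaluation relative to the oracle with a single claim. -/
theorem ev_UT {F : (List Bool → Bool) → List Bool → List Bool} (hF : UT F) (T0 : ℕ → Bool)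
    (m : ℕ) : UT (fun A (z : ℕ × List Bool) => F (join A (tal (Tn T0 m z.1))) z.2) :=
  UT_par (t := fun z : ℕ × ℕ => Tn T0 m z.1 z.2) hF
    (Tn_polyTime T0 m PolyTime.fst' PolyTime.snd')

end Forc

open Forc

open Classical in
theorem exists_oracle_not_optimal {A : List Bool → Bool}
    (h : ¬ ∀ B ∈ PiTwoOracle A, Tally B → B ∈ POracle A) :
    ∃ (T : ℕ → Bool) (L : DecisionProblem), L ∈ NPOracle (join A (tal T)) ∧
      (∃ y, L y = true) ∧ ¬ HasPOptimal (join A (tal T)) L := by
  obtain ⟨L, hL, ⟨y0, h0⟩, G, hG, hE⟩ := exists_hard_rel h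
  obtain ⟨p, V, hV, hLV⟩ := mem_NPOracle_iff.1 hL
  obtain ⟨D2, hD2, hD2'⟩ := Compat.dec (α := List Bool × List Bool)
  obtain ⟨Q0F, hQ0F, hQ0⟩ : ∃ Q0F : (List Bool → Bool) → List Bool → List Bool, UT Q0F ∧
      ∀ y, L y = true ↔ ∃ π, Q0F A π = y := by
    refine ⟨fun X π => bif decide ((D2 π).2.length ≤ p.eval (D2 π).1.length) && V X (D2 π) then
      (D2 π).1 else y0, ?_, fun y => ⟨fun hy => ?_, ?_⟩⟩
    · have h1 : PolyTime (fun q : (List Bool × List Bool) × Bool =>
          bif decide (q.1.2.length ≤ p.eval q.1.1.length) && q.2 then q.1.1 else y0) :=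
        PolyTime.cond (PolyTime.and (PolyTime.decide_le (by fun_prop)
          (polyEval_length p (by fun_prop))) PolyTime.snd') (by fun_prop) (PolyTime.const y0)
      exact (((UT.of hD2).pair (hV.pre hD2)).post h1).congr fun X π => rfl
    · rw [hLV, npf_iff] at hy
      obtain ⟨w, hw, hw'⟩ := hy
      refine ⟨bitEncode (y, w), ?_⟩
      beta_reduce
      rw [hD2', decide_eq_true hw, hw']
      rfl
    · rintro ⟨π, rfl⟩
      beta_reduce
      cases hc : decide ((D2 π).2.length ≤ p.eval (D2 π).1.length) && V A (D2 π)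
      · exact h0
      · rw [cond_true, hLV, npf_iff]
        rw [Bool.and_eq_true, decide_eq_true_iff] at hc
        exact ⟨(D2 π).2, hc.1, hc.2⟩
  obtain ⟨D, hD, hD'⟩ := Compat.dec (α := List Bool × (List Bool × List Bool))
  obtain ⟨E, hErange⟩ := (countable_UT (α := List Bool) (β := List Bool)).exists_eq_range
    ⟨fun _ _ => [], UT.of (f := fun _ : List Bool => ([] : List Bool)) (PolyTime.const [])⟩
  have hEU : ∀ s, UT (E s) := by
    intro s
    have : E s ∈ Set.range E := ⟨s, rfl⟩
    rw [← hErange] at this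
    exact this
  have hEx : ∀ F, UT F → ∃ s, E s = F := by
    intro F hF
    have : F ∈ Set.range E := by
      rw [← hErange]
      exact hF
    exact this
  have hevuse : ∀ s T π, ∃ K, ∀ T', (∀ k < K, T' k = T k) →
      E s (join A (tal T')) π = E s (join A (tal T)) π := by
    intro s T π
    obtain ⟨U, hU⟩ := exists_use_tal (hEU s)
    refine ⟨U.eval (sz π), fun T' hT' => hU A T' T π fun j hj => hT' j ?_⟩
    exact (Nat.lt_two_pow_self).trans hj
  have huse : ∀ s T, (¬ ∀ ρ, L (E s (join A (tal T)) ρ) = true) → ∃ K, ∀ T',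
      (∀ k < K, T' k = T k) → ¬ ∀ ρ, L (E s (join A (tal T')) ρ) = true := by
    intro s T hs
    push Not at hs
    obtain ⟨ρ, hρ⟩ := hs
    obtain ⟨K, hK⟩ := hevuse s T ρ
    refine ⟨K, fun T' hT' hs' => hρ ?_⟩
    rw [← hK T' hT']
    exact hs' ρ
  have hhard : ∀ (s j m0 m : ℕ) (T0 : ℕ → Bool), m0 ≤ m →
      (∀ T', Agree m T0 T' → (∀ i, m ≤ i → ∀ s' n, Cl T' i (pr s' n + 1) → s' = s) →
        ∀ ρ, L (E s (join A (tal T')) ρ) = true) →
      (∀ T', Agree m T0 T' → (∀ i, m ≤ i → ∀ s' n, Cl T' i (pr s' n + 1) →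
        ∀ u, L (G (n, u)) = true) → ∀ π, E s (join A (tal T')) (E j (join A (tal T')) π) =
          Fn (Q0F A) D G y0 s m0 T' π) → False := by
    intro s j m0 m T0 hm h1 h2
    refine hE ?_
    have hc : PolyTime (fun z : ℕ × List Bool => pr s z.1 + 1) :=
      PolyTime.succ (pr_polyTime (PolyTime.const s) (by fun_prop))
    have hi : PolyTime (fun z : ℕ × List Bool => ipos m (pr s z.1 + 1)) := by
      unfold ipos
      exact PolyTime.succ (PolyTime.natAdd (PolyTime.const m) (ll_polyTime hc))
    set pf : ℕ × List Bool → List Bool := fun z => true :: bitEncode (List.replicate z.1 true,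
      (z.2, List.replicate (cp2 ((2 * (pr s z.1 + 1)) ^ 2 ^ (m + 1))
        (ipos m (pr s z.1 + 1))) true)) with hpf
    have hpf1 : ∀ z, pf z = true :: bitEncode (List.replicate z.1 true,
        (z.2, word (ipos m (pr s z.1 + 1)))) := by
      intro z
      simp only [hpf]
      rw [cp2_eq (word_ipos_le m _ (by omega)), word]
    have hpfP : PolyTime pf := by
      refine PolyTime.cons (PolyTime.const true) ((Compat.enc (α := List Bool × (List Bool ×
        List Bool))).comp (PolyTime.pair (PolyTime.replicate (by fun_prop) (PolyTime.const true))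
          (PolyTime.pair (by fun_prop) (PolyTime.replicate (cp2_polyTime
            (PolyTime.natPowConst (PolyTime.natMul (PolyTime.const 2) hc) _) hi)
            (PolyTime.const true)))))
    have u1 : UT (fun A (z : ℕ × List Bool) =>
        E j (join A (tal (Tn T0 m (pr s z.1 + 1)))) (pf z)) :=
      ((ev_UT (hEU j) T0 m).pre (g := fun z : ℕ × List Bool => (pr s z.1 + 1, pf z))
        (PolyTime.pair hc hpfP)).congr fun X z => rfl
    have u2 : UT (fun A (z : ℕ × List Bool) => E s (join A (tal (Tn T0 m (pr s z.1 + 1))))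
        (E j (join A (tal (Tn T0 m (pr s z.1 + 1)))) (pf z))) :=
      ((ev_UT (hEU s) T0 m).comp ((UT.of hc).pair u1)).congr fun X z => rfl
    have u3 : UT (fun A (z : ℕ × List Bool) => decide (E s (join A (tal (Tn T0 m (pr s z.1 + 1))))
        (E j (join A (tal (Tn T0 m (pr s z.1 + 1)))) (pf z)) = G z)) :=
      ((u2.pair (UT.of hG)).post (g := fun q : List Bool × List Bool => decide (q.1 = q.2))
        (PolyTime.decide_eq PolyTime.fst' PolyTime.snd')).congr fun X z => rfl
    refine ⟨_, ⟨_, u3, rfl⟩, fun n u hV' => ?_, fun n hn u => ?_⟩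
    · beta_reduce at hV'
      rw [decide_eq_true_iff] at hV'
      rw [← hV']
      refine h1 _ (Tn_agree T0 m _) (fun i hi s' n' hcl => ?_) _
      exact (pr_inj (Nat.succ_injective (Tn_cl T0 hi hcl).2)).1
    · rw [decide_eq_true_iff]
      beta_reduce
      have h3 := h2 (Tn T0 m (pr s n + 1)) (Tn_agree T0 m _) (fun i hi s' n' hcl => by
        have h4 := (pr_inj (Nat.succ_injective (Tn_cl T0 hi hcl).2)).2
        rw [h4]
        exact hn) (pf (n, u))
      rw [h3, hpf1]
      simp only [Fn, List.headD_cons, List.tail_cons, cond_true, hD', List.length_replicate]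
      rw [fB_of_cl (by unfold ipos; omega) (Tn_cl' T0 m _), cond_true]
  obtain ⟨T, hT⟩ := exists_generic (Good := fun n => ∀ u, L (G (n, u)) = true)
    (Sd := fun s T => ∀ ρ, L (E s (join A (tal T)) ρ) = true)
    (ev := fun s T ρ => E s (join A (tal T)) ρ)
    (Fn := Fn (Q0F A) D G y0) huse hevuse Fn_use hhard
  refine ⟨T, L, ?_, ⟨y0, h0⟩, ?_⟩
  · rw [hLV]
    exact npf_mem (X := join A (tal T)) p (UT_left hV)
  rintro ⟨Q, hQ, hopt⟩
  obtain ⟨F, hF, hFQ⟩ := hQ.1.exists_UT
  obtain ⟨s, hs⟩ := hEx F hF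
  have hs' : ∀ ρ, E s (join A (tal T)) ρ = Q ρ := fun ρ => by rw [hs, hFQ]
  rcases hT s with hT | ⟨m0, hT, hT'⟩
  · exact hT fun ρ => by
      rw [hs']
      exact (hQ.2 _).2 ⟨_, rfl⟩
  · have hFnS : IsProofSystemOracle (join A (tal T)) L (Fn (Q0F A) D G y0 s m0 T) := by
      refine ⟨?_, fun y => ⟨fun hy => ?_, ?_⟩⟩
      · have h1 := (FnF_UT hQ0F hD hG y0 s m0).isPolyTimeOracle (join A (tal T))
        have h2 : FnF Q0F D G y0 s m0 (join A (tal T)) = Fn (Q0F A) D G y0 s m0 T :=
          funext fun π => FnF_eq _ _ _ _ _ _ _ _ _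
        rwa [h2] at h1
      · obtain ⟨π, hπ⟩ := (hQ0 y).1 hy
        exact ⟨false :: π, by simpa [Fn] using hπ⟩
      · rintro ⟨π, rfl⟩
        exact Fn_sound hQ0 h0 hT π
    obtain ⟨t, ht, htS⟩ := hopt _ hFnS
    obtain ⟨F', hF', hFt⟩ := ht.exists_UT
    obtain ⟨j, hj⟩ := hEx F' hF'
    have hj' : ∀ ρ, E j (join A (tal T)) ρ = t ρ := fun ρ => by rw [hj, hFt]
    obtain ⟨π, hπ⟩ := hT' j
    refine hπ ?_
    beta_reduce
    rw [hj', hs']
    exact htS π

theorem exists_QOne {A : List Bool → Bool}
    (h : ¬ ∀ B ∈ PiTwoOracle A, Tally B → B ∈ POracle A) :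
    ∃ T : ℕ → Bool, QOne (join A (tal T)) := by
  obtain ⟨T, L₀, hL₀, hne, hno⟩ := exists_oracle_not_optimal h
  refine ⟨T, fun L hL hhard hQ => hno ?_⟩
  obtain ⟨f, hf, hfL⟩ := hhard L₀ hL₀
  exact hasPOptimal_of_reduction hf hfL hne hQ

end Pool.Agent.TO42
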