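import Pool.Agent.TO42.Defs

/-!
# Module TO42/Residual

A finitary statement about a generic oracle is forced.

PROOF. Let `V := {T | ∃ m, ∀ T', (∀ j < m, T' j = T j) → ∀ x, Ψ T' x}` and `W := {T | ∃ x, ¬ Ψ T x}`.
Both are open: `V` because with `T` the whole cylinder `{T' | ∀ j < m, T' j = T j}` is in `V`,
`W` by `hΨ`; cylinders are open in the product of discrete spaces (`isOpen_set_pi`, or
`isOpen_iff_forall_mem_open` with `isOpen_biInter_finset`/`continuous_apply`). `V ∪ W` is dense: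
every nonempty open set contains a cylinder around some `T` with some `m`; if `T ∉ V` there is
`T'` in the cylinder and `x` with `¬ Ψ T' x`, so `T' ∈ W`. Hence the open dense set `V ∪ W` is
residual (`residual_of_dense_open`).
-/

set_option autoImplicit false

namespace Pool.Agent.TO42

theorem residual_forced {β : Type} (Ψ : (ℕ → Bool) → β → Prop)
    (hΨ : ∀ T x, ∃ K, ∀ T' : ℕ → Bool, (∀ j < K, T' j = T j) → (Ψ T' x ↔ Ψ T x)) :
    ∀ᶠ T in residual (ℕ → Bool), (∃ m, ∀ T' : ℕ → Bool, (∀ j < m, T' j = T j) → ∀ x, Ψ T' x) ∨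
      ∃ x, ¬ Ψ T x := by
  classical
  have hcyl : ∀ (m : ℕ) (T : ℕ → Bool), IsOpen {T' : ℕ → Bool | ∀ j < m, T' j = T j} := by
    intro m T
    have h1 : {T' : ℕ → Bool | ∀ j < m, T' j = T j} =
        Set.pi (↑(Finset.range m) : Set ℕ) (fun j => ({T j} : Set Bool)) := by
      ext T'
      simp [Set.mem_pi]
    rw [h1]
    exact isOpen_set_pi (Finset.finite_toSet _) (fun j _ => isOpen_discrete _)
  have hopen : IsOpen {T : ℕ → Bool | (∃ m, ∀ T' : ℕ → Bool, (∀ j < m, T' j = T j) →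
      ∀ x, Ψ T' x) ∨ ∃ x, ¬ Ψ T x} := by
    rw [isOpen_iff_forall_mem_open]
    rintro T (⟨m, hm⟩ | ⟨x, hx⟩)
    · refine ⟨{T' | ∀ j < m, T' j = T j}, ?_, hcyl m T, fun j _ => rfl⟩
      intro T' hT'
      refine Or.inl ⟨m, fun T'' hT'' => hm T'' ?_⟩
      intro j hj
      rw [hT'' j hj, hT' j hj]
    · obtain ⟨K, hK⟩ := hΨ T x
      refine ⟨{T' | ∀ j < K, T' j = T j}, ?_, hcyl K T, fun j _ => rfl⟩
      intro T' hT'
      exact Or.inr ⟨x, fun h => hx ((hK T' hT').1 h)⟩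
  have hdense : Dense {T : ℕ → Bool | (∃ m, ∀ T' : ℕ → Bool, (∀ j < m, T' j = T j) →
      ∀ x, Ψ T' x) ∨ ∃ x, ¬ Ψ T x} := by
    rw [dense_iff_inter_open]
    rintro U hU ⟨T, hT⟩
    have h1 := isOpen_pi_iff.1 hU T hT
    obtain ⟨I, u, h2, h3⟩ := h1
    obtain ⟨m, hm⟩ : ∃ m : ℕ, ∀ j ∈ I, j < m :=
      ⟨I.sup id + 1, fun j hj => Nat.lt_succ_of_le (Finset.le_sup (f := id) hj)⟩
    have hsub : ∀ T' : ℕ → Bool, (∀ j < m, T' j = T j) → T' ∈ U := by
      intro T' hT'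
      apply h3
      intro j hj
      rw [hT' j (hm j hj)]
      exact (h2 j hj).2
    by_cases hV : ∀ T' : ℕ → Bool, (∀ j < m, T' j = T j) → ∀ x, Ψ T' x
    · exact ⟨T, hT, Or.inl ⟨m, hV⟩⟩
    · simp only [not_forall] at hV
      obtain ⟨T', hT', x, hx⟩ := hV
      exact ⟨T', hsub T' hT', Or.inr ⟨x, hx⟩⟩
  exact residual_of_dense_open hopen hdense

end Pool.Agent.TO42
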