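import Pool.Agent.TO42.Canon
import Pool.Agent.TO42.Residual
import Pool.Agent.TO42.Tal

/-!
# Module TO42/GenDown

If optimal systems exist relative to `A ⊕ T` for a generic `T`, they exist relative to `A`.

PROOF. `X T = join A (tal T)`. Residual set by `residual_forced` and countability (`countable_UT`,
`countable_npf`): for all `p`, `V` (`UT`), with `L = npf p V A`, and all `F` (`UT`):
`Ψ₁ T x := L (F (X T) x) = true`; for all `F`, `G`, `H` (`UT`):
`Ψ₂ T x := F (X T) (G (X T) x) = H A x`. (`hΨ` from `exists_use_tal`.)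
Let `T` be in all these sets, `X = X T`. Let `L = npf p V A ∋ y0`. `L ∈ NP^X`
(`IsPolyTimeOracle.join_left` for the verifier), so it has an optimal system `P = F X`. By `Ψ₁` (no
counterexample since `P` is sound) there is `m` with `L (F (X T') x)` for all `T' ≡ₘ T`, all `x`.
System relative to `A`: `PA π := F (join A (tal (sg (pre T m ++ s)))) x` with `(s, x) = D π`
(`UT_seg` precomposed with `(s, x) ↦ (pre T m ++ s, x)`); sound, since
`sg (pre T m ++ s) ≡ₘ T`. Simulation of `S = H A` with `L (S x)` for all `x`, `S` a proof system of `L`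
relative to `A`, hence relative to `X`: there is `h = G X` with `F X (G X x) = H A x` for all `x`.
By `Ψ₂` there is `m₂` with `F (X T') (G (X T') x) = H A x` for all `T' ≡ T` below `m₂`; let
`M = max m m₂`, `s = (pre T M).drop m`, so `pre T m ++ s = pre T M` (`pre_take`),
`T' = sg (pre T M)`, and `hA x := bitEncode (s, G (join A (tal T')) x)` (`UT_seg` with the constant
segment) gives `PA (hA x) = F (X T') (G (X T') x) = S x`. Range exactly `L`: if `L y`, then
`F X π0 = y` for some `π0`; by `exists_use_tal` the same holds for `sg (pre T M)`, `M ≥ m` large, so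
`PA (bitEncode ((pre T M).drop m, π0)) = y`.
-/

set_option autoImplicit false

namespace Pool.Agent.TO42

open Pool.Agent.PT Pool.Agent.TMB67 Pool.Agent.POpt67 Pool.Agent.POpt70 Pool.Agent.ROr14
open N68a2faeb N793a5b8e N487b59b3

theorem generic_down (A : List Bool → Bool) :
    ∀ᶠ T in residual (ℕ → Bool),
      (∀ L ∈ NPOracle (join A (tal T)), (∃ y, L y = true) → HasPOptimal (join A (tal T)) L) →
      ∀ L ∈ NPOracle A, (∃ y, L y = true) → HasPOptimal A L := by
  classical
  -- the finitary statements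
  have key : ∀ {α β : Type} [Enc α] [Enc β] (Φ : (List Bool → Bool) → α → β) (hΦ : UT Φ)
      (R : α → β → Prop),
      ∀ T x, ∃ K, ∀ T' : ℕ → Bool, (∀ j < K, T' j = T j) →
        (R x (Φ (join A (tal T')) x) ↔ R x (Φ (join A (tal T)) x)) := by
    intro α β _ _ Φ hΦ R T x
    obtain ⟨U, hU⟩ := exists_use_tal hΦ
    refine ⟨U.eval (sz x), fun T' hT' => ?_⟩
    rw [hU A T' T x (fun j hj => hT' j (lt_trans Nat.lt_two_pow_self hj))]
  have h1 : ∀ᶠ T in residual (ℕ → Bool), ∀ Λ ∈ {Λ : (List Bool → Bool) → DecisionProblem |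
      ∃ (p : Polynomial ℕ) (F : (List Bool → Bool) → List Bool × List Bool → Bool),
        UT F ∧ Λ = npf p F},
      ∀ F ∈ {F : (List Bool → Bool) → List Bool → List Bool | UT F},
      (∃ m, ∀ T' : ℕ → Bool, (∀ j < m, T' j = T j) → ∀ x, Λ A (F (join A (tal T')) x) = true) ∨
        ∃ x, ¬ Λ A (F (join A (tal T)) x) = true := by
    rw [eventually_countable_ball countable_npf]
    intro Λ hΛ
    rw [eventually_countable_ball countable_UT]
    intro F hF
    exact residual_forced (fun T x => Λ A (F (join A (tal T)) x) = true)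
      (key F hF (fun _ y => Λ A y = true))
  have h2 : ∀ᶠ T in residual (ℕ → Bool),
      ∀ F ∈ {F : (List Bool → Bool) → List Bool → List Bool | UT F},
      ∀ G ∈ {F : (List Bool → Bool) → List Bool → List Bool | UT F},
      ∀ H ∈ {F : (List Bool → Bool) → List Bool → List Bool | UT F},
      (∃ m, ∀ T' : ℕ → Bool, (∀ j < m, T' j = T j) → ∀ x,
        F (join A (tal T')) (G (join A (tal T')) x) = H A x) ∨
        ∃ x, ¬ F (join A (tal T)) (G (join A (tal T)) x) = H A x := by
    rw [eventually_countable_ball countable_UT]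
    intro F hF
    rw [eventually_countable_ball countable_UT]
    intro G hG
    rw [eventually_countable_ball countable_UT]
    intro H _
    exact residual_forced (fun T x => F (join A (tal T)) (G (join A (tal T)) x) = H A x)
      (key (fun X x => F X (G X x)) (UT.comp hF hG) (fun x y => y = H A x))
  filter_upwards [h1, h2] with T hT1 hT2 hopt L hL hne
  obtain ⟨p, V, hV, hLV⟩ := mem_NPOracle_iff.1 hL
  have hLX : L ∈ NPOracle (join A (tal T)) := by
    obtain ⟨p', R, hR, hLR⟩ := hL
    exact ⟨p', R, IsPolyTimeOracle.join_left hR (tal T), hLR⟩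
  obtain ⟨P, hP, hPopt⟩ := hopt L hLX hne
  obtain ⟨F, hF, hFP⟩ := IsPolyTimeOracle.exists_UT hP.1
  subst hFP
  -- soundness is forced
  obtain ⟨m, hm⟩ : ∃ m, ∀ T' : ℕ → Bool, (∀ j < m, T' j = T j) →
      ∀ x, L (F (join A (tal T')) x) = true := by
    rcases hT1 (npf p V) ⟨p, V, hV, rfl⟩ F hF with h | ⟨x, hx⟩
    · rw [← hLV] at h
      exact h
    · rw [← hLV] at hx
      exact absurd ((hP.2 _).2 ⟨x, rfl⟩) hx
  obtain ⟨D, hD, hDec⟩ := Compat.dec (α := List Bool × List Bool)
  have hsg : ∀ (s : List Bool) (j : ℕ), j < m → sg (pre T m ++ s) j = T j := by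
    intro s j hj
    have hlen : (pre T m).length = m := by simp [pre]
    rw [← sg_pre (T := T) hj]
    unfold sg
    rw [List.getD_append _ _ _ _ (by rw [hlen]; exact hj)]
  have hpre : ∀ M, m ≤ M → pre T m ++ (pre T M).drop m = pre T M := by
    intro M hM
    have : pre T m = (pre T M).take m := by
      unfold pre
      rw [← List.map_take, List.take_range, Nat.min_eq_left hM]
    rw [this, List.take_append_drop]
  have hFA : UT (fun A (π : List Bool) =>
      F (join A (tal (sg (pre T m ++ (D π).1)))) (D π).2) :=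
    (UT_seg hF).pre (g := fun π : List Bool => (pre T m ++ (D π).1, (D π).2))
      (PolyTime.pair (PolyTime.append (PolyTime.const _) (PolyTime.fst hD)) (PolyTime.snd hD))
  refine ⟨fun π => F (join A (tal (sg (pre T m ++ (D π).1)))) (D π).2,
    ⟨hFA.isPolyTimeOracle A, fun y => ⟨fun hy => ?_, ?_⟩⟩, fun S hS => ?_⟩
  · obtain ⟨π0, hπ0⟩ := (hP.2 y).1 hy
    obtain ⟨U, hU⟩ := exists_use_tal hF
    refine ⟨bitEncode ((pre T (max m (U.eval (sz π0)))).drop m, π0), ?_⟩
    beta_reduce
    rw [hDec]
    simp only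
    rw [hpre _ (le_max_left _ _), ← hπ0]
    refine hU A _ T π0 fun j hj => sg_pre ?_
    exact lt_of_lt_of_le (lt_trans Nat.lt_two_pow_self hj) (le_max_right _ _)
  · rintro ⟨π, rfl⟩
    exact hm _ (hsg _) _
  · obtain ⟨h, hh, hsim⟩ := hPopt S ⟨IsPolyTimeOracle.join_left hS.1 (tal T), hS.2⟩
    obtain ⟨G, hG, rfl⟩ := IsPolyTimeOracle.exists_UT hh
    obtain ⟨H, hH, hHS⟩ := IsPolyTimeOracle.exists_UT hS.1
    obtain ⟨m₂, hm₂⟩ : ∃ m₂, ∀ T' : ℕ → Bool, (∀ j < m₂, T' j = T j) → ∀ x,
        F (join A (tal T')) (G (join A (tal T')) x) = H A x := by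
      rcases hT2 F hF G hG H hH with h | ⟨x, hx⟩
      · exact h
      · exact absurd (by rw [hHS]; exact hsim x) hx
    have hGA : UT (fun A (x : List Bool) => (bitEncode ((pre T (max m m₂)).drop m,
        G (join A (tal (sg (pre T (max m m₂))))) x) : List Bool)) :=
      UT.post (g := fun y : List Bool =>
          (bitEncode ((pre T (max m m₂)).drop m, y) : List Bool))
        ((Compat.enc (α := List Bool × List Bool)).comp
          (PolyTime.pair (PolyTime.const _) PolyTime.id))
        ((UT_seg hG).pre (g := fun x : List Bool => (pre T (max m m₂), x))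
          (PolyTime.pair (PolyTime.const _) PolyTime.id))
    refine ⟨_, hGA.isPolyTimeOracle A, fun x => ?_⟩
    beta_reduce
    rw [hDec]
    simp only
    rw [hpre _ (le_max_left _ _), hm₂ _ (fun j hj => sg_pre (lt_of_lt_of_le hj (le_max_right _ _))),
      hHS]

end Pool.Agent.TO42
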