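import Pool.Agent.TO42.Canon
import Pool.Agent.TO42.Residual
import Pool.Agent.TO42.Tal

/-!
# Module TO42/GenUp

If optimal systems exist relative to `A`, they exist relative to `A ⊕ T` for generic `T`.

PROOF. Residual set: for all `p`, `G` (`UT`, verifier) and `F` (`UT`, system), by
`residual_forced` for `Ψ T x := npf p G (X T) (F (X T) x) = true`, `X T = join A (tal T)`, and
`eventually_countable_forall`/`countable_bInter_mem` (`countable_npf`, `countable_UT`; `hΨ` from
`exists_use_tal` for `F` and `npf_polyUse`+`join_congr` for `npf p G`): `T` satisfies, for all these,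
`(∃ m, ∀ T' ≡ₘ T, ∀ x, npf p G (X T') (F (X T') x)) ∨ ∃ x, ¬ npf p G (X T) (F (X T) x)`.
Fix such `T`, `X = X T`, `L = npf p G X ∋ y0`. Let `D` decode pairs of strings. Let
`L' z := npf p G (join A (tal (sg (D z).1))) (D z).2`; `L' ∈ NP^A`: it is
`∃ w, w.length ≤ p.eval (D z).2.length ∧ G (join A (tal (sg (D z).1))) ((D z).2, w)`, use `UT_seg`
and a polynomial bound in `z.length` (verifier tests the exact length). Let
`UG` be the polynomial use of `npf p G` (`npf_polyUse`: depends only on strings of length
`≤ UG.eval y.length`). `L'` contains `z0 := bitEncode (pre T k0, y0)` for `k0` with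
`UG.eval y0.length ≤ 2 ^ k0`. So `HasPOptimal A L'`; let `P'` be the system, `P' = FP A`.
System relative to `X`: `D₂ π = (π₁, pad)`, `z = P' π₁`, `s = (D z).1`, `y = (D z).2`:
`PX π := if s = readT X pad.length ∧ UG.eval y.length ≤ 2 ^ s.length-capped then y else y0`, where
the second test is `UG.eval y.length * 2 ≤ pad.length` (then for `k = log 2 pad.length`,
`2 ^ k * 2 > pad.length ≥ 2 * UG..`, so `UG.eval y.length < 2 ^ k`). Sound: `s = pre T k`,
`npf p G (join A (tal (sg s))) y = true` and the use is `< 2 ^ k`, `sg_pre`, `join_congr`.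
Simulation of `S = F X` (`UT F`, sound): the second alternative fails, so get `m` with all
`T' ≡ₘ T` sound. `S' : ρ ↦` (first bit true): with `(s, x) = D ρ.tail`: if `m ≤ s.length ∧
s.take m = pre T m` then `bitEncode (s, F (join A (tal (sg s))) x)` else `z0`;
(first bit false): `P' ρ.tail`. `S'` is a proof system for `L'` relative to `A` (`UT_seg`). So
`P' (h' ρ) = S' ρ`, `h'` polynomial time relative to `A`, hence to `X`
(`IsPolyTimeOracle.join_left`). Let `l x := 2 * (UF.eval (sz x) + UG.eval (bound of |F X x|) +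
2 ^ m + 1)` and `h x := bitEncode (h' (true :: bitEncode (readT X (l x), x)), 1^(l x))`. Then with
`k = log 2 (l x)`: `m ≤ k`, `F (join A (tal (sg (pre T k)))) x = F X x` (`exists_use_tal`), so
`P' (..) = bitEncode (pre T k, S x)` and `PX (h x) = S x`. Range exactly `L`: apply the simulation to
the constant functional `y ∈ L`.
-/

set_option autoImplicit false

namespace Pool.Agent.TO42

open Pool.Agent.PT Pool.Agent.TMB67 Pool.Agent.POpt67 Pool.Agent.POpt70 Pool.Agent.ROr14
open N68a2faeb N793a5b8e N487b59b3

theorem generic_up (A : List Bool → Bool)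
    (hA : ∀ L ∈ NPOracle A, (∃ y, L y = true) → HasPOptimal A L) :
    ∀ᶠ T in residual (ℕ → Bool), ∀ L ∈ NPOracle (join A (tal T)), (∃ y, L y = true) →
      HasPOptimal (join A (tal T)) L := by
  classical
  have h1 : ∀ᶠ T in residual (ℕ → Bool), ∀ Λ ∈ {Λ : (List Bool → Bool) → DecisionProblem |
      ∃ (p : Polynomial ℕ) (F : (List Bool → Bool) → List Bool × List Bool → Bool),
        UT F ∧ Λ = npf p F},
      ∀ F ∈ {F : (List Bool → Bool) → List Bool → List Bool | UT F},
      (∃ m, ∀ T' : ℕ → Bool, (∀ j < m, T' j = T j) → ∀ x,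
        Λ (join A (tal T')) (F (join A (tal T')) x) = true) ∨
        ∃ x, ¬ Λ (join A (tal T)) (F (join A (tal T)) x) = true := by
    rw [eventually_countable_ball countable_npf]
    rintro Λ ⟨p, G, hG, rfl⟩
    rw [eventually_countable_ball countable_UT]
    intro F hF
    refine residual_forced
      (fun T x => npf p G (join A (tal T)) (F (join A (tal T)) x) = true) ?_
    intro T x
    obtain ⟨U, hU⟩ := exists_use_tal hF
    obtain ⟨u, hu⟩ := npf_polyUse p hG
    refine ⟨U.eval (sz x) + u.eval (F (join A (tal T)) x).length, fun T' hT' => ?_⟩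
    have e1 : F (join A (tal T')) x = F (join A (tal T)) x := by
      refine hU A T' T x fun j hj => hT' j ?_
      have := lt_trans Nat.lt_two_pow_self hj
      omega
    have e2 : npf p G (join A (tal T')) (F (join A (tal T)) x) =
        npf p G (join A (tal T)) (F (join A (tal T)) x) := by
      refine hu _ _ _ fun w hw => join_congr
        (n := u.eval (F (join A (tal T)) x).length) (fun j hj => hT' j ?_) w hw
      have := lt_trans Nat.lt_two_pow_self hj
      omega
    rw [e1, e2]
  filter_upwards [h1] with T hT1 L hL hne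
  obtain ⟨y0, hy0⟩ := hne
  obtain ⟨p, G, hG, hLG⟩ := mem_NPOracle_iff.1 hL
  obtain ⟨UG, hUG⟩ := npf_polyUse p hG
  obtain ⟨D, hD, hDec⟩ := Compat.dec (α := List Bool × List Bool)
  have henc : PolyTime (fun t : List Bool × List Bool => (bitEncode t : List Bool)) :=
    Compat.enc (α := List Bool × List Bool)
  -- segments that are long enough
  have hseg : ∀ (k : ℕ) (y : List Bool), UG.eval y.length ≤ 2 ^ k →
      npf p G (join A (tal (sg (pre T k)))) y = L y := by
    intro k y hk
    rw [hLG]
    refine hUG _ _ y fun w hw => join_congr (n := UG.eval y.length) (fun j hj => sg_pre ?_) w hw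
    exact (Nat.pow_lt_pow_iff_right (by norm_num)).1 (lt_of_lt_of_le hj hk)
  have hlog : ∀ a l : ℕ, 2 * a ≤ l → a ≤ 2 ^ Nat.log 2 l := by
    intro a l h
    have h2 := Nat.lt_pow_succ_log_self (b := 2) (by norm_num) l
    rw [pow_succ] at h2
    omega
  -- the language with segments
  obtain ⟨q, hq⟩ := exists_length_bound (s := fun z => p.eval (D z).2.length)
    ((polyEval_length p (PolyTime.snd hD)).pbdd.of_le fun x => by rw [sz_nat]; omega)
  have hD1 : PolyTime (fun z : List Bool × List Bool => D z.1) := hD.comp PolyTime.fst'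
  have hFL : UT (fun (B : List Bool → Bool) (z : List Bool × List Bool) =>
      (decide (z.2.length ≤ p.eval (D z.1).2.length) &&
        G (join B (tal (sg (D z.1).1))) ((D z.1).2, z.2))) := by
    refine UT.post (g := fun t : Bool × Bool => t.1 && t.2) (by fun_prop) (UT.pair (UT.of
      (PolyTime.decide_le (PolyTime.length PolyTime.snd') (polyEval_length p (PolyTime.snd hD1))))
      ((UT_seg hG).pre (g := fun z : List Bool × List Bool => ((D z.1).1, ((D z.1).2, z.2))) ?_))
    exact PolyTime.pair (PolyTime.fst hD1) (PolyTime.pair (PolyTime.snd hD1) PolyTime.snd')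
  obtain ⟨L', hL'mem, hL'⟩ : ∃ L' ∈ NPOracle A, ∀ z, L' z = true ↔
      npf p G (join A (tal (sg (D z).1))) (D z).2 = true := by
    refine ⟨_, npf_mem q hFL, fun z => ?_⟩
    rw [npf_iff, npf_iff]
    simp only [Bool.and_eq_true, decide_eq_true_iff]
    constructor
    · rintro ⟨w, _, hw, hw'⟩
      exact ⟨w, hw, hw'⟩
    · rintro ⟨w, hw, hw'⟩
      exact ⟨w, hw.trans (hq z), hw, hw'⟩
  obtain ⟨z0, hz0⟩ : ∃ z0, L' z0 = true := by
    refine ⟨bitEncode (pre T (UG.eval y0.length), y0), ?_⟩
    rw [hL', hDec, hseg _ _ Nat.lt_two_pow_self.le]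
    exact hy0
  obtain ⟨P', hP', hPopt⟩ := hA L' hL'mem ⟨z0, hz0⟩
  obtain ⟨FA, hFA, hFAP⟩ := IsPolyTimeOracle.exists_UT hP'.1
  obtain ⟨FX, hFX, hFXP⟩ := IsPolyTimeOracle.exists_UT (IsPolyTimeOracle.join_left hP'.1 (tal T))
  -- the new system
  have hnew : UT (fun (X : List Bool → Bool) (π : List Bool) =>
      if (D (FX X (D π).1)).1 = readT X (D π).2.length ∧
          2 * UG.eval (D (FX X (D π).1)).2.length ≤ (D π).2.length
        then (D (FX X (D π).1)).2 else y0) := by
    refine UT.post (g := fun t : (List Bool × List Bool) × List Bool =>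
      if (D t.1.1).1 = t.1.2 ∧ 2 * UG.eval (D t.1.1).2.length ≤ t.2.length
        then (D t.1.1).2 else y0) ?_
      (UT.pair (UT.pair (hFX.pre (g := fun π : List Bool => (D π).1) (PolyTime.fst hD))
        (readT_UT.pre (g := fun π : List Bool => (D π).2.length) (PolyTime.snd hD).length))
        (UT.of (f := fun π : List Bool => (D π).2) (PolyTime.snd hD)))
    have hDt : PolyTime (fun t : (List Bool × List Bool) × List Bool => D t.1.1) :=
      hD.comp (PolyTime.fst PolyTime.fst')
    refine PolyTime.ite (PolyTime.decide_and (PolyTime.decide_eq (PolyTime.fst hDt)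
      (PolyTime.snd PolyTime.fst')) (PolyTime.decide_le (PolyTime.natMul (PolyTime.const 2)
        (polyEval_length UG (PolyTime.snd hDt))) (PolyTime.length PolyTime.snd')))
      (PolyTime.snd hDt) (PolyTime.const _)
  obtain ⟨PX, hPXdef⟩ : ∃ PX : List Bool → List Bool, PX = fun π =>
      if (D (P' (D π).1)).1 = readT (join A (tal T)) (D π).2.length ∧
          2 * UG.eval (D (P' (D π).1)).2.length ≤ (D π).2.length
        then (D (P' (D π).1)).2 else y0 := ⟨_, rfl⟩
  have hPXpoly : IsPolyTimeOracle (join A (tal T)) PX := by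
    have := hnew.isPolyTimeOracle (join A (tal T))
    rw [hFXP] at this
    rw [hPXdef]
    exact this
  have hsound : ∀ π, L (PX π) = true := by
    intro π
    rw [hPXdef]
    beta_reduce
    split_ifs with h
    · have h2 : L' (P' (D π).1) = true := (hP'.2 _).2 ⟨_, rfl⟩
      rw [hL', h.1, readT_eq, hseg _ _ (hlog _ _ h.2)] at h2
      exact h2
    · exact hy0
  -- simulation
  have hsim : ∀ F : (List Bool → Bool) → List Bool → List Bool, UT F →
      (∀ x, L (F (join A (tal T)) x) = true) →
      ∃ h : List Bool → List Bool, IsPolyTimeOracle (join A (tal T)) h ∧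
        ∀ x, PX (h x) = F (join A (tal T)) x := by
    intro F hF hFs
    obtain ⟨m, hm⟩ : ∃ m, ∀ T' : ℕ → Bool, (∀ j < m, T' j = T j) → ∀ x,
        npf p G (join A (tal T')) (F (join A (tal T')) x) = true := by
      rcases hT1 (npf p G) ⟨p, G, hG, rfl⟩ F hF with h | ⟨x, hx⟩
      · exact h
      · exact absurd (by rw [← hLG]; exact hFs x) hx
    have hDt : PolyTime (fun ρ : List Bool => D ρ.tail) := hD.comp PolyTime.id.tail
    have hS : UT (fun (B : List Bool → Bool) (ρ : List Bool) =>
        if ρ.headD false = true then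
          (if m ≤ (D ρ.tail).1.length ∧ (D ρ.tail).1.take m = pre T m then
            (bitEncode ((D ρ.tail).1, F (join B (tal (sg (D ρ.tail).1))) (D ρ.tail).2) :
              List Bool) else z0)
        else FA B ρ.tail) := by
      refine UT.ite (PolyTime.decide_eq_true (PolyTime.headD PolyTime.id (PolyTime.const _)))
        (UT.ite (PolyTime.decide_and (PolyTime.decide_le (PolyTime.const m)
          (PolyTime.fst hDt).length) (PolyTime.decide_eq (PolyTime.take (PolyTime.const m)
            (PolyTime.fst hDt)) (PolyTime.const _))) ?_ (UT.of (PolyTime.const _)))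
        (hFA.pre PolyTime.id.tail)
      exact UT.post henc (UT.pair (UT.of (f := fun ρ : List Bool => (D ρ.tail).1)
        (PolyTime.fst hDt)) ((UT_seg hF).pre (g := fun ρ : List Bool =>
          ((D ρ.tail).1, (D ρ.tail).2)) (PolyTime.pair (PolyTime.fst hDt) (PolyTime.snd hDt))))
    have hS' := hS.isPolyTimeOracle A
    rw [hFAP] at hS'
    obtain ⟨S', hS'def⟩ : ∃ S' : List Bool → List Bool, S' = fun ρ =>
        if ρ.headD false = true then
          (if m ≤ (D ρ.tail).1.length ∧ (D ρ.tail).1.take m = pre T m then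
            (bitEncode ((D ρ.tail).1, F (join A (tal (sg (D ρ.tail).1))) (D ρ.tail).2) :
              List Bool) else z0)
        else P' ρ.tail := ⟨_, rfl⟩
    rw [← hS'def] at hS'
    have hps : IsProofSystemOracle A L' S' := by
      refine ⟨hS', fun y => ⟨fun hy => ?_, ?_⟩⟩
      · obtain ⟨π, hπ⟩ := (hP'.2 y).1 hy
        refine ⟨false :: π, ?_⟩
        rw [hS'def]
        beta_reduce
        rw [List.tail_cons, List.headD_cons, if_neg (by simp)]
        exact hπ
      · rintro ⟨ρ, rfl⟩
        rw [hS'def]
        beta_reduce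
        split_ifs with h2 h3
        · rw [hL', hDec]
          refine hm _ (fun j hj => ?_) _
          rw [← sg_pre (T := T) hj, ← h3.2]
          unfold sg
          rw [List.getD_eq_getElem?_getD, List.getD_eq_getElem?_getD, List.getElem?_take,
            if_pos hj]
        · exact hz0
        · exact (hP'.2 _).2 ⟨_, rfl⟩
    obtain ⟨h', hh', hsim'⟩ := hPopt S' hps
    obtain ⟨FH, hFH, hFHh⟩ := IsPolyTimeOracle.exists_UT
      (IsPolyTimeOracle.join_left hh' (tal T))
    obtain ⟨UF, hUF⟩ := exists_use_tal hF
    obtain ⟨r, hr⟩ := hF.bound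
    obtain ⟨l, hldef⟩ : ∃ l : List Bool → ℕ, l = fun x =>
      2 * (UF.eval (sz x) + UG.eval (r.eval (sz x)) + 2 ^ m + 1) := ⟨_, rfl⟩
    have hl : PolyTime l := by
      rw [hldef]
      have hsz : PolyTime (fun x : List Bool => sz x) := PolyTime.size PolyTime.id
      exact PolyTime.natMul (PolyTime.const 2) (PolyTime.natAdd (PolyTime.natAdd
        (PolyTime.natAdd (polyEval_polyTime hsz UF)
          (polyEval_polyTime (polyEval_polyTime hsz r) UG)) (PolyTime.const _))
        (PolyTime.const _))
    have hh : UT (fun (X : List Bool → Bool) (x : List Bool) =>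
        (bitEncode (FH X (true :: bitEncode (readT X (l x), x)),
          List.replicate (l x) true) : List Bool)) := by
      refine UT.post henc (UT.pair (hFH.comp (UT.post (g := fun t : List Bool × List Bool =>
        true :: (bitEncode t : List Bool)) (PolyTime.cons (PolyTime.const _) henc)
        (UT.pair (readT_UT.pre hl) (UT.of PolyTime.id))))
        (UT.of (PolyTime.replicate hl (PolyTime.const _))))
    have hh2 := hh.isPolyTimeOracle (join A (tal T))
    rw [hFHh] at hh2
    refine ⟨_, hh2, fun x => ?_⟩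
    have hpos : 0 < 2 ^ m := Nat.two_pow_pos m
    have hmk : m ≤ Nat.log 2 (l x) := by
      refine Nat.le_log_of_pow_le (by norm_num) ?_
      rw [hldef]
      beta_reduce
      omega
    have e1 : F (join A (tal (sg (pre T (Nat.log 2 (l x)))))) x =
        F (join A (tal T)) x := by
      refine hUF A _ _ x fun j hj => sg_pre ?_
      refine (Nat.pow_lt_pow_iff_right (a := 2) (by norm_num)).1 (lt_of_lt_of_le hj
        (hlog _ _ ?_))
      rw [hldef]
      beta_reduce
      omega
    have e2 : P' (h' (true :: bitEncode (readT (join A (tal T)) (l x), x))) =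
        bitEncode (pre T (Nat.log 2 (l x)), F (join A (tal T)) x) := by
      rw [hsim', hS'def]
      beta_reduce
      rw [List.tail_cons, List.headD_cons, if_pos rfl, hDec, readT_eq]
      simp only
      rw [if_pos ⟨by rw [pre_length]; exact hmk, pre_take T hmk⟩, e1]
    rw [hPXdef]
    beta_reduce
    rw [hDec]
    simp only
    rw [e2, hDec, readT_eq, List.length_replicate]
    simp only
    rw [if_pos]
    refine ⟨trivial, ?_⟩
    have h3 : UG.eval (F (join A (tal T)) x).length ≤ UG.eval (r.eval (sz x)) :=
      eval_mono UG ((length_le_sz _).trans (hr _ x))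
    rw [hldef]
    beta_reduce
    omega
  refine ⟨PX, ⟨hPXpoly, fun y => ⟨fun hy => ?_, ?_⟩⟩, fun S hS => ?_⟩
  · obtain ⟨h, _, hh⟩ := hsim (fun _ _ => y) (UT.of (PolyTime.const y)) (fun _ => hy)
    exact ⟨h [], hh []⟩
  · rintro ⟨π, rfl⟩
    exact hsound π
  · obtain ⟨F, hF, hFS⟩ := IsPolyTimeOracle.exists_UT hS.1
    obtain ⟨h, hh, hhs⟩ := hsim F hF (fun x => by
      rw [hFS]; exact (hS.2 _).2 ⟨x, rfl⟩)
    exact ⟨h, hh, fun x => by rw [hhs, hFS]⟩

end Pool.Agent.TO42
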