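import Pool.Agent.TO42.NPF
import Pool.Agent.TO42.Tal
import Pool.Agent.TO42.Iter
import Pool.Agent.POpt70.RelP

/-!
# Module TO42/PDown

`NP^(A ⊕ T) ⊆ P^(A ⊕ T)` implies `NP^A ⊆ P^A`.

PROOF (port of `NP_subset_of`, POpt70/RelP.lean). Let `L = npf p R A`, `R` a `UT` functional. Let
`B z := ∃ w, w.length ≤ p.eval (D z).1.length ∧ (D z).2 <+: w ∧ R A ((D z).1, w) = true`. `B ∈ NP^A`,
so `B ∈ NP^X` (`IsPolyTimeOracle.join_left`), `X = join A (tal T)`, so `B = F X`, `UT F`
(`exists_UT`). `Y x` := `2 * U.eval (..) + 2` a polynomial in `x.length` bounding twice the use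
(`exists_use_tal` for `F`) of all inputs `bitEncode (x, v)`, `v.length ≤ p.eval x.length + 1`. For a
number `m` let `FA A (m, x, v) := F (join A (tal (sg (bitsTo m (Nat.log 2 (Y x)))))) (bitEncode
(x, v))` (`UT_seg.pre`). Greedy search `res A (x, m) := (gstep fun v => FA A (m, x, v))^[p.eval
x.length + 1] []` is `UT` in `(x, m)` by `UT_iterate` (state `v`; one step evaluates `FA` at `v ++
[true]` and `v ++ [false]` and chooses; length of the state `≤ i` by `gstep_iter_length`). Then
`L x = (List.range (Y x + 1)).any fun m => decide ((res A (x, m)).length ≤ p.eval x.length) &&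
R A (x, res A (x, m))` (`UT.map` over `List.range (Y x + 1)`, then `PolyTime.any`), by
`exists_bitsTo T (Nat.log 2 (Y x))`, `sg_pre`, `gstep_correct`.
-/

set_option autoImplicit false

namespace Pool.Agent.TO42

open Pool.Agent.PT Pool.Agent.TMB67 Pool.Agent.POpt67 Pool.Agent.POpt70 Pool.Agent.ROr14
open N68a2faeb N793a5b8e N487b59b3

theorem NP_subset_down {A : List Bool → Bool} {T : ℕ → Bool}
    (h : NPOracle (join A (tal T)) ⊆ POracle (join A (tal T))) : NPOracle A ⊆ POracle A := by
  intro L hL
  obtain ⟨p, R, hR, rfl⟩ := mem_NPOracle_iff.1 hL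
  obtain ⟨D, hD, hD'⟩ := Compat.dec (α := List Bool × List Bool)
  obtain ⟨q, hq⟩ := exists_length_bound (s := fun z => p.eval (D z).1.length)
    ((polyEval_length p (PolyTime.fst hD)).pbdd.of_le fun x => by rw [sz_nat]; omega)
  -- the language of initial segments of witnesses
  set RB : (List Bool → Bool) → List Bool × List Bool → Bool := fun X z =>
    (decide (z.2.take (D z.1).2.length = (D z.1).2) && decide ((D z.1).2.length ≤ z.2.length) &&
      decide (z.2.length ≤ p.eval (D z.1).1.length)) && R X ((D z.1).1, z.2) with hRB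
  have hD1 : PolyTime (fun z : List Bool × List Bool => D z.1) := hD.comp PolyTime.fst'
  have hRBu : UT RB := by
    have h1 : UT (fun _ (z : List Bool × List Bool) =>
        (decide (z.2.take (D z.1).2.length = (D z.1).2) && decide ((D z.1).2.length ≤ z.2.length) &&
          decide (z.2.length ≤ p.eval (D z.1).1.length))) := by
      refine UT.of ?_
      refine PolyTime.and (PolyTime.and (PolyTime.decide_eq (PolyTime.take
        (PolyTime.length (PolyTime.snd hD1)) PolyTime.snd') (PolyTime.snd hD1))
        (PolyTime.decide_le (PolyTime.length (PolyTime.snd hD1)) (PolyTime.length PolyTime.snd')))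
        (PolyTime.decide_le (PolyTime.length PolyTime.snd') (polyEval_length p (PolyTime.fst hD1)))
    have h2 : UT (fun X (z : List Bool × List Bool) => R X ((D z.1).1, z.2)) :=
      hR.pre (PolyTime.pair (PolyTime.fst hD1) PolyTime.snd')
    exact ((h1.pair h2).post (g := fun b : Bool × Bool => b.1 && b.2)
      (PolyTime.and PolyTime.fst' PolyTime.snd')).congr fun X z => rfl
  set B : List Bool → Bool := npf q RB A with hBdef
  have hBspec : ∀ x v : List Bool, B (bitEncode (x, v)) = true ↔
      ∃ w : List Bool, w.length ≤ p.eval x.length ∧ v <+: w ∧ R A (x, w) = true := by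
    intro x v
    rw [hBdef, npf_iff]
    have hq' := hq (bitEncode (x, v))
    rw [hD'] at hq'
    simp only at hq'
    constructor
    · rintro ⟨w, _, hw⟩
      rw [hRB] at hw
      simp only [hD', Bool.and_eq_true, decide_eq_true_iff] at hw
      obtain ⟨⟨⟨h1, h2⟩, h3⟩, h4⟩ := hw
      refine ⟨w, h3, ⟨w.drop v.length, ?_⟩, h4⟩
      conv_lhs => rw [← h1]
      rw [List.length_take, min_eq_left h2, List.take_append_drop]
    · rintro ⟨w, hw, ⟨t, rfl⟩, hw'⟩
      refine ⟨v ++ t, hw.trans hq', ?_⟩
      rw [hRB]
      simp only [hD', Bool.and_eq_true, decide_eq_true_iff]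
      exact ⟨⟨⟨by simp, by simp⟩, hw⟩, hw'⟩
  have hBX : B ∈ NPOracle (join A (tal T)) :=
    mem_NPOracle_iff.2 ⟨q, fun X => RB (fun w => X (false :: w)), UT_left hRBu, rfl⟩
  have hBP : IsPolyTimeOracle (join A (tal T)) B := h hBX
  obtain ⟨F, hF, hFB⟩ := IsPolyTimeOracle.exists_UT hBP
  obtain ⟨U, hU⟩ := exists_use_tal hF
  -- bound on the advice
  have hbd : PolyTime (fun x : List Bool => 2 * U.eval (4 * (6 * x.length + 1 +
      3 * (p.eval x.length + 1)) + 1) + 2) :=
    PolyTime.natAdd (PolyTime.natMul (by fun_prop) (polyEval_polyTime (PolyTime.natAdd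
      (PolyTime.natMul (by fun_prop) (PolyTime.natAdd
      (by fun_prop) (PolyTime.natMul (by fun_prop) (PolyTime.succ (polyEval_length p
        PolyTime.id))))) (by fun_prop)) U)) (by fun_prop)
  set Y : List Bool → ℕ := fun x => 2 * U.eval (4 * (6 * x.length + 1 +
      3 * (p.eval x.length + 1)) + 1) + 2 with hY
  set G : (List Bool → Bool) → (List Bool × ℕ) × List Bool → Bool := fun X z =>
    F (join X (tal (sg (bitsTo z.1.2 (Nat.log 2 (Y z.1.1)))))) (bitEncode (z.1.1, z.2)) with hG
  have hGu : UT G := by
    refine (UT_seg hF).pre (g := fun z : (List Bool × ℕ) × List Bool =>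
      (bitsTo z.1.2 (Nat.log 2 (Y z.1.1)), bitEncode (z.1.1, z.2))) (PolyTime.pair ?_ ?_)
    · exact bitsTo_polyTime (by fun_prop) (natLog_polyTime (hbd.comp
        (PolyTime.fst PolyTime.fst')))
    · exact (Compat.enc (α := List Bool × List Bool)).comp (by fun_prop)
  have hstep : UT (fun X (z : (List Bool × ℕ) × List Bool) => gstep (fun v => G X (z.1, v)) z.2) := by
    have h1 : UT (fun X (z : (List Bool × ℕ) × List Bool) => G X (z.1, z.2 ++ [true])) :=
      hGu.pre (by fun_prop)
    have h2 : UT (fun X (z : (List Bool × ℕ) × List Bool) => G X (z.1, z.2 ++ [false])) :=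
      hGu.pre (by fun_prop)
    have h3 : UT (fun _ (z : (List Bool × ℕ) × List Bool) => z.2) := UT.of (by fun_prop)
    have h4 : PolyTime (fun w : Bool × Bool × List Bool =>
        bif w.1 then w.2.2 ++ [true] else bif w.2.1 then w.2.2 ++ [false] else w.2.2) :=
      PolyTime.cond (by fun_prop) (by fun_prop) (PolyTime.cond (by fun_prop) (by fun_prop)
        (by fun_prop))
    refine ((h1.pair (h2.pair h3)).post h4).congr fun X z => ?_
    unfold gstep
    by_cases h5 : G X (z.1, z.2 ++ [true]) = true
    · simp [h5]
    · by_cases h6 : G X (z.1, z.2 ++ [false]) = true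
      · simp [h5, h6]
      · simp [h5, h6]
  set res : (List Bool → Bool) → List Bool × ℕ → List Bool := fun X z =>
    (gstep fun v => G X (z, v))^[p.eval z.1.length + 1] [] with hres
  have hresu : UT res := by
    refine (UT_iterate (α := List Bool × ℕ) (σ := List Bool) hstep
      (n := fun z => p.eval z.1.length + 1)
      (PolyTime.succ (polyEval_length p PolyTime.fst')) (g := fun _ => []) (PolyTime.const [])
      (s := 4 * p + 5) ?_).congr fun X z => rfl
    intro X z i hi
    have h1 := gstep_iter_length (fun v => G X (z, v)) i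
    have h2 := sz_listBool ((gstep (fun v => G X (z, v)))^[i] [])
    have h3 : p.eval z.1.length ≤ p.eval (sz z) := by
      refine eval_mono p ((length_le_sz _).trans ?_)
      rw [sz_prod]
      omega
    have h4 : (fun y => gstep (fun v => G X ((z, y).1, v)) (z, y).2) =
        gstep (fun v => G X (z, v)) := rfl
    rw [h4]
    simp only [Polynomial.eval_add, Polynomial.eval_mul, Polynomial.eval_ofNat]
    omega
  have hV : UT (fun X (z : List Bool × ℕ) =>
      decide ((res X z).length ≤ p.eval z.1.length) && R X (z.1, res X z)) := by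
    have h1 : UT (fun _ (z : List Bool × ℕ) => z) := UT.of PolyTime.id
    have h2 : UT (fun X (z : List Bool × ℕ) => R X (z.1, res X z)) := by
      have h3 : UT (fun X (z : List Bool × ℕ) => (z.1, res X z)) :=
        (UT.of (f := fun z : List Bool × ℕ => z.1) (by fun_prop)).pair hresu
      exact hR.comp h3
    have h4 : UT (fun X (z : List Bool × ℕ) => decide ((res X z).length ≤ p.eval z.1.length)) := by
      refine (h1.pair hresu).post (g := fun w : (List Bool × ℕ) × List Bool =>
        decide (w.2.length ≤ p.eval w.1.1.length)) ?_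
      exact PolyTime.decide_le (PolyTime.length PolyTime.snd')
        (polyEval_length p (PolyTime.fst PolyTime.fst'))
    exact ((h4.pair h2).post (g := fun b : Bool × Bool => b.1 && b.2)
      (PolyTime.and PolyTime.fst' PolyTime.snd')).congr fun X z => rfl
  have hfin : UT (fun X (x : List Bool) => ((List.range (Y x + 1)).map fun m =>
      decide ((res X (x, m)).length ≤ p.eval x.length) && R X (x, res X (x, m))).any fun b => b) := by
    refine (UT.map (l := fun x : List Bool => List.range (Y x + 1))
      (F := fun X (z : List Bool × ℕ) =>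
        decide ((res X z).length ≤ p.eval z.1.length) && R X (z.1, res X z))
      (PolyTime.range (PolyTime.succ hbd)) hV).post (g := fun l : List Bool => l.any fun b => b) ?_
    exact PolyTime.any (l := fun l : List Bool => l) (g := fun _ b => b) PolyTime.id
      PolyTime.snd'
  have hA := UT.isPolyTimeOracle hfin A
  have heq : npf p R A = fun x => (((List.range (Y x + 1)).map fun m =>
      decide ((res A (x, m)).length ≤ p.eval x.length) && R A (x, res A (x, m))).any fun b => b) := by
    funext x
    rw [Bool.eq_iff_iff, npf_iff, List.any_map, List.any_eq_true]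
    simp only [List.mem_range, Function.comp_apply, Bool.and_eq_true, decide_eq_true_iff]
    constructor
    · intro hx
      obtain ⟨m, hm, hm'⟩ := exists_bitsTo T (Nat.log 2 (Y x))
      have hm2 : m < Y x + 1 := by
        have := Nat.pow_log_le_self 2 (x := Y x) (by simp only [hY]; omega)
        omega
      have hcor := gstep_correct (R := fun w => R A (x, w) = true) (n := p.eval x.length)
        (G := fun v => G A ((x, m), v)) (fun v hv => ?_) hx
      · exact ⟨m, hm2, hcor⟩
      · rw [← hBspec, ← hFB]
        have hkey : F (join A (tal T)) (bitEncode (x, v)) =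
            F (join A (tal (sg (bitsTo m (Nat.log 2 (Y x)))))) (bitEncode (x, v)) := by
          refine hU A T _ _ fun j hj => ?_
          rw [hm']
          refine (sg_pre ?_).symm
          have h1 := sz_listBool (bitEncode (x, v))
          rw [bitEncode_pair_length] at h1
          have h2 : U.eval (sz (bitEncode (x, v))) ≤ U.eval (4 * (6 * x.length + 1 +
              3 * (p.eval x.length + 1)) + 1) := eval_mono U (by omega)
          have h3 : 2 ^ (j + 1) ≤ Y x := by
            rw [pow_succ]; simp only [hY]; omega
          have h4 := Nat.le_log_of_pow_le (by norm_num) h3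
          omega
        rw [hkey]
    · rintro ⟨m, _, hm⟩
      exact ⟨_, hm⟩
  change IsPolyTimeOracle A (npf p R A)
  rw [heq]
  exact hA

end Pool.Agent.TO42
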