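import Pool.Agent.TO42.OWMeas

/-!
# Module TO42/OWInj

The function `FR R` is injective on long strings, for almost every `R`.

PROOF. Let `Col n x x' := {R | FR R x = FR R x'}` for `x ≠ x'` of length `n`. It depends on `Dn n`.
`measure_le_of_count` with `K = 2 ^ (3 n)`: `ins n f R ∈ Col` iff `f x = f x'` (`FR_ins`), and the
number of such `f` times `2 ^ (3 n)` is the number of all `f` (the functions with `f x = f x'` are
in bijection with the functions on the complement of `x'`; e.g. an injection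
`{f | f x = f x'} × Vn (3n) → (Vn n → Vn (3n))`, `(f, y) ↦ Function.update f x' y`). So
`randomOracle (⋃ Col) ≤ 2 ^ n * 2 ^ n * 2 ^ (-3 n) = 2 ^ (-n)`, which is summable; Borel–Cantelli:
`ae_eventually_notMem` (used in ROr14/Sum.lean).
-/

set_option autoImplicit false

namespace Pool.Agent.TO42

open Pool.Agent.PT Pool.Agent.TMB67 Pool.Agent.POpt67 Pool.Agent.POpt70 Pool.Agent.ROr14
open Pool.Agent.TFR21 MeasureTheory

/-- The collision event. -/
def Col (n : ℕ) (x x' : Vn n) : Set (List Bool → Bool) := {R | FR R x.toList = FR R x'.toList}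

theorem FR_congr {n : ℕ} {R R' : List Bool → Bool} (h : ∀ z ∈ Dn n, R z = R' z) (x : Vn n) :
    FR R x.toList = FR R' x.toList := by
  unfold FR
  rw [List.Vector.toList_length]
  apply List.map_congr_left
  intro i hi
  exact h _ (mem_Dn.2 ⟨x, ⟨i, List.mem_range.1 hi⟩, rfl⟩)

theorem dep_Col (n : ℕ) (x x' : Vn n) : Dep (Dn n) (Col n x x') := by
  intro R R' h hR
  have hR2 : FR R x.toList = FR R x'.toList := hR
  show FR R' x.toList = FR R' x'.toList
  rw [← FR_congr h x, ← FR_congr h x', hR2]

open Classical in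
theorem count_Col (n : ℕ) (x x' : Vn n) (hx : x ≠ x') (R : List Bool → Bool) :
    (Finset.univ.filter fun f : Vn n → Vn (3 * n) => ins n f R ∈ Col n x x').card *
      2 ^ (3 * n) ≤ Fintype.card (Vn n → Vn (3 * n)) := by
  have h1 : ∀ f : Vn n → Vn (3 * n), ins n f R ∈ Col n x x' ↔ f x = f x' := by
    intro f
    show FR (ins n f R) x.toList = FR (ins n f R) x'.toList ↔ _
    rw [FR_ins, FR_ins]
    exact ⟨fun h => List.Vector.toList_injective h, fun h => by rw [h]⟩
  have h2 : (2 : ℕ) ^ (3 * n) = (Finset.univ : Finset (Vn (3 * n))).card := by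
    rw [Finset.card_univ, card_vector, Fintype.card_bool]
  rw [h2, ← Finset.card_product, ← Finset.card_univ]
  refine Finset.card_le_card_of_injOn (fun z => Function.update z.1 x' z.2)
    (fun _ _ => Finset.mem_coe.2 (Finset.mem_univ _)) ?_
  rintro ⟨f, y⟩ hf ⟨g, z⟩ hg h
  rw [Finset.mem_coe, Finset.mem_product, Finset.mem_filter] at hf hg
  have hf2 : f x = f x' := (h1 f).1 hf.1.2
  have hg2 : g x = g x' := (h1 g).1 hg.1.2
  have h' : Function.update f x' y = Function.update g x' z := h
  have hyz : y = z := by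
    have := congrFun h' x'
    rwa [Function.update_self, Function.update_self] at this
  have hne : ∀ w, w ≠ x' → f w = g w := by
    intro w hw
    have := congrFun h' w
    rwa [Function.update_of_ne hw, Function.update_of_ne hw] at this
  have hfg : f = g := by
    funext w
    by_cases hw : w = x'
    · rw [hw, ← hf2, ← hg2]
      exact hne x hx
    · exact hne w hw
  rw [hfg, hyz]

/-- Some collision among the strings of length `n`. -/
def ColU (n : ℕ) : Set (List Bool → Bool) :=
  ⋃ z : Vn n × Vn n, {R | z.1 ≠ z.2 ∧ R ∈ Col n z.1 z.2}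

theorem measure_ColU (n : ℕ) : randomOracle (ColU n) ≤ (2⁻¹ : ENNReal) ^ n := by
  have h1 : ∀ z : Vn n × Vn n, randomOracle {R | z.1 ≠ z.2 ∧ R ∈ Col n z.1 z.2} ≤
      ((2 ^ (3 * n) : ℕ) : ENNReal)⁻¹ := by
    intro z
    by_cases hz : z.1 = z.2
    · have : {R | z.1 ≠ z.2 ∧ R ∈ Col n z.1 z.2} = ∅ := by
        ext R
        simp [hz]
      rw [this, measure_empty]
      exact bot_le
    · have : {R | z.1 ≠ z.2 ∧ R ∈ Col n z.1 z.2} = Col n z.1 z.2 := by
        ext R
        simp [hz]
      rw [this]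
      exact measure_le_of_count (dep_Col n z.1 z.2) n (2 ^ (3 * n)) (by positivity)
        (fun R => by convert count_Col n z.1 z.2 hz R)
  unfold ColU
  refine (measure_iUnion_le _).trans ?_
  refine (ENNReal.tsum_le_tsum h1).trans ?_
  rw [ENNReal.tsum_const, ENat.card_eq_coe_fintype_card, Fintype.card_prod, card_vector,
    Fintype.card_bool]
  have h3 : (2 : ENNReal) ^ n * 2 ^ n * (2 ^ (3 * n))⁻¹ = (2⁻¹) ^ n := by
    rw [show (3 * n) = n + n + n by ring, pow_add, pow_add, ENNReal.mul_inv (by simp) (by simp),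
      ← mul_assoc, ENNReal.mul_inv_cancel (by simp) (by simp [ENNReal.mul_eq_top]), one_mul,
      ENNReal.inv_pow]
  rw [← h3]
  push_cast
  exact le_refl _

theorem ae_injective : ∀ᵐ R ∂randomOracle, ∃ n0, ∀ n ≥ n0, ∀ x x' : Vn n,
    FR R x.toList = FR R x'.toList → x = x' := by
  have hs : ∑' n, randomOracle (ColU n) ≠ ⊤ := by
    refine ne_top_of_le_ne_top ?_ (ENNReal.tsum_le_tsum measure_ColU)
    rw [ENNReal.tsum_geometric]
    exact ENNReal.inv_ne_top.2 (tsub_pos_of_lt (ENNReal.inv_lt_one.2 (by norm_num))).ne'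
  filter_upwards [ae_eventually_notMem hs] with R hR
  obtain ⟨n0, hn0⟩ := Filter.eventually_atTop.1 hR
  refine ⟨n0, fun n hn x x' h => ?_⟩
  by_contra hx
  exact hn0 n hn (Set.mem_iUnion.2 ⟨(x, x'), hx, h⟩)

end Pool.Agent.TO42
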