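import Pool.Agent.TO42.OWEv
import Pool.Agent.TO42.OWInj
import Pool.Agent.TO42.NPF

/-!
# Module TO42/PartFour

Part (4): for all `A`, almost every `R` and all `T` there is a one-way function with exponential
security relative to `(A ⊕ R) ⊕ T`.

PROOF. For almost every `R`: `ae_injective` holds with `n0`, and `ae_not_inverted` holds for all
(countably many: `countable_UT`, `MeasureTheory.ae_ball_iff`) `UT` functionals `M`. Let `T` be
arbitrary, `X = join (join A R) (tal T)`, `F = FF X = FR R` (`FF_join`, `FF_UT`,
`UT.isPolyTimeOracle`). Let `M' = M X` (`IsPolyTimeOracle.exists_UT`), `k` from `ae_not_inverted`;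
take `k' = max k n0` (monotonicity in `k` as at the end of the proof of `ae_not_inverted`). For
`n ≥ k'`: if `F (M' (a, F x)) = F x` for `x : Vn n`, then with `z = M' (a, F x)`,
`3 * z.length = 3 * n` (`FR_length`), so `z` is a vector of length `n` and `z = x` by injectivity. So
the inverted `x` are those with `M' (a, FR R x) = x`; `Nat.card_eq_fintype_card`,
`Fintype.card_subtype`.
-/

set_option autoImplicit false

namespace Pool.Agent.TO42

open Pool.Agent.PT Pool.Agent.TMB67 Pool.Agent.POpt67 Pool.Agent.POpt70 Pool.Agent.ROr14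
open Pool.Agent.TFR21 MeasureTheory

theorem part_four (A : List Bool → Bool) : ∀ᵐ R ∂randomOracle, ∀ T : ℕ → Bool,
    ∃ F : List Bool → List Bool, IsOneWay (join (join A R) (tal T)) F := by
  classical
  have hall : ∀ᵐ R ∂randomOracle, ∀ M ∈ {F : (List Bool → Bool) → List Bool × List Bool →
      List Bool | UT F}, ∃ k, ∀ n ≥ k, ∀ (T : ℕ → Bool) (a : List Bool), a.length ^ k ≤ 2 ^ n →
      (Finset.univ.filter fun x : Vn n =>
        M (join (join A R) (tal T)) (a, FR R x.toList) = x.toList).card ^ k * 2 ^ n ≤
          2 ^ (k * n) := by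
    refine (MeasureTheory.ae_ball_iff countable_UT).2 fun M hM => ?_
    filter_upwards [ae_not_inverted A hM] with R hR
    obtain ⟨k, hk⟩ := hR
    refine ⟨k, fun n hn T a ha => ?_⟩
    have h := hk n hn T a ha
    convert h using 4
  filter_upwards [hall, ae_injective] with R hR hinj T
  obtain ⟨n0, hn0⟩ := hinj
  have hFF : FF (join (join A R) (tal T)) = FR R := funext fun x => FF_join A R (tal T) x
  refine ⟨FR R, hFF ▸ FF_UT.isPolyTimeOracle _, fun M hM => ?_⟩
  obtain ⟨M', hM', rfl⟩ := hM.exists_UT
  obtain ⟨k, hk⟩ := hR M' hM'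
  refine ⟨max k n0, fun n hn a ha => ?_⟩
  have hkn : k ≤ n := le_trans (le_max_left _ _) hn
  have hnn : n0 ≤ n := le_trans (le_max_right _ _) hn
  have ha' : a.length ^ k ≤ 2 ^ n := by
    rcases Nat.eq_zero_or_pos a.length with h0 | h0
    · rw [h0]
      exact le_trans (pow_le_one₀ (le_refl _) zero_le_one) Nat.one_le_two_pow
    · exact le_trans (Nat.pow_le_pow_right h0 (le_max_left _ _)) ha
  have h1 := hk n hkn T a ha'
  have hcard : Nat.card {x : List.Vector Bool n //
      FR R (M' (join (join A R) (tal T)) (a, FR R x.toList)) = FR R x.toList} ≤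
      (Finset.univ.filter fun x : Vn n =>
        M' (join (join A R) (tal T)) (a, FR R x.toList) = x.toList).card := by
    rw [Nat.card_eq_fintype_card, Fintype.card_subtype]
    refine Finset.card_le_card fun x hx => ?_
    rw [Finset.mem_filter] at hx ⊢
    refine ⟨hx.1, ?_⟩
    have hx2 := hx.2
    set z := M' (join (join A R) (tal T)) (a, FR R x.toList) with hz
    have hl := congrArg List.length hx2
    rw [FR_length, FR_length, List.Vector.toList_length] at hl
    have hzl : z.length = n := by omega
    have h2 := hn0 n hnn ⟨z, hzl⟩ x hx2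
    rw [← h2]
    rfl
  have hc2 : (Finset.univ.filter fun x : Vn n =>
      M' (join (join A R) (tal T)) (a, FR R x.toList) = x.toList).card ≤ 2 ^ n := by
    refine le_trans (Finset.card_le_univ _) ?_
    rw [card_vector, Fintype.card_bool]
  set c := (Finset.univ.filter fun x : Vn n =>
      M' (join (join A R) (tal T)) (a, FR R x.toList) = x.toList).card with hc
  obtain ⟨r, hr⟩ := Nat.exists_eq_add_of_le (le_max_left k n0)
  rw [hr]
  calc _ ≤ c ^ (k + r) * 2 ^ n := Nat.mul_le_mul_right _ (Nat.pow_le_pow_left hcard _)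
    _ = c ^ k * 2 ^ n * c ^ r := by rw [pow_add]; ring
    _ ≤ 2 ^ (k * n) * (2 ^ n) ^ r := Nat.mul_le_mul h1 (Nat.pow_le_pow_left hc2 _)
    _ = 2 ^ ((k + r) * n) := by rw [← pow_mul, ← pow_add]; congr 1; ring

end Pool.Agent.TO42
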