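import Pool.Agent.TO42.Sound
import Pool.Agent.TO42.NPF

/-!
# Module TO42/PartTwo

Part (2) of the theorem.

PROOF. Let `K` be the countable set of all `Λ m`, all `NP` functionals `npf p F` (`UT F`) and all
their complements `fun X x => !npf p F X x`; all members have polynomial use (`npf_polyUse`).
Enumerate it by `Λ' : ℕ → ..` (`Set.Countable.exists_eq_range`, nonempty since `Λ 0 ∈ K`), choose
polynomials `p m` and exponents `c m` with `(p m).eval n + 1 ≤ (n + 2) ^ (c m + 1)`
(`exists_pow_bound (p m + 1)`), `U` from `exists_use UM_UT`, and apply `exists_thin` to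
`Bad Λ' U c` (`bad_congr`). For `L` in one of the three cases, `L = Λ' m X` for some `m`
(`mem_NPOracle_iff`; for the complement: `(fun x => !L x) = npf p F X` so `L = fun x => !npf p F X x`)
and `hasPOptimal_of_records` applies.
-/

set_option autoImplicit false

namespace Pool.Agent.TO42

open Pool.Agent.PT Pool.Agent.TMB67 Pool.Agent.POpt67 Pool.Agent.POpt70 Pool.Agent.ROr14
open N68a2faeb N793a5b8e N487b59b3

theorem part_two (A : List Bool → Bool) (Λ : ℕ → (List Bool → Bool) → DecisionProblem)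
    (hΛ : ∀ m, PolyUse (Λ m)) (β : ℕ → ℕ) (hβ : ∀ k, ∃ n, ∀ i, n ≤ i → k ≤ β i) :
    ∃ T : ℕ → Bool, IsThin β T ∧ ∀ L : DecisionProblem,
      (L ∈ NPOracle (join A (tal T)) ∨ (fun x => !L x) ∈ NPOracle (join A (tal T)) ∨
        ∃ m, L = Λ m (join A (tal T))) →
      (∃ y, L y = true) → HasPOptimal (join A (tal T)) L := by
  have hcount : (Set.range Λ ∪ ({Λ' : (List Bool → Bool) → DecisionProblem |
      ∃ (p : Polynomial ℕ) (F : (List Bool → Bool) → List Bool × List Bool → Bool),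
        UT F ∧ Λ' = npf p F} ∪ (fun (Λ' : (List Bool → Bool) → DecisionProblem) =>
          (fun (X : List Bool → Bool) (x : List Bool) => !Λ' X x :
            (List Bool → Bool) → DecisionProblem)) ''
        {Λ' : (List Bool → Bool) → DecisionProblem |
      ∃ (p : Polynomial ℕ) (F : (List Bool → Bool) → List Bool × List Bool → Bool),
        UT F ∧ Λ' = npf p F})).Countable :=
    (Set.countable_range Λ).union (countable_npf.union (countable_npf.image _))
  obtain ⟨Λ', hΛ'⟩ := hcount.exists_eq_range ⟨Λ 0, Or.inl ⟨0, rfl⟩⟩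
  have huse : ∀ m, PolyUse (Λ' m) := by
    intro m
    have hm : Λ' m ∈ Set.range Λ' := ⟨m, rfl⟩
    rw [← hΛ'] at hm
    rcases hm with ⟨k, hk⟩ | ⟨p, F, hF, hk⟩ | ⟨Λ'', ⟨p, F, hF, hk'⟩, hk⟩
    · rw [← hk]
      exact hΛ k
    · rw [hk]
      exact npf_polyUse p hF
    · rw [← hk, hk']
      obtain ⟨q, hq⟩ := npf_polyUse p hF
      exact ⟨q, fun X Y x h => congrArg (fun b => !b) (hq X Y x h)⟩
  choose p hp using huse
  have hpow : ∀ m, ∃ c : ℕ, ∀ n, (p m).eval n + 1 ≤ (n + 2) ^ (c + 1) := by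
    intro m
    obtain ⟨a, ha⟩ := exists_pow_bound (p m + 1)
    exact ⟨a, fun n => by simpa using ha n⟩
  choose c hc using hpow
  obtain ⟨U, hU⟩ := exists_use UM_UT
  obtain ⟨T, hthin, hrec⟩ := exists_thin A β hβ (Bad Λ' U c)
    fun i l X Y h => bad_congr hU hp hc i l X Y h
  refine ⟨T, hthin, fun L hL hne => ?_⟩
  have hmain : ∃ m, L = Λ' m (join A (tal T)) := by
    have hrange : ∀ Λ'' : (List Bool → Bool) → DecisionProblem, Λ'' ∈ Set.range Λ' →
        L = Λ'' (join A (tal T)) → ∃ m, L = Λ' m (join A (tal T)) := by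
      rintro Λ'' ⟨m, rfl⟩ h
      exact ⟨m, h⟩
    rcases hL with hL | hL | ⟨m, hm⟩
    · obtain ⟨q, F, hF, hq⟩ := mem_NPOracle_iff.1 hL
      refine hrange (npf q F) ?_ hq
      rw [← hΛ']
      exact Or.inr (Or.inl ⟨q, F, hF, rfl⟩)
    · obtain ⟨q, F, hF, hq⟩ := mem_NPOracle_iff.1 hL
      refine hrange (fun X x => !npf q F X x) ?_ ?_
      · rw [← hΛ']
        exact Or.inr (Or.inr ⟨npf q F, ⟨q, F, hF, rfl⟩, rfl⟩)
      · funext x
        have := congrFun hq x
        rw [← this, Bool.not_not]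
    · refine hrange (Λ m) ?_ hm
      rw [← hΛ']
      exact Or.inl ⟨m, rfl⟩
  obtain ⟨m, hm⟩ := hmain
  rw [hm] at hne ⊢
  exact hasPOptimal_of_records hrec m hne

end Pool.Agent.TO42
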