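import Pool.Agent.TO42.PUp
import Pool.Agent.TO42.PDown
import Pool.Agent.TO42.PartTwo
import Pool.Agent.TO42.GenUp
import Pool.Agent.TO42.GenDown
import Pool.Agent.TO42.Coll
import Pool.Agent.TO42.Forc
import Pool.Agent.TO42.PartFour

/-!
# Module TO42/Main

Assembly.
-/

set_option autoImplicit false

namespace Pool.Agent.TO42

open Pool.Agent.PT Pool.Agent.TMB67 Pool.Agent.POpt67 Pool.Agent.POpt70 Pool.Agent.ROr14
open N68a2faeb N793a5b8e N487b59b3

theorem part_one (A : List Bool → Bool) (T : ℕ → Bool) :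
    NPOracle (join A (tal T)) ⊆ POracle (join A (tal T)) ↔ NPOracle A ⊆ POracle A :=
  ⟨NP_subset_down, fun h => NP_subset_up h T⟩

theorem part_three (A : List Bool → Bool) :
    (∀ᶠ T in residual (ℕ → Bool), (QOne (join A (tal T)) ↔ QOne A)) ∧
      ((∃ T, QOne (join A (tal T))) ↔ ∃ B ∈ PiTwoOracle A, Tally B ∧ B ∉ POracle A) := by
  refine ⟨?_, fun ⟨T, hT⟩ => ?_, fun ⟨B, hB, hB1, hB2⟩ => ?_⟩
  · by_cases hA : QOne A
    · filter_upwards [generic_down A] with T hT
      refine iff_of_true ?_ hA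
      by_contra hcon
      exact (not_QOne_iff A).2 (hT ((not_QOne_iff _).1 hcon)) hA
    · filter_upwards [generic_up A ((not_QOne_iff A).1 hA)] with T hT
      exact iff_of_false ((not_QOne_iff _).2 hT) hA
  · by_contra hcon
    refine (not_QOne_iff _).2 (fun L hL hne => optimal_of_collapse (fun B hB hB1 => ?_) T hL hne) hT
    by_contra hB2
    exact hcon ⟨B, hB, hB1, hB2⟩
  · exact exists_QOne fun h => hB2 (h B hB hB1)

end Pool.Agent.TO42
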