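import Pool.Agent.TO42.OWDef

/-!
# Module TO42/OWMeas

From counting functions to probabilities.

PROOF. `frac_eq`: `2 ^ (Dn n).card = Fintype.card (Vn n → Vn (3 * n))` (`Dn_card`,
`Fintype.card_fun`, `card_vector`), and `B ↦ f_B`, `(f_B x).get i = decide (cq x i ∈ B)` is a
bijection of `(Dn n).powerset` with the functions such that `overlay (Dn n) B R = ins n f_B R`
(`ins_cq`, `ins_other`, `mem_Dn`). `measure_le_of_count`: `measure_inter_eq` of TFR21/Resample.lean
with `G = univ`, `T = ∅` (`Dep ∅ univ`) gives `randomOracle E = ∫⁻ R, ofReal (frac (Dn n) E R)`, and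
`frac (Dn n) E R ≤ 1 / K`, probability measure: `randomOracle E ≤ ofReal (1 / K)`.
-/

set_option autoImplicit false

namespace Pool.Agent.TO42

open Pool.Agent.PT Pool.Agent.TMB67 Pool.Agent.POpt67 Pool.Agent.POpt70 Pool.Agent.ROr14
open Pool.Agent.TFR21 MeasureTheory

/-- The function with the values given by `B`. -/
def toF (n : ℕ) (B : Finset (List Bool)) (x : Vn n) : Vn (3 * n) :=
  List.Vector.ofFn fun i => decide (cq x.toList i.val ∈ B)

theorem overlay_eq (n : ℕ) (B : Finset (List Bool)) (R : List Bool → Bool) :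
    overlay (Dn n) B R = ins n (toF n B) R := by
  funext w
  by_cases hw : w ∈ Dn n
  · obtain ⟨x, i, rfl⟩ := mem_Dn.1 hw
    rw [ins_cq, toF, List.Vector.get_ofFn, overlay, if_pos hw]
  · rw [ins_other n _ R hw, overlay, if_neg hw]

theorem card_fun (n : ℕ) : Fintype.card (Vn n → Vn (3 * n)) = 2 ^ (Dn n).card := by
  rw [Dn_card, Fintype.card_fun, card_vector, card_vector, Fintype.card_bool, ← pow_mul,
    Nat.mul_comm]

open Classical in
theorem count_eq (n : ℕ) (E : Set (List Bool → Bool)) (R : List Bool → Bool) :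
    ((Dn n).powerset.filter fun B => overlay (Dn n) B R ∈ E).card =
      (Finset.univ.filter fun f : Vn n → Vn (3 * n) => ins n f R ∈ E).card := by
  refine Finset.card_nbij' (toF n) (fun f => (Dn n).filter fun w => ins n f R w = true) ?_ ?_ ?_ ?_
  · intro B hB
    rw [Finset.mem_coe, Finset.mem_filter] at hB
    rw [Finset.mem_coe, Finset.mem_filter, ← overlay_eq]
    exact ⟨Finset.mem_univ _, hB.2⟩
  · intro f hf
    rw [Finset.mem_coe, Finset.mem_filter] at hf
    rw [Finset.mem_coe, Finset.mem_filter, Finset.mem_powerset]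
    refine ⟨Finset.filter_subset _ _, ?_⟩
    have h : overlay (Dn n) ((Dn n).filter fun w => ins n f R w = true) R = ins n f R := by
      funext w
      by_cases hw : w ∈ Dn n
      · simp [overlay, hw]
      · rw [ins_other n _ R hw, overlay, if_neg hw]
    rw [h]
    exact hf.2
  · intro B hB
    rw [Finset.mem_coe, Finset.mem_filter, Finset.mem_powerset] at hB
    beta_reduce
    rw [← overlay_eq]
    ext w
    rw [Finset.mem_filter]
    constructor
    · rintro ⟨h1, h2⟩
      rw [overlay, if_pos h1] at h2
      exact of_decide_eq_true h2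
    · intro h
      refine ⟨hB.1 h, ?_⟩
      rw [overlay, if_pos (hB.1 h)]
      exact decide_eq_true h
  · intro f _
    funext x
    ext i
    beta_reduce
    rw [toF, List.Vector.get_ofFn]
    have h : cq x.toList i.val ∈ Dn n := mem_Dn.2 ⟨x, i, rfl⟩
    simp [Finset.mem_filter, ins_cq, h]

open Classical in
theorem frac_eq (n : ℕ) (E : Set (List Bool → Bool)) (R : List Bool → Bool) :
    frac (Dn n) E R = ((Finset.univ.filter fun f : Vn n → Vn (3 * n) => ins n f R ∈ E).card : ℝ) /
      Fintype.card (Vn n → Vn (3 * n)) := by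
  rw [frac, count_eq, card_fun]
  push_cast
  rfl

open Classical in
/-- If for every `R` at most the `K`-th part of the functions `f` is such that `R` with `f`
inserted is in `E`, then `E` has probability at most `1 / K`. -/
theorem measure_le_of_count {S : Finset (List Bool)} {E : Set (List Bool → Bool)} (hE : Dep S E)
    (n K : ℕ) (hK : 0 < K)
    (h : ∀ R, (Finset.univ.filter fun f : Vn n → Vn (3 * n) => ins n f R ∈ E).card * K ≤
      Fintype.card (Vn n → Vn (3 * n))) : randomOracle E ≤ (K : ENNReal)⁻¹ := by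
  have h1 : randomOracle E = ∫⁻ R in Set.univ, ENNReal.ofReal (frac (Dn n) E R) ∂randomOracle := by
    have := measure_inter_eq (T := ∅) (w := Dn n) (G := Set.univ)
      (fun _ _ _ _ => Set.mem_univ _) hE (Finset.disjoint_empty_left _)
    rwa [Set.univ_inter] at this
  have hK' : (0 : ℝ) < K := by exact_mod_cast hK
  have h2 : ∀ R, ENNReal.ofReal (frac (Dn n) E R) ≤ (K : ENNReal)⁻¹ := by
    intro R
    have h3 : frac (Dn n) E R ≤ (K : ℝ)⁻¹ := by
      have hc : (0 : ℝ) < Fintype.card (Vn n → Vn (3 * n)) := by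
        rw [card_fun]
        positivity
      rw [frac_eq, div_le_iff₀ hc, inv_mul_eq_div, le_div_iff₀ hK']
      exact_mod_cast h R
    refine (ENNReal.ofReal_le_ofReal h3).trans (le_of_eq ?_)
    rw [ENNReal.ofReal_inv_of_pos hK', ENNReal.ofReal_natCast]
  rw [h1, Measure.restrict_univ]
  refine (lintegral_mono h2).trans ?_
  rw [lintegral_const, measure_univ, mul_one]

end Pool.Agent.TO42
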