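import Mathlib

/-!
# Module TO42/OWNum

The numerical estimate for the encoding argument.

PROOF. If `g > N` then `N.choose g = 0`. Otherwise `N.choose g ≤ N ^ g / g!`,
`W.choose g ≤ W ^ g / g!` (`Nat.choose_le_pow_div`), so the left side is at most
`(4 N) ^ g W ^ g W ^ (N - g) / (g!) ^ 2 = W ^ N (4 N) ^ g / (g!) ^ 2` and it is enough that
`(4 N) ^ g ≤ (g!) ^ 2`. From `g ^ g / g! ≤ exp g < 3 ^ g` (`Real.pow_div_factorial_le_exp`,
`Real.exp_one_lt_d9`; for `g = 0` trivial) `g ^ g ≤ 3 ^ g g!`, so `(g ^ 2) ^ g ≤ 9 ^ g (g!) ^ 2` and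
`(36 N) ^ g ≤ (g ^ 2) ^ g` give `9 ^ g (4 N) ^ g ≤ 9 ^ g (g!) ^ 2`.
-/

set_option autoImplicit false

namespace Pool.Agent.TO42

theorem choose_bound (N W g : ℕ) (h : 36 * N ≤ g ^ 2) :
    N.choose g * W.choose g * W ^ (N - g) * 4 ^ g ≤ W ^ N := by
  rcases Nat.lt_or_ge N g with hN | hN
  · rw [Nat.choose_eq_zero_of_lt hN]; simp
  have hfac : (0 : ℝ) < (g.factorial : ℝ) := by exact_mod_cast g.factorial_pos
  -- g ^ g ≤ 3 ^ g * g!
  have h1 : (g : ℝ) ^ g ≤ 3 ^ g * (g.factorial : ℝ) := by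
    have h2 := Real.pow_div_factorial_le_exp (x := (g : ℝ)) (Nat.cast_nonneg g) g
    have h3 : Real.exp (g : ℝ) ≤ 3 ^ g := by
      have : Real.exp (g : ℝ) = (Real.exp 1) ^ g := by
        rw [← Real.exp_nat_mul]; simp
      rw [this]
      apply pow_le_pow_left₀ (Real.exp_pos 1).le
      have := Real.exp_one_lt_d9
      linarith
    rw [div_le_iff₀ hfac] at h2
    exact h2.trans (by gcongr)
  have h4 : (4 * (N : ℝ)) ^ g ≤ (g.factorial : ℝ) ^ 2 := by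
    have h5 : (36 * (N : ℝ)) ^ g ≤ ((g : ℝ) ^ 2) ^ g := by
      apply pow_le_pow_left₀ (by positivity)
      exact_mod_cast h
    have h6 : ((g : ℝ) ^ 2) ^ g ≤ 9 ^ g * (g.factorial : ℝ) ^ 2 := by
      calc ((g : ℝ) ^ 2) ^ g = ((g : ℝ) ^ g) ^ 2 := by rw [← pow_mul, ← pow_mul, mul_comm]
        _ ≤ (3 ^ g * (g.factorial : ℝ)) ^ 2 := by gcongr
        _ = 9 ^ g * (g.factorial : ℝ) ^ 2 := by
            rw [mul_pow, ← pow_mul, mul_comm g 2, pow_mul]; norm_num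
    have h7 : (36 * (N : ℝ)) ^ g = 9 ^ g * (4 * (N : ℝ)) ^ g := by
      rw [← mul_pow]; congr 1; ring
    have h8 : (9 : ℝ) ^ g * (4 * (N : ℝ)) ^ g ≤ 9 ^ g * (g.factorial : ℝ) ^ 2 := by
      rw [← h7]; exact h5.trans h6
    exact le_of_mul_le_mul_left h8 (by positivity)
  have h9 : (N.choose g : ℝ) ≤ (N : ℝ) ^ g / (g.factorial : ℝ) := by
    exact_mod_cast Nat.choose_le_pow_div (α := ℝ) g N
  have h10 : (W.choose g : ℝ) ≤ (W : ℝ) ^ g / (g.factorial : ℝ) := by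
    exact_mod_cast Nat.choose_le_pow_div (α := ℝ) g W
  have h11 : (N.choose g : ℝ) * (W.choose g : ℝ) * (W : ℝ) ^ (N - g) * 4 ^ g ≤ (W : ℝ) ^ N := by
    calc (N.choose g : ℝ) * (W.choose g : ℝ) * (W : ℝ) ^ (N - g) * 4 ^ g
        ≤ ((N : ℝ) ^ g / (g.factorial : ℝ)) * ((W : ℝ) ^ g / (g.factorial : ℝ)) *
            (W : ℝ) ^ (N - g) * 4 ^ g := by gcongr
      _ = (W : ℝ) ^ N * ((4 * (N : ℝ)) ^ g / (g.factorial : ℝ) ^ 2) := by
          have : (W : ℝ) ^ N = (W : ℝ) ^ g * (W : ℝ) ^ (N - g) := by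
            rw [← pow_add]; congr 1; omega
          rw [this, mul_pow]; field_simp
      _ ≤ (W : ℝ) ^ N * 1 := by
          gcongr
          rw [div_le_one (by positivity)]
          exact h4
      _ = (W : ℝ) ^ N := mul_one _
  exact_mod_cast h11

end Pool.Agent.TO42
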