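import Pool.Agent.TO42.OWCount
import Pool.Agent.TO42.OWNum
import Pool.Agent.TO42.OWMeas

/-!
# Module TO42/OWAlg

A fixed algorithm inverts `FR R` at many points only with tiny probability.

`Ev A M T a n s g` is the event that `M` with oracle `(A ⊕ R) ⊕ T` and advice `a` finds
`x` itself from `FR R x` for at least `(2 s + 1) g` strings `x` of length `n`.

PROOF. Let `⟨p, q, g₀, hq, hg, hM⟩ := hM`. For `y : Vn (3 n)` and an oracle `R` the run asks
`m = P (a, n) := p.eval (size bound)` questions, where the size bound of `(a, y)` is
`4 * a.length + 12 * n + 3`; `hsM` says `m + 1 ≤ s` for this polynomial: it is produced by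
`exists_count`: the polynomial `p` is returned to the user. For fixed `R` put
`O f y := M (join (join A (ins n f R)) (tal T)) (a, y)` and `Q f y` := the set of `x : Vn n` such
that one of the `m` questions is `false :: true :: cq x i` for some `i < 3 n`; each question is in
the block of at most one `x` (`cq_inj`), so `(Q f y).card ≤ m ≤ s`. `hloc`: if `f` and `f'` agree on
`Q f y` then all answers are equal (induction on the number of the question), so the values
are equal. `card_inverted_le` with `Z = Vn n`, `W = Vn (3 n)`, `Z' = List Bool`,
`ι = List.Vector.toList`, `FR_ins`: the number of `f` with `ins n f R ∈ Ev` is at most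
`C(2^n, g) C(2^(3n), g) (2^(3n))^(2^n - g)`; by `choose_bound` times `4 ^ g` this is
`≤ (2^(3n))^(2^n)`. `Ev` depends on finitely many coordinates: on all strings of length
`≤ U.eval (4 * a.length + 12 * n + 3) + 4 * n + 2` (`exists_use` for `M`; `FR`). Then
`measure_le_of_count` with `K = 4 ^ g`. Here `U` is any polynomial; only the existence of a finite
set `S` with `Dep S Ev` is needed.
-/

set_option autoImplicit false

namespace Pool.Agent.TO42

open Pool.Agent.PT Pool.Agent.TMB67 Pool.Agent.POpt67 Pool.Agent.POpt70 Pool.Agent.ROr14
open Pool.Agent.TFR21 MeasureTheory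

open Classical in
/-- The algorithm `M` inverts at many points. -/
def Ev (A : List Bool → Bool) (M : (List Bool → Bool) → List Bool × List Bool → List Bool)
    (T : ℕ → Bool) (a : List Bool) (n s g : ℕ) : Set (List Bool → Bool) :=
  {R | (2 * s + 1) * g ≤ (Finset.univ.filter fun x : Vn n =>
    M (join (join A R) (tal T)) (a, FR R x.toList) = x.toList).card}

theorem dep_Ev {M : (List Bool → Bool) → List Bool × List Bool → List Bool}
    (hM : UT M) (A : List Bool → Bool) (T : ℕ → Bool) (a : List Bool) (n s g : ℕ) :
    ∃ S : Finset (List Bool), Dep S (Ev A M T a n s g) := by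
  obtain ⟨U, hU⟩ := exists_use hM
  refine ⟨strs (U.eval (4 * a.length + 12 * n + 3) + 4 * n + 2), fun R R' hR h => ?_⟩
  have hFR : ∀ x : Vn n, FR R x.toList = FR R' x.toList := by
    intro x
    unfold FR
    refine List.map_congr_left fun i hi => hR _ ?_
    have h1 := List.mem_range.1 hi
    rw [List.Vector.toList_length] at h1
    rw [mem_strs, cq_length, List.Vector.toList_length]
    omega
  have hval : ∀ x : Vn n, M (join (join A R) (tal T)) (a, FR R x.toList) =
      M (join (join A R') (tal T)) (a, FR R' x.toList) := by
    intro x
    rw [← hFR x]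
    refine hU _ _ _ fun w hw => ?_
    match w with
    | [] => rfl
    | true :: z => rfl
    | false :: [] => rfl
    | false :: false :: z => rfl
    | false :: true :: z =>
      change R z = R' z
      refine hR z ?_
      rw [mem_strs]
      have h1 : sz (a, FR R x.toList) ≤ 4 * a.length + 12 * n + 3 := by
        have h2 := sz_listBool a
        have h3 := sz_listBool (FR R x.toList)
        rw [FR_length, List.Vector.toList_length] at h3
        rw [sz_prod]
        simp only
        omega
      have h2 := eval_mono U h1
      simp only [List.length_cons] at hw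
      omega
  unfold Ev at h ⊢
  simp only [Set.mem_ofPred_eq] at h ⊢
  refine h.trans (le_of_eq ?_)
  congr 1
  refine Finset.filter_congr fun x _ => ?_
  rw [hval x]

open Classical in
/-- The point whose block contains the coordinate asked by the question `w`. -/
noncomputable def blks (n : ℕ) (w : List Bool) : Finset (Vn n) :=
  Finset.univ.filter fun x => ∃ i : Fin (3 * n), w = false :: true :: cq x.toList i.val

theorem blks_card (n : ℕ) (w : List Bool) : (blks n w).card ≤ 1 := by
  rw [Finset.card_le_one]
  intro x hx x' hx'
  simp only [blks, Finset.mem_filter, Finset.mem_univ, true_and] at hx hx'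
  obtain ⟨i, hi⟩ := hx
  obtain ⟨i', hi'⟩ := hx'
  rw [hi] at hi'
  simp only [List.cons.injEq, true_and] at hi'
  exact List.Vector.toList_injective (cq_inj hi').1

theorem exists_measure_Ev {M : (List Bool → Bool) → List Bool × List Bool → List Bool}
    (hM : UT M) : ∃ p : Polynomial ℕ, ∀ (A : List Bool → Bool) (T : ℕ → Bool) (a : List Bool)
      (n s g : ℕ), p.eval (4 * a.length + 12 * n + 3) ≤ s → 36 * 2 ^ n ≤ g ^ 2 →
        randomOracle (Ev A M T a n s g) ≤ ((4 ^ g : ℕ) : ENNReal)⁻¹ := by
  classical
  have hM' := hM
  obtain ⟨p, q, g0, hq, hg0, hF⟩ := hM'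
  refine ⟨p, fun A T a n s g hs hg => ?_⟩
  obtain ⟨S, hS⟩ := dep_Ev hM A T a n s g
  refine measure_le_of_count hS n (4 ^ g) (by positivity) fun R => ?_
  set m := p.eval (4 * a.length + 12 * n + 3) with hm
  set XF : (Vn n → Vn (3 * n)) → List Bool → Bool :=
    fun f => join (join A (ins n f R)) (tal T) with hXF
  set O : (Vn n → Vn (3 * n)) → Vn (3 * n) → List Bool := fun f y => M (XF f) (a, y.toList) with hO
  set Q : (Vn n → Vn (3 * n)) → Vn (3 * n) → Finset (Vn n) := fun f y =>
    (Finset.range m).biUnion fun j => blks n (q ((a, y.toList), answers (XF f) q (a, y.toList) j))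
    with hQ
  have hOeq : ∀ f y, O f y = g0 ((a, y.toList), answers (XF f) q (a, y.toList) m) := by
    intro f y
    refine hF _ _ m (eval_mono p ?_)
    have h2 := sz_listBool a
    have h3 := sz_listBool y.toList
    rw [List.Vector.toList_length] at h3
    rw [sz_prod]
    simp only
    omega
  have hQc : ∀ f y, (Q f y).card ≤ s := by
    intro f y
    refine (Finset.card_biUnion_le).trans ((Finset.sum_le_sum fun j _ => blks_card n _).trans ?_)
    simpa using hs
  have hloc : ∀ f f' y, (∀ z ∈ Q f y, f z = f' z) → O f' y = O f y := by
    intro f f' y h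
    have key : ∀ j ≤ m, answers (XF f') q (a, y.toList) j = answers (XF f) q (a, y.toList) j := by
      intro j
      induction j with
      | zero => intro _; rfl
      | succ j ih =>
        intro hj
        have h1 := ih (by omega)
        rw [answers, answers, h1]
        congr 2
        have h2 : ∀ z ∈ blks n (q ((a, y.toList), answers (XF f) q (a, y.toList) j)), f z = f' z := by
          intro z hz
          exact h z (Finset.mem_biUnion.2 ⟨j, Finset.mem_range.2 (by omega), hz⟩)
        generalize q ((a, y.toList), answers (XF f) q (a, y.toList) j) = w at h2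
        match w, h2 with
        | [], _ => rfl
        | true :: z, _ => rfl
        | false :: [], _ => rfl
        | false :: false :: z, _ => rfl
        | false :: true :: z, h2 =>
          change ins n f' R z = ins n f R z
          by_cases hz : z ∈ Dn n
          · obtain ⟨x, i, rfl⟩ := mem_Dn.1 hz
            rw [ins_cq, ins_cq, h2 x]
            simp only [blks, Finset.mem_filter, Finset.mem_univ, true_and]
            exact ⟨i, rfl⟩
          · rw [ins_other n f' R hz, ins_other n f R hz]
    rw [hOeq, hOeq, key m le_rfl]
  have hcount := card_inverted_le (Z := Vn n) (W := Vn (3 * n)) (fun x => x.toList)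
    List.Vector.toList_injective O Q s g hQc hloc
  have hEv : (Finset.univ.filter fun f : Vn n → Vn (3 * n) => ins n f R ∈ Ev A M T a n s g) =
      Finset.univ.filter fun f : Vn n → Vn (3 * n) => (2 * s + 1) * g ≤
        (Finset.univ.filter fun x => O f (f x) = x.toList).card := by
    refine Finset.filter_congr fun f _ => ?_
    unfold Ev
    simp only [Set.mem_ofPred_eq, FR_ins, hO, hXF]
  rw [hEv]
  refine le_trans (le_of_eq ?_) ((Nat.mul_le_mul_right (4 ^ g) hcount).trans ?_)
  · congr!
  have h1 : Fintype.card (Vn n → Vn (3 * n)) = Fintype.card (Vn (3 * n)) ^ Fintype.card (Vn n) :=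
    Fintype.card_fun
  rw [h1]
  refine choose_bound _ _ _ ?_
  rw [card_vector, Fintype.card_bool]
  exact hg

end Pool.Agent.TO42
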