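import Pool.Agent.TO42.OWInd

/-!
# Module TO42/OWCount

Few functions are inverted at many points (encoding argument).

PROOF. Let `Inv f = {x | O f (f x) = ι x}`. `f` is injective on `Inv f` (`f x = f x'` implies
`ι x = O f (f x) = O f (f x') = ι x'`). For `f` in the set on the left, `exists_indep` applied to
`I = Inv f` and `x ↦ Q f (f x)` gives `G ⊆ Inv f`, `|G| = g`, with `x' ∉ Q f (f x)` for
`x ≠ x' ∈ G`. Choose such a `G = G f` (choice) and a default `w0 : W`. Code of `f`:
`(G f, (G f).image f, fun z => if z ∈ G f then w0 else f z)`; it lies in the set of triples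
`(G, Y, h)` with `|G| = g`, `|Y| = g`, `h z = w0` for `z ∈ G`, whose number is
`C(|Z|, g) * C(|W|, g) * |W| ^ (|Z| - g)` (`Finset.card_powersetCard`, `Finset.card_sigma`,
functions with prescribed values on `G`: `Fintype.piFinset` with a singleton on `G`). The code is
injective: let `f`, `f'` have the same code. Let `x ∈ G`, `y = f x ∈ Y = f'(G)`, so `y = f' x'`,
`x' ∈ G`. Let `f''` be `f` with the values at `x` and `x'` replaced by `y`. `f''` agrees with `f` on
`Q f y`: outside `G` and at `x` clear (for `x` since `f x = y`); other points of `G` are not in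
`Q f (f x)`, unless `x' = x`. So `O f'' y = O f y = ι x` by `hloc`. `f''` agrees with `f'` on
`Q f' y` (`y = f' x'`): outside `G` (there `f = f'`) and at `x'`; so `O f'' y = O f' y = ι x'`. Hence
`x = x'` and `f x = f' x`. So `f = f'`. (`hout` is not needed here; it may be ignored.)
If `g > |Z|` the left side is `0`.
-/

set_option autoImplicit false

namespace Pool.Agent.TO42

private theorem ow_exists_G {Z W Z' : Type} [Fintype Z] [DecidableEq Z]
    (ι : Z → Z') (O : (Z → W) → W → Z')
    (Q : (Z → W) → W → Finset Z) (s g : ℕ) (hQ : ∀ f y, (Q f y).card ≤ s)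
    (f : Z → W) (I : Finset Z) (hI : ∀ x ∈ I, O f (f x) = ι x)
    (hc : (2 * s + 1) * g ≤ I.card) :
    ∃ G : Finset Z, G.card = g ∧ (∀ x ∈ G, O f (f x) = ι x) ∧
      (∀ z ∈ G, ∀ z' ∈ G, z' ≠ z → z' ∉ Q f (f z)) := by
  obtain ⟨G, hG, hcard, hind⟩ := exists_indep s g I (fun x => Q f (f x))
    (fun z _ => hQ f (f z)) hc
  exact ⟨G, hcard, fun x hx => hI x (hG hx), hind⟩

private theorem ow_decode {Z W Z' : Type} [DecidableEq Z]
    (ι : Z → Z') (hι : Function.Injective ι) (O : (Z → W) → W → Z')
    (Q : (Z → W) → W → Finset Z)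
    (hloc : ∀ f f' y, (∀ z ∈ Q f y, f z = f' z) → O f' y = O f y)
    (f f' : Z → W) (G : Finset Z)
    (h1 : ∀ x ∈ G, O f (f x) = ι x) (h1' : ∀ x ∈ G, O f' (f' x) = ι x)
    (h2 : ∀ z ∈ G, ∀ z' ∈ G, z' ≠ z → z' ∉ Q f (f z))
    (h2' : ∀ z ∈ G, ∀ z' ∈ G, z' ≠ z → z' ∉ Q f' (f' z))
    (h3 : ∀ x ∈ G, ∃ x' ∈ G, f' x' = f x)
    (h4 : ∀ z, z ∉ G → f z = f' z) : f = f' := by
  funext x
  by_cases hx : x ∈ G
  · obtain ⟨x', hx', hxx⟩ := h3 x hx
    set f'' : Z → W := fun z => if z = x ∨ z = x' then f x else f z with hf''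
    have e1 : O f'' (f x) = O f (f x) := by
      apply hloc
      intro z hz
      by_cases hzx : z = x
      · simp [hf'', hzx]
      · by_cases hzx' : z = x'
        · exfalso
          apply h2 x hx x' hx'
          · rw [← hzx']; exact hzx
          · rw [← hzx']; exact hz
        · simp [hf'', hzx, hzx']
    have e2 : O f'' (f x) = O f' (f x) := by
      apply hloc
      intro z hz
      by_cases hzx' : z = x'
      · simp [hf'', hzx', hxx]
      · have hzG : z ∉ G := by
          intro hzG
          apply h2' x' hx' z hzG hzx'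
          rw [hxx]; exact hz
        have hzx : z ≠ x := by
          intro h; exact hzG (h ▸ hx)
        simp [hf'', hzx, hzx', h4 z hzG]
    have e3 : ι x = ι x' := by
      rw [← h1 x hx, ← h1' x' hx', hxx, ← e1, e2]
    have e4 : x = x' := hι e3
    rw [← hxx, ← e4]
  · exact h4 x hx

open Classical in
theorem card_inverted_le {Z W Z' : Type} [Fintype Z] [DecidableEq Z] [Fintype W] [DecidableEq W]
    [Nonempty W] (ι : Z → Z') (hι : Function.Injective ι) (O : (Z → W) → W → Z')
    (Q : (Z → W) → W → Finset Z) (s g : ℕ) (hQ : ∀ f y, (Q f y).card ≤ s)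
    (hloc : ∀ f f' y, (∀ z ∈ Q f y, f z = f' z) → O f' y = O f y) :
    (Finset.univ.filter fun f : Z → W =>
      (2 * s + 1) * g ≤ (Finset.univ.filter fun x => O f (f x) = ι x).card).card ≤
      (Fintype.card Z).choose g * (Fintype.card W).choose g *
        Fintype.card W ^ (Fintype.card Z - g) := by
  obtain ⟨w0⟩ := ‹Nonempty W›
  set L : Finset (Z → W) := Finset.univ.filter fun f : Z → W =>
      (2 * s + 1) * g ≤ (Finset.univ.filter fun x => O f (f x) = ι x).card with hL
  have hex : ∀ f : Z → W, ∃ G : Finset Z, f ∈ L → (G.card = g ∧ (∀ x ∈ G, O f (f x) = ι x) ∧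
      (∀ z ∈ G, ∀ z' ∈ G, z' ≠ z → z' ∉ Q f (f z))) := by
    intro f
    by_cases hf : f ∈ L
    · have hf' := (Finset.mem_filter.mp hf).2
      obtain ⟨G, hG⟩ := ow_exists_G ι O Q s g hQ f _
        (fun x hx => (Finset.mem_filter.mp hx).2) hf'
      exact ⟨G, fun _ => hG⟩
    · exact ⟨∅, fun h => absurd h hf⟩
  choose G hG using hex
  set S : Finset ((_ : Finset Z) × (Finset W × (Z → W))) :=
    (Finset.univ.powersetCard g).sigma (fun G' : Finset Z =>
      ((Finset.univ : Finset W).powersetCard g) ×ˢ
        Fintype.piFinset (fun z : Z => if z ∈ G' then ({w0} : Finset W) else Finset.univ)) with hS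
  have hScard : S.card = (Fintype.card Z).choose g * (Fintype.card W).choose g *
        Fintype.card W ^ (Fintype.card Z - g) := by
    rw [hS, Finset.card_sigma]
    have : ∀ G' ∈ (Finset.univ : Finset Z).powersetCard g,
        (((Finset.univ : Finset W).powersetCard g) ×ˢ
        Fintype.piFinset (fun z : Z => if z ∈ G' then ({w0} : Finset W) else Finset.univ)).card =
        (Fintype.card W).choose g * Fintype.card W ^ (Fintype.card Z - g) := by
      intro G' hG'
      have hc := (Finset.mem_powersetCard.mp hG').2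
      rw [Finset.card_product, Finset.card_powersetCard, Finset.card_univ,
        Fintype.card_piFinset]
      congr 1
      have : ∀ z : Z, (if z ∈ G' then ({w0} : Finset W) else Finset.univ).card =
          if z ∈ G' then 1 else Fintype.card W := by
        intro z; split_ifs
        · simp
        · simp
      simp_rw [this]
      rw [Finset.prod_ite]
      simp only [Finset.prod_const_one, one_mul, Finset.prod_const]
      congr 1
      have h5 : (Finset.univ.filter fun z => z ∉ G') = G'ᶜ := by
        ext z; simp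
      rw [h5, Finset.card_compl, hc]
    rw [Finset.sum_congr rfl this, Finset.sum_const, Finset.card_powersetCard, Finset.card_univ,
      smul_eq_mul, mul_assoc]
  rw [← hScard]
  apply Finset.card_le_card_of_injOn
    (fun f : Z → W => (⟨G f, ((G f).image f, fun z => if z ∈ G f then w0 else f z)⟩ :
      (_ : Finset Z) × (Finset W × (Z → W))))
  · intro f hf
    have hf' : f ∈ L := hf
    obtain ⟨g1, g2, g3⟩ := hG f hf'
    have hinj : Set.InjOn f (G f : Set Z) := by
      intro a ha b hb hab
      apply hι
      rw [← g2 a ha, ← g2 b hb, hab]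
    rw [Finset.mem_coe, hS, Finset.mem_sigma]
    refine ⟨Finset.mem_powersetCard.mpr ⟨Finset.subset_univ _, g1⟩, ?_⟩
    rw [Finset.mem_product]
    refine ⟨Finset.mem_powersetCard.mpr ⟨Finset.subset_univ _, ?_⟩, ?_⟩
    · show ((G f).image f).card = g
      rw [Finset.card_image_of_injOn hinj, g1]
    · rw [Fintype.mem_piFinset]
      intro z
      show (if z ∈ G f then w0 else f z) ∈ _
      by_cases hz : z ∈ G f
      · simp [hz]
      · simp [hz]
  · intro f hf f' hf' heq
    have hf1 : f ∈ L := hf
    have hf1' : f' ∈ L := hf'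
    obtain ⟨g1, g2, g3⟩ := hG f hf1
    obtain ⟨g1', g2', g3'⟩ := hG f' hf1'
    have e1 : G f = G f' := congrArg (fun t => t.1) heq
    have e2 : (G f).image f = (G f').image f' := congrArg (fun t => t.2.1) heq
    have e3 : (fun z => if z ∈ G f then w0 else f z) =
      (fun z => if z ∈ G f' then w0 else f' z) := congrArg (fun t => t.2.2) heq
    rw [← e1] at g2' g3' e2 e3
    apply ow_decode ι hι O Q hloc f f' (G f) g2 g2' g3 g3'
    · intro x hx
      have : f x ∈ (G f).image f := Finset.mem_image_of_mem f hx
      rw [e2] at this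
      obtain ⟨x', hx', hxx⟩ := Finset.mem_image.mp this
      exact ⟨x', hx', hxx⟩
    · intro z hz
      have := congrFun e3 z
      simpa [hz] using this

end Pool.Agent.TO42
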