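import Pool.Agent.TO42.Tal
import Pool.Agent.TFR21.Resample

/-!
# Module TO42/OWDef

The one-way function and its coordinates.

PROOF. `cq_inj`: the last `true` of `x ++ true :: 0^i` determines `x` and `i` (e.g. reverse the lists:
`0^i ++ true :: x.reverse`, induction on `i`; or compare `List.takeWhile (· = false)` of the
reverses). `Dn_card`: `Finset.card_image_of_injOn`, product of `2 ^ n` vectors and `3 n` indices.
`ins_cq`, `ins_other`: from the definition and `cq_inj` (with `Classical.choice` of the witness, or
`List.find?`; the witness is unique). `FR_ins`: `List.ext_getElem`. `FR_length`: `simp [FR]`.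
`FF_join`: unfold `join`. `FF_UT`: `UT.map` over `List.range (3 * x.length)` of `UT.query`
precomposed with `(x, i) ↦ false :: true :: (x ++ true :: replicate i false)`.
-/

set_option autoImplicit false

namespace Pool.Agent.TO42

open Pool.Agent.PT Pool.Agent.TMB67 Pool.Agent.POpt67 Pool.Agent.POpt70 Pool.Agent.ROr14
open N68a2faeb N793a5b8e N487b59b3

/-- The coordinate number `i` of the block of `x`. -/
def cq (x : List Bool) (i : ℕ) : List Bool := x ++ true :: List.replicate i false

/-- The value at `x` of the one-way function, for the random oracle `R`. -/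
def FR (R : List Bool → Bool) (x : List Bool) : List Bool :=
  (List.range (3 * x.length)).map fun i => R (cq x i)

/-- The one-way function, relative to an oracle `(A ⊕ R) ⊕ S`. -/
def FF (X : List Bool → Bool) (x : List Bool) : List Bool :=
  (List.range (3 * x.length)).map fun i => X (false :: true :: cq x i)

/-- Strings of length `n`. -/
abbrev Vn (n : ℕ) : Type := List.Vector Bool n

/-- The coordinates of the blocks of all strings of length `n`. -/
def Dn (n : ℕ) : Finset (List Bool) :=
  (Finset.univ : Finset (Vn n × Fin (3 * n))).image fun z => cq z.1.toList z.2.val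

open Classical in
/-- The oracle `R` with the blocks of the strings of length `n` replaced by the function `f`. -/
noncomputable def ins (n : ℕ) (f : Vn n → Vn (3 * n)) (R : List Bool → Bool) (w : List Bool) :
    Bool :=
  if h : ∃ z : Vn n × Fin (3 * n), cq z.1.toList z.2.val = w then
    (f h.choose.1).get h.choose.2 else R w

theorem rep_inj {x x' : List Bool} : ∀ {i i' : ℕ}, List.replicate i false ++ true :: x =
    List.replicate i' false ++ true :: x' → x = x' ∧ i = i'
  | 0, 0, h => by simpa using h
  | 0, i' + 1, h => by simp [List.replicate_succ] at h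
  | i + 1, 0, h => by simp [List.replicate_succ] at h
  | i + 1, i' + 1, h => by
    simp only [List.replicate_succ, List.cons_append, List.cons.injEq, true_and] at h
    have := rep_inj h
    exact ⟨this.1, by rw [this.2]⟩

theorem cq_inj {x x' : List Bool} {i i' : ℕ} (h : cq x i = cq x' i') : x = x' ∧ i = i' := by
  have h2 := congrArg List.reverse h
  simp only [cq, List.reverse_append, List.reverse_cons, List.reverse_replicate,
    List.append_assoc, List.singleton_append] at h2
  have := rep_inj h2
  exact ⟨List.reverse_injective this.1, this.2⟩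

theorem cq_length (x : List Bool) (i : ℕ) : (cq x i).length = x.length + 1 + i := by
  simp [cq]
  omega

theorem cqn_inj (n : ℕ) :
    Function.Injective (fun z : Vn n × Fin (3 * n) => cq z.1.toList z.2.val) := by
  intro z z' h
  have h2 := cq_inj h
  exact Prod.ext (List.Vector.toList_injective h2.1) (Fin.ext h2.2)

theorem Dn_card (n : ℕ) : (Dn n).card = 2 ^ n * (3 * n) := by
  rw [Dn, Finset.card_image_of_injective _ (cqn_inj n), Finset.card_univ, Fintype.card_prod,
    card_vector, Fintype.card_bool, Fintype.card_fin]

theorem mem_Dn {n : ℕ} {w : List Bool} : w ∈ Dn n ↔ ∃ (x : Vn n) (i : Fin (3 * n)),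
    cq x.toList i.val = w := by
  simp [Dn, Prod.exists]

theorem ins_cq (n : ℕ) (f : Vn n → Vn (3 * n)) (R : List Bool → Bool) (x : Vn n)
    (i : Fin (3 * n)) : ins n f R (cq x.toList i.val) = (f x).get i := by
  have h : ∃ z : Vn n × Fin (3 * n), cq z.1.toList z.2.val = cq x.toList i.val := ⟨(x, i), rfl⟩
  rw [ins, dif_pos h]
  have h2 : h.choose = (x, i) := cqn_inj n h.choose_spec
  rw [h2]

theorem ins_other (n : ℕ) (f : Vn n → Vn (3 * n)) (R : List Bool → Bool) {w : List Bool}
    (h : w ∉ Dn n) : ins n f R w = R w := by
  rw [ins, dif_neg]
  rintro ⟨z, hz⟩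
  exact h (mem_Dn.2 ⟨z.1, z.2, hz⟩)

theorem FR_length (R : List Bool → Bool) (x : List Bool) : (FR R x).length = 3 * x.length := by
  simp [FR]

theorem FR_ins (n : ℕ) (f : Vn n → Vn (3 * n)) (R : List Bool → Bool) (x : Vn n) :
    FR (ins n f R) x.toList = (f x).toList := by
  have hx : x.toList.length = n := x.toList_length
  apply List.ext_getElem
  · rw [FR_length, hx, List.Vector.toList_length]
  · intro j h1 h2
    rw [FR_length, hx] at h1
    simp only [FR, List.getElem_map, List.getElem_range]
    rw [ins_cq n f R x ⟨j, h1⟩, List.Vector.get_eq_get_toList]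
    rfl

theorem FF_join (A R S : List Bool → Bool) (x : List Bool) :
    FF (join (join A R) S) x = FR R x := rfl

theorem FF_UT : UT FF := by
  have hl : PolyTime (fun x : List Bool => List.range (3 * x.length)) :=
    PolyTime.range (PolyTime.natMul (PolyTime.const 3) (PolyTime.length PolyTime.id))
  have hq : PolyTime (fun z : List Bool × ℕ => false :: true :: cq z.1 z.2) := by
    unfold cq
    exact PolyTime.cons (PolyTime.const _) (PolyTime.cons (PolyTime.const _)
      (PolyTime.append PolyTime.fst' (PolyTime.cons (PolyTime.const _)
        (PolyTime.replicate PolyTime.snd' (PolyTime.const _)))))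
  exact (UT.map hl (UT.query.pre hq)).congr fun X x => rfl

end Pool.Agent.TO42
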