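import Pool.Agent.POpt70.Tools

/-!
# Module TO42/OWGrow

Growth estimates.

PROOF. By `exists_pow_bound P` (POpt70/Tools.lean) let `P.eval m ≤ (m + 2) ^ d`, `d ≥ 1`. Let
`u n := Nat.size (12 * n + 5)`; choose `k ≥ 16 * (d + 1)` so large that
`8 * (d + 1) * (u n + 5) * 2 ≤ n` for all `n ≥ k` (`u n ≤ log 2 n + 5`; e.g. from
`12 * n + 5 < 2 ^ m` for `m` a suitable multiple of `log n`, or `Nat.size_le`). Let `n ≥ k`,
`t := n / k`, so `t * k ≤ n < k * (t + 1)`, `16 * (d + 1) * t ≤ n`; put `e := (t + u n + 5) * d`, so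
`8 * (t + u n + 5) * (d + 1) ≤ n` and `8 * e ≤ n`.
`b ^ k ≤ 2 ^ n < (2 ^ (t + 1)) ^ k`, so `b < 2 ^ (t + 1)`. Hence
`4 * b + 12 * n + 5 ≤ 2 ^ (t + 3) + 2 ^ (u n) ≤ 2 ^ (t + u n + 5)` and `s := P.eval (..) ≤ 2 ^ e`,
`2 * s + 1 ≤ 2 ^ (e + 2)`: this is (3). `(2 ^ (n - t - 1)) ^ k * 2 ^ n ≤ (2 ^ (n-t-1)) ^ k * (2 ^ (t+1)) ^ k =
2 ^ (k * n) < c ^ k * 2 ^ n`, so `2 ^ (n - t - 1) < c`, and
`c / (2 * s + 1) ≥ c / 2 ^ (e + 2) ≥ 2 ^ (n - t - e - 3)`. (1): `36 * 2 ^ n ≤ 2 ^ (n + 6) ≤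
2 ^ (2 * (n - t - e - 3))` since `2 t + 2 e + 12 ≤ n`. (2): `2 b + 4 n + 4 ≤ 2 ^ (t + 2) + 2 ^ (u n) ≤
2 ^ (n - t - e - 3)`.
-/

set_option autoImplicit false

namespace Pool.Agent.TO42

open Pool.Agent.POpt70

/-- If `b ^ k ≤ 2 ^ n` and `c ^ k * 2 ^ n > 2 ^ (k * n)`, then `g = c / (2 s + 1)`,
`s = P (4 b + 12 n + 3)`, is large. -/
theorem exists_growth (P : Polynomial ℕ) : ∃ k > 0, ∀ n ≥ k, ∀ b c : ℕ, b ^ k ≤ 2 ^ n →
    2 ^ (k * n) < c ^ k * 2 ^ n →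
      36 * 2 ^ n ≤ (c / (2 * P.eval (4 * b + 12 * n + 3) + 1)) ^ 2 ∧
      2 * b + 4 * n + 4 ≤ c / (2 * P.eval (4 * b + 12 * n + 3) + 1) ∧
      P.eval (4 * b + 12 * n + 3) ≤ 2 ^ n := by
  obtain ⟨a, ha⟩ := exists_pow_bound P
  obtain ⟨d, hd⟩ : ∃ d, d = a + 1 := ⟨_, rfl⟩
  have hP : ∀ m, P.eval m ≤ (m + 2) ^ d := fun m => by rw [hd]; exact ha m
  have hd1 : 1 ≤ d := by omega
  obtain ⟨C, hC⟩ : ∃ C, C = 16 * (d + 1) := ⟨_, rfl⟩
  have hC32 : 32 ≤ C := by omega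
  refine ⟨C * (2 * (100 * C + 5) + 2), by positivity, ?_⟩
  intro n hn b c hb hc
  obtain ⟨k, hk⟩ : ∃ k, k = C * (2 * (100 * C + 5) + 2) := ⟨_, rfl⟩
  rw [← hk] at hn hb hc
  have hkC : C ≤ k := by
    rw [hk]
    exact Nat.le_mul_of_pos_right _ (by omega)
  have hk0 : 0 < k := by omega
  obtain ⟨u, hu⟩ : ∃ u, u = Nat.size (12 * n + 5) := ⟨_, rfl⟩
  have hu1 : 12 * n + 5 < 2 ^ u := by rw [hu]; exact Nat.lt_size_self _
  -- the bound on u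
  have hu2 : C * (u + 5) ≤ n := by
    obtain ⟨q, hq⟩ : ∃ q, q = n / C := ⟨_, rfl⟩
    have hq1 : 2 * (100 * C + 5) + 2 ≤ q := by
      rw [hq, Nat.le_div_iff_mul_le (by omega)]
      calc (2 * (100 * C + 5) + 2) * C = k := by rw [hk]; ring
        _ ≤ n := hn
    have hq2 : n < C * (q + 1) := by
      rw [hq]
      exact Nat.lt_mul_div_succ n (by omega)
    have hq3 : C * q ≤ n := by
      rw [hq]
      exact Nat.mul_div_le n C
    obtain ⟨r, hr⟩ : ∃ r, r = q / 2 := ⟨_, rfl⟩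
    have hr1 : 100 * C + 5 ≤ r := by omega
    have hr2 : q ≤ 2 * r + 1 := by omega
    have hr3 : 2 * r ≤ q := by omega
    have h1 : u ≤ q - 5 := by
      rw [hu, Nat.size_le]
      have h2 : r + 1 ≤ 2 ^ r := Nat.lt_two_pow_self
      have h3 : 100 * C ≤ 2 ^ (r - 5) := by
        have : r - 5 < 2 ^ (r - 5) := Nat.lt_two_pow_self
        omega
      have h4 : 2 ^ r * 2 ^ (r - 5) ≤ 2 ^ (q - 5) := by
        rw [← pow_add]
        exact Nat.pow_le_pow_right (by norm_num) (by omega)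
      have h5 : (r + 1) * (100 * C) ≤ 2 ^ r * 2 ^ (r - 5) := Nat.mul_le_mul h2 h3
      have h6 : 12 * n + 5 < (r + 1) * (100 * C) := by
        have h7 : C * (q + 1) ≤ C * (2 * (r + 1)) := Nat.mul_le_mul_left _ (by omega)
        have h8 : C * (2 * (r + 1)) = 2 * ((r + 1) * C) := by ring
        have h9 : (r + 1) * (100 * C) = 100 * ((r + 1) * C) := by ring
        have h10 : 32 ≤ (r + 1) * C := by
          calc 32 ≤ C := hC32
            _ ≤ (r + 1) * C := Nat.le_mul_of_pos_left _ (by omega)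
        omega
      exact lt_of_lt_of_le h6 (h5.trans h4)
    calc C * (u + 5) ≤ C * q := Nat.mul_le_mul_left _ (by omega)
      _ ≤ n := hq3
  obtain ⟨t, ht⟩ : ∃ t, t = n / k := ⟨_, rfl⟩
  have ht1 : k * t ≤ n := by rw [ht]; exact Nat.mul_div_le n k
  have ht2 : n < k * (t + 1) := by rw [ht]; exact Nat.lt_mul_div_succ n hk0
  have ht3 : C * t ≤ n := (Nat.mul_le_mul_right _ hkC).trans ht1
  obtain ⟨w, hw⟩ : ∃ w, w = t + u + 5 := ⟨_, rfl⟩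
  have hw1 : C * w ≤ 2 * n := by
    have : C * w = C * t + C * (u + 5) := by rw [hw]; ring
    omega
  obtain ⟨e, he⟩ : ∃ e, e = w * d := ⟨_, rfl⟩
  have he1 : 8 * w + 8 * e ≤ n := by
    have : C * w = 2 * (8 * w + 8 * e) := by rw [hC, he]; ring
    omega
  -- b is small
  have hb1 : b < 2 ^ (t + 1) := by
    refine lt_of_pow_lt_pow_left₀ k (by positivity) ?_
    calc b ^ k ≤ 2 ^ n := hb
      _ < 2 ^ (k * (t + 1)) := Nat.pow_lt_pow_right (by norm_num) ht2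
      _ = (2 ^ (t + 1)) ^ k := by rw [← pow_mul, mul_comm]
  have hx : 4 * b + 12 * n + 5 ≤ 2 ^ w := by
    have h1 : 2 ^ (t + 3) ≤ 2 ^ (t + u + 4) := Nat.pow_le_pow_right (by norm_num) (by omega)
    have h2 : 2 ^ u ≤ 2 ^ (t + u + 4) := Nat.pow_le_pow_right (by norm_num) (by omega)
    have h3 : 2 ^ w = 2 * 2 ^ (t + u + 4) := by
      rw [hw, show t + u + 5 = (t + u + 4) + 1 by omega, pow_succ]
      ring
    have h4 : 2 ^ (t + 3) = 4 * 2 ^ (t + 1) := by ring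
    omega
  obtain ⟨s, hs⟩ : ∃ s, s = P.eval (4 * b + 12 * n + 3) := ⟨_, rfl⟩
  have hs1 : s ≤ 2 ^ e := by
    calc s ≤ (4 * b + 12 * n + 3 + 2) ^ d := by rw [hs]; exact hP _
      _ ≤ (2 ^ w) ^ d := Nat.pow_le_pow_left hx d
      _ = 2 ^ e := by rw [he, pow_mul]
  rw [← hs]
  have hs2 : 2 * s + 1 ≤ 2 ^ (e + 2) := by
    have h1 : 2 ^ (e + 2) = 4 * 2 ^ e := by ring
    have h2 : 1 ≤ 2 ^ e := Nat.one_le_two_pow
    omega
  have hc1 : 2 ^ (n - t - 1) < c := by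
    refine lt_of_pow_lt_pow_left₀ k (by positivity) ?_
    refine lt_of_mul_lt_mul_right (a := 2 ^ n) ?_ (by positivity)
    calc (2 ^ (n - t - 1)) ^ k * 2 ^ n ≤ (2 ^ (n - t - 1)) ^ k * (2 ^ (t + 1)) ^ k := by
          refine Nat.mul_le_mul_left _ ?_
          rw [← pow_mul]
          exact Nat.pow_le_pow_right (by norm_num) (by rw [mul_comm]; exact ht2.le)
      _ = 2 ^ (k * n) := by
          rw [← mul_pow, ← pow_add, show n - t - 1 + (t + 1) = n by omega, ← pow_mul, mul_comm]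
      _ < c ^ k * 2 ^ n := hc
  have hg : 2 ^ (n - t - e - 3) ≤ c / (2 * s + 1) := by
    rw [Nat.le_div_iff_mul_le (by omega)]
    calc 2 ^ (n - t - e - 3) * (2 * s + 1) ≤ 2 ^ (n - t - e - 3) * 2 ^ (e + 2) :=
          Nat.mul_le_mul_left _ hs2
      _ = 2 ^ (n - t - 1) := by
          rw [← pow_add]
          exact congrArg (fun x => 2 ^ x) (by omega)
      _ ≤ c := hc1.le
  refine ⟨?_, ?_, ?_⟩
  · calc 36 * 2 ^ n ≤ 2 ^ (n + 6) := by rw [pow_add]; omega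
      _ ≤ 2 ^ ((n - t - e - 3) * 2) := Nat.pow_le_pow_right (by norm_num) (by omega)
      _ = (2 ^ (n - t - e - 3)) ^ 2 := by rw [pow_mul]
      _ ≤ (c / (2 * s + 1)) ^ 2 := Nat.pow_le_pow_left hg 2
  · refine le_trans ?_ hg
    have h1 : 2 ^ (t + 2) ≤ 2 ^ (n - t - e - 4) := Nat.pow_le_pow_right (by norm_num) (by omega)
    have h2 : 2 ^ u ≤ 2 ^ (n - t - e - 4) := Nat.pow_le_pow_right (by norm_num) (by omega)
    have h3 : 2 ^ (n - t - e - 3) = 2 * 2 ^ (n - t - e - 4) := by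
      rw [show n - t - e - 3 = (n - t - e - 4) + 1 by omega, pow_succ]
      ring
    have h4 : 2 ^ (t + 2) = 2 * 2 ^ (t + 1) := by ring
    omega
  · exact hs1.trans (Nat.pow_le_pow_right (by norm_num) (by omega))

end Pool.Agent.TO42
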