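import Pool.Agent.TO42.OWAlg
import Pool.Agent.TO42.OWGrow

/-!
# Module TO42/OWEv

No algorithm inverts `FR R`, for almost every `R`, for all `T`.

PROOF. Let `p` be from `exists_measure_Ev hM`, `U` from `exists_use_tal hM`, `P := p + U + 1`, `k` from
`exists_growth P`. For `b`, `n` let `G b n` be the least `g` with `36 * 2 ^ n ≤ g ^ 2` and
`2 * b + 4 * n + 4 ≤ g` (e.g. `max (Nat.sqrt (36 * 2 ^ n) + 1) (2 * b + 4 * n + 4)` is not the least
but any fixed choice `≤` all admissible `g` is needed: use `Nat.find`), `s b n := P.eval (4 b + 12 n + 3)`.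
For `n ≥ k` let `B n := {R | ∃ T a, a.length ^ k ≤ 2 ^ n ∧ 2 ^ (k * n) < c ^ k * 2 ^ n}` with
`c = #{x : Vn n | M (join (join A R) (tal T)) (a, FR R x) = x}`. If `R ∈ B n` by `T`, `a`, then by
`exists_growth` `g := c / (2 s + 1)` is admissible, so `G ≤ g`, `(2 s + 1) * G ≤ c`, i.e.
`R ∈ Ev A M T a n (s b n) (G b n)`, `b = a.length`. Moreover `T` may be replaced by
`T' = sg (pre T n)`: for `j ≥ n`, `2 ^ j ≥ 2 ^ n ≥ P.eval (..) > U.eval (sz (a, y))`
(`sz (a, y) ≤ 4 a.length + 12 n + 3` for `y.length = 3 n`). So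
`B n ⊆ ⋃ b, ⋃ a : Vn b, ⋃ τ : Vn n, Ev A M (sg τ) a n (s b n) (G b n)`, whose measure is at most
`∑' b, 2 ^ b * 2 ^ n * 4 ^ (-(2 b + 4 n + 4)) ≤ 2 ^ (-n)` (`tsum` over `b` of `2 ^ (-3 b)` is `≤ 2`; only
`b` with `36 * 2 ^ n ≤ ..` matter, all `b` satisfy it with `G b n`). Note that
`exists_measure_Ev` needs `p.eval (..) ≤ s`. Borel–Cantelli (`ae_eventually_notMem`): for almost
every `R` there is `n0` with `R ∉ B n` for all `n ≥ n0` (`n ≥ k`). Finally replace `k` by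
`k' = max k n0`: for `n ≥ k'`, `a.length ^ k' ≤ 2 ^ n` implies `a.length ^ k ≤ 2 ^ n` (also for
length `0`, `k > 0`), and `c ^ k * 2 ^ n ≤ 2 ^ (k n)` with `c ≤ 2 ^ n` implies
`c ^ k' * 2 ^ n ≤ 2 ^ (k' n)`. (Sets need not be shown measurable: outer measure suffices.)
-/

set_option autoImplicit false

namespace Pool.Agent.TO42

open Pool.Agent.PT Pool.Agent.TMB67 Pool.Agent.POpt67 Pool.Agent.POpt70 Pool.Agent.ROr14
open Pool.Agent.TFR21 MeasureTheory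

private theorem OWEv_sz (a : List Bool) (R : List Bool → Bool) (n : ℕ) (x : Vn n) :
    sz (a, FR R x.toList) ≤ 4 * a.length + 12 * n + 3 := by
  have h2 := sz_listBool a
  have h3 := sz_listBool (FR R x.toList)
  rw [FR_length, List.Vector.toList_length] at h3
  rw [sz_prod]
  simp only
  omega

private theorem OWEv_tsum (n : ℕ) (G : ℕ → ℕ) (hG : ∀ b, 2 * b + 4 * n + 4 ≤ G b) :
    ∑' b : ℕ, ∑' _a : Vn b, ∑' _τ : Vn n, ((4 ^ G b : ℕ) : ENNReal)⁻¹ ≤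
      2 * (2⁻¹ : ENNReal) ^ n := by
  have h1 : ∀ b : ℕ, ∑' _a : Vn b, ∑' _τ : Vn n, ((4 ^ G b : ℕ) : ENNReal)⁻¹ ≤
      (2⁻¹ : ENNReal) ^ n * (2⁻¹ : ENNReal) ^ b := by
    intro b
    rw [tsum_fintype, Finset.sum_const, tsum_fintype, Finset.sum_const, Finset.card_univ,
      Finset.card_univ, card_vector, card_vector, Fintype.card_bool, nsmul_eq_mul, nsmul_eq_mul]
    have h2 : ((4 ^ G b : ℕ) : ENNReal)⁻¹ ≤ ((2 ^ b * 2 ^ n * (2 ^ n * 2 ^ b) : ℕ) : ENNReal)⁻¹ := by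
      rw [ENNReal.inv_le_inv]
      have h3 : 2 ^ b * 2 ^ n * (2 ^ n * 2 ^ b) ≤ 4 ^ G b := by
        have h4 : 4 ^ (2 * b + 4 * n + 4) ≤ 4 ^ G b := Nat.pow_le_pow_right (by norm_num) (hG b)
        refine le_trans ?_ h4
        rw [show (4 : ℕ) = 2 ^ 2 by norm_num, ← pow_mul, ← pow_add, ← pow_add, ← pow_add]
        exact Nat.pow_le_pow_right (by norm_num) (by omega)
      exact_mod_cast h3
    calc ((2 ^ b : ℕ) : ENNReal) * (((2 ^ n : ℕ) : ENNReal) * ((4 ^ G b : ℕ) : ENNReal)⁻¹)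
        ≤ ((2 ^ b : ℕ) : ENNReal) * (((2 ^ n : ℕ) : ENNReal) *
          ((2 ^ b * 2 ^ n * (2 ^ n * 2 ^ b) : ℕ) : ENNReal)⁻¹) := by gcongr
      _ = (2⁻¹ : ENNReal) ^ n * (2⁻¹ : ENNReal) ^ b := by
        push_cast
        have e1 : ((2 : ENNReal) ^ b) ≠ 0 := by positivity
        have e2 : ((2 : ENNReal) ^ n) ≠ 0 := by positivity
        have e3 : ((2 : ENNReal) ^ b) ≠ ⊤ := ENNReal.pow_ne_top ENNReal.ofNat_ne_top
        have e4 : ((2 : ENNReal) ^ n) ≠ ⊤ := ENNReal.pow_ne_top ENNReal.ofNat_ne_top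
        have e5 : ((2 : ENNReal) ^ b * 2 ^ n * (2 ^ n * 2 ^ b))⁻¹ =
            ((2 : ENNReal) ^ b)⁻¹ * ((2 : ENNReal) ^ n)⁻¹ *
              (((2 : ENNReal) ^ n)⁻¹ * ((2 : ENNReal) ^ b)⁻¹) := by
          rw [ENNReal.mul_inv (Or.inl (mul_ne_zero e1 e2)) (Or.inl (ENNReal.mul_ne_top e3 e4)),
            ENNReal.mul_inv (Or.inl e1) (Or.inl e3), ENNReal.mul_inv (Or.inl e2) (Or.inl e4)]
        rw [e5, ENNReal.inv_pow, ENNReal.inv_pow]
        calc (2 : ENNReal) ^ b * (2 ^ n * (2⁻¹ ^ b * 2⁻¹ ^ n * (2⁻¹ ^ n * 2⁻¹ ^ b)))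
            = ((2 : ENNReal) ^ b * 2⁻¹ ^ b) * ((2 : ENNReal) ^ n * 2⁻¹ ^ n) *
              (2⁻¹ ^ n * 2⁻¹ ^ b) := by ring
          _ = 2⁻¹ ^ n * 2⁻¹ ^ b := by
            rw [← ENNReal.inv_pow, ← ENNReal.inv_pow, ENNReal.mul_inv_cancel e1 e3,
              ENNReal.mul_inv_cancel e2 e4, one_mul, one_mul]
  calc ∑' b : ℕ, ∑' _a : Vn b, ∑' _τ : Vn n, ((4 ^ G b : ℕ) : ENNReal)⁻¹
      ≤ ∑' b : ℕ, (2⁻¹ : ENNReal) ^ n * (2⁻¹ : ENNReal) ^ b := ENNReal.tsum_le_tsum h1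
    _ = (2⁻¹ : ENNReal) ^ n * 2 := by
      rw [ENNReal.tsum_mul_left, ENNReal.tsum_geometric, ENNReal.one_sub_inv_two, inv_inv]
    _ = 2 * (2⁻¹ : ENNReal) ^ n := mul_comm _ _

open Classical in
/-- The number of inverted points. -/
private noncomputable def OWEv_c (A : List Bool → Bool)
    (M : (List Bool → Bool) → List Bool × List Bool → List Bool) (R : List Bool → Bool)
    (T : ℕ → Bool) (a : List Bool) (n : ℕ) : ℕ :=
  (Finset.univ.filter fun x : Vn n =>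
    M (join (join A R) (tal T)) (a, FR R x.toList) = x.toList).card

private theorem OWEv_c_le (A : List Bool → Bool)
    (M : (List Bool → Bool) → List Bool × List Bool → List Bool) (R : List Bool → Bool)
    (T : ℕ → Bool) (a : List Bool) (n : ℕ) : OWEv_c A M R T a n ≤ 2 ^ n := by
  classical
  unfold OWEv_c
  refine (Finset.card_le_univ _).trans ?_
  rw [card_vector, Fintype.card_bool]

/-- The bad event at length `n`. -/
private def OWEv_B (A : List Bool → Bool)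
    (M : (List Bool → Bool) → List Bool × List Bool → List Bool) (k n : ℕ) :
    Set (List Bool → Bool) :=
  {R | k ≤ n ∧ ∃ (T : ℕ → Bool) (a : List Bool), a.length ^ k ≤ 2 ^ n ∧
    2 ^ (k * n) < OWEv_c A M R T a n ^ k * 2 ^ n}

private theorem OWEv_meas (A : List Bool → Bool)
    {M : (List Bool → Bool) → List Bool × List Bool → List Bool} (hM : UT M) :
    ∃ k > 0, ∀ n, randomOracle (OWEv_B A M k n) ≤ 2 * (2⁻¹ : ENNReal) ^ n := by
  classical
  obtain ⟨p, hp⟩ := exists_measure_Ev hM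
  obtain ⟨U, hU⟩ := exists_use_tal hM
  obtain ⟨k, hk0, hk⟩ := exists_growth (p + U + 1)
  refine ⟨k, hk0, fun n => ?_⟩
  set s : ℕ → ℕ := fun b => (p + U + 1).eval (4 * b + 12 * n + 3) with hs
  have hse : ∀ b, s b = p.eval (4 * b + 12 * n + 3) + U.eval (4 * b + 12 * n + 3) + 1 := by
    intro b
    simp only [hs, Polynomial.eval_add, Polynomial.eval_one]
  have hex : ∀ b, ∃ g : ℕ, 36 * 2 ^ n ≤ g ^ 2 ∧ 2 * b + 4 * n + 4 ≤ g := by
    intro b
    refine ⟨36 * 2 ^ n + (2 * b + 4 * n + 4), ?_, by omega⟩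
    calc 36 * 2 ^ n ≤ 36 * 2 ^ n + (2 * b + 4 * n + 4) := by omega
      _ = (36 * 2 ^ n + (2 * b + 4 * n + 4)) ^ 1 := (pow_one _).symm
      _ ≤ (36 * 2 ^ n + (2 * b + 4 * n + 4)) ^ 2 := Nat.pow_le_pow_right (by omega) (by norm_num)
  set G : ℕ → ℕ := fun b => Nat.find (hex b) with hG
  have hG1 : ∀ b, 36 * 2 ^ n ≤ G b ^ 2 ∧ 2 * b + 4 * n + 4 ≤ G b := fun b => Nat.find_spec (hex b)
  have hG2 : ∀ b g, 36 * 2 ^ n ≤ g ^ 2 → 2 * b + 4 * n + 4 ≤ g → G b ≤ g :=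
    fun b g h1 h2 => Nat.find_min' (hex b) ⟨h1, h2⟩
  have hsub : OWEv_B A M k n ⊆
      ⋃ b : ℕ, ⋃ a : Vn b, ⋃ τ : Vn n, Ev A M (sg τ.toList) a.toList n (s b) (G b) := by
    rintro R ⟨hkn, T, a, ha, hlt⟩
    refine Set.mem_iUnion.2 ⟨a.length, Set.mem_iUnion.2 ⟨⟨a, rfl⟩, Set.mem_iUnion.2
      ⟨⟨pre T n, pre_length T n⟩, ?_⟩⟩⟩
    change R ∈ Ev A M (sg (pre T n)) a n (s a.length) (G a.length)
    obtain ⟨g1, g2, g3⟩ := hk n hkn a.length (OWEv_c A M R T a n) ha hlt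
    have h1 : G a.length ≤ OWEv_c A M R T a n / (2 * s a.length + 1) := hG2 _ _ g1 g2
    have h2 : (2 * s a.length + 1) * G a.length ≤ OWEv_c A M R T a n :=
      (Nat.mul_le_mul_left _ h1).trans (Nat.mul_div_le _ _)
    have h3 : OWEv_c A M R T a n = OWEv_c A M R (sg (pre T n)) a n := by
      unfold OWEv_c
      congr 1
      refine Finset.filter_congr fun x _ => ?_
      rw [hU (join A R) T (sg (pre T n)) (a, FR R x.toList) fun j hj => ?_]
      have h4 : 2 ^ j < 2 ^ n := by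
        have h5 := eval_mono U (OWEv_sz a R n x)
        have h6 := hse a.length
        have h7 : s a.length ≤ 2 ^ n := g3
        omega
      exact (sg_pre ((Nat.pow_lt_pow_iff_right (by norm_num)).1 h4)).symm
    rw [h3] at h2
    exact h2
  have h1 : ∀ (b : ℕ) (a : Vn b) (τ : Vn n),
      randomOracle (Ev A M (sg τ.toList) a.toList n (s b) (G b)) ≤
        ((4 ^ G b : ℕ) : ENNReal)⁻¹ := by
    intro b a τ
    refine hp A _ a.toList n (s b) (G b) ?_ (hG1 b).1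
    rw [List.Vector.toList_length, hse b]
    omega
  calc randomOracle (OWEv_B A M k n)
      ≤ randomOracle (⋃ b : ℕ, ⋃ a : Vn b, ⋃ τ : Vn n,
          Ev A M (sg τ.toList) a.toList n (s b) (G b)) := measure_mono hsub
    _ ≤ ∑' b : ℕ, randomOracle (⋃ a : Vn b, ⋃ τ : Vn n,
          Ev A M (sg τ.toList) a.toList n (s b) (G b)) := measure_iUnion_le _
    _ ≤ ∑' b : ℕ, ∑' a : Vn b, ∑' τ : Vn n,
          randomOracle (Ev A M (sg τ.toList) a.toList n (s b) (G b)) := by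
        refine ENNReal.tsum_le_tsum fun b => (measure_iUnion_le _).trans ?_
        exact ENNReal.tsum_le_tsum fun a => measure_iUnion_le _
    _ ≤ ∑' b : ℕ, ∑' _a : Vn b, ∑' _τ : Vn n, ((4 ^ G b : ℕ) : ENNReal)⁻¹ :=
        ENNReal.tsum_le_tsum fun b => ENNReal.tsum_le_tsum fun a =>
          ENNReal.tsum_le_tsum fun τ => h1 b a τ
    _ ≤ 2 * (2⁻¹ : ENNReal) ^ n := OWEv_tsum n G fun b => (hG1 b).2

open Classical in
theorem ae_not_inverted (A : List Bool → Bool)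
    {M : (List Bool → Bool) → List Bool × List Bool → List Bool} (hM : UT M) :
    ∀ᵐ R ∂randomOracle, ∃ k, ∀ n ≥ k, ∀ (T : ℕ → Bool) (a : List Bool), a.length ^ k ≤ 2 ^ n →
      (Finset.univ.filter fun x : Vn n =>
        M (join (join A R) (tal T)) (a, FR R x.toList) = x.toList).card ^ k * 2 ^ n ≤
          2 ^ (k * n) := by
  obtain ⟨k, hk0, hk⟩ := OWEv_meas A hM
  have hsum : ∑' n, randomOracle (OWEv_B A M k n) ≠ ⊤ := by
    refine ne_top_of_le_ne_top ?_ (ENNReal.tsum_le_tsum hk)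
    rw [ENNReal.tsum_mul_left, ENNReal.tsum_geometric, ENNReal.one_sub_inv_two, inv_inv]
    exact ENNReal.mul_ne_top ENNReal.ofNat_ne_top ENNReal.ofNat_ne_top
  filter_upwards [ae_eventually_notMem hsum] with R hR
  obtain ⟨n0, hn0⟩ := Filter.eventually_atTop.1 hR
  refine ⟨max k n0, fun n hn T a ha => ?_⟩
  have hnk : k ≤ n := le_trans (le_max_left _ _) hn
  have hnn : n0 ≤ n := le_trans (le_max_right _ _) hn
  have ha' : a.length ^ k ≤ 2 ^ n := by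
    rcases Nat.eq_zero_or_pos a.length with h0 | h0
    · rw [h0, zero_pow hk0.ne']
      exact Nat.zero_le _
    · exact (Nat.pow_le_pow_right h0 (le_max_left _ _)).trans ha
  have hc : OWEv_c A M R T a n ^ k * 2 ^ n ≤ 2 ^ (k * n) := by
    by_contra hcon
    exact hn0 n hnn ⟨hnk, T, a, ha', not_le.1 hcon⟩
  change OWEv_c A M R T a n ^ (max k n0) * 2 ^ n ≤ 2 ^ (max k n0 * n)
  obtain ⟨r, hr⟩ := Nat.exists_eq_add_of_le (le_max_left k n0)
  rw [hr]
  calc OWEv_c A M R T a n ^ (k + r) * 2 ^ n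
      = OWEv_c A M R T a n ^ r * (OWEv_c A M R T a n ^ k * 2 ^ n) := by rw [pow_add]; ring
    _ ≤ (2 ^ n) ^ r * 2 ^ (k * n) :=
        Nat.mul_le_mul (Nat.pow_le_pow_left (OWEv_c_le A M R T a n) r) hc
    _ = 2 ^ ((k + r) * n) := by rw [← pow_mul, ← pow_add]; congr 1; ring

end Pool.Agent.TO42
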