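import Mathlib

/-!
# Module TO42/OWInd

Independent sets in sparse directed graphs.

PROOF. Induction on `g`. Step `g + 1`: `I` is nonempty with `(2 s + 1)(g + 1) ≤ |I|`. Double
counting `∑_{z' ∈ I} #{z ∈ I | z' ∈ Q z} = ∑_{z ∈ I} |Q z ∩ I| ≤ s |I|`, so some `z' ∈ I` has
`#{z ∈ I | z' ∈ Q z} ≤ s` (`Finset.exists_le_of_sum_le` or by contradiction with
`Finset.sum_lt_sum`). Let `I' = I \ ({z'} ∪ Q z' ∪ {z ∈ I | z' ∈ Q z})`, of size
`≥ |I| - (2 s + 1) ≥ (2 s + 1) g`. Induction gives `G' ⊆ I'`; take `G = insert z' G'`.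
-/

set_option autoImplicit false

namespace Pool.Agent.TO42

theorem exists_indep {Z : Type*} [DecidableEq Z] (s g : ℕ) (I : Finset Z) (Q : Z → Finset Z)
    (hQ : ∀ z ∈ I, (Q z).card ≤ s) (hI : (2 * s + 1) * g ≤ I.card) :
    ∃ G ⊆ I, G.card = g ∧ ∀ z ∈ G, ∀ z' ∈ G, z' ≠ z → z' ∉ Q z := by
  induction g generalizing I with
  | zero => exact ⟨∅, by simp, by simp, by simp⟩
  | succ g ih =>
    have hne : I.Nonempty := by
      rw [← Finset.card_pos]
      have : 0 < (2 * s + 1) * (g + 1) := by positivity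
      omega
    have hsum : ∑ z' ∈ I, (I.filter (fun z => z' ∈ Q z)).card ≤ ∑ _z' ∈ I, s := by
      have h1 : ∑ z' ∈ I, (I.filter (fun z => z' ∈ Q z)).card
          = ∑ z ∈ I, (I.filter (fun z' => z' ∈ Q z)).card := by
        simp only [Finset.card_filter]
        exact Finset.sum_comm
      rw [h1]
      refine Finset.sum_le_sum (fun z hz => le_trans (Finset.card_le_card ?_) (hQ z hz))
      intro z' hz'
      exact (Finset.mem_filter.mp hz').2
    obtain ⟨z₀, hz₀, hle⟩ := Finset.exists_le_of_sum_le hne hsum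
    set B : Finset Z := insert z₀ (Q z₀ ∪ I.filter (fun z => z₀ ∈ Q z)) with hB
    have hBcard : B.card ≤ 2 * s + 1 := by
      have h1 := Finset.card_insert_le z₀ (Q z₀ ∪ I.filter (fun z => z₀ ∈ Q z))
      have h2 := Finset.card_union_le (Q z₀) (I.filter (fun z => z₀ ∈ Q z))
      have h3 := hQ z₀ hz₀
      rw [hB]
      omega
    have hI' : (2 * s + 1) * g ≤ (I \ B).card := by
      have h1 := Finset.le_card_sdiff B I
      have h2 : (2 * s + 1) * (g + 1) = (2 * s + 1) * g + (2 * s + 1) := by ring
      omega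
    obtain ⟨G', hG', hcard, hind⟩ := ih (I \ B) (fun z hz => hQ z (Finset.mem_sdiff.mp hz).1) hI'
    have hnot : z₀ ∉ G' := by
      intro h
      have := (Finset.mem_sdiff.mp (hG' h)).2
      exact this (by rw [hB]; exact Finset.mem_insert_self _ _)
    refine ⟨insert z₀ G', ?_, ?_, ?_⟩
    · intro z hz
      rcases Finset.mem_insert.mp hz with rfl | hz
      · exact hz₀
      · exact (Finset.mem_sdiff.mp (hG' hz)).1
    · rw [Finset.card_insert_of_notMem hnot, hcard]
    · intro z hz z' hz' hne'
      have hout : ∀ y ∈ G', y ∈ I ∧ y ∉ B := fun y hy => Finset.mem_sdiff.mp (hG' hy)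
      rcases Finset.mem_insert.mp hz with h1 | h1
      · rcases Finset.mem_insert.mp hz' with h2 | h2
        · exact absurd (h2.trans h1.symm) hne'
        · intro hmem
          rw [h1] at hmem
          exact (hout z' h2).2 (by
            rw [hB]
            exact Finset.mem_insert_of_mem (Finset.mem_union_left _ hmem))
      · rcases Finset.mem_insert.mp hz' with h2 | h2
        · intro hmem
          rw [h2] at hmem
          exact (hout z h1).2 (by
            rw [hB]
            exact Finset.mem_insert_of_mem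
              (Finset.mem_union_right _ (Finset.mem_filter.mpr ⟨(hout z h1).1, hmem⟩)))
        · exact hind z h1 z' h2 hne'

end Pool.Agent.TO42
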