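import Pool.Agent.TO42.NPF
import Pool.Agent.TO42.Tal
import Pool.Agent.POpt70.RelP

/-!
# Module TO42/PUp

`NP^A ⊆ P^A` implies `NP^(A ⊕ T) ⊆ P^(A ⊕ T)`.

PROOF. Let `L = npf p F X`, `X = join A (tal T)` (`mem_NPOracle_iff`). Let `D` decode pairs of
strings, `B z := ∃ w, w.length ≤ p.eval (D z).2.length ∧ F (join A (tal (sg (D z).1)))
((D z).2, w) = true`. `B ∈ NP^A` by `UT_seg` (verifier tests the length of `w` exactly; bound in
`z.length` by `exists_length_bound`), so `B ∈ P^A`, and `B` is polynomial time relative to `X`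
(`IsPolyTimeOracle.join_left`). Let `U` be from `exists_use_tal` for `F` and
`l x := 2 * U.eval (4 * x.length + 4 * p.eval x.length + 3) + 2`. Then
`L x = B (bitEncode (readT X (l x), x))`: `readT X (l x) = pre T k`, `k = log 2 (l x)`,
`U.eval (sz (x, w)) ≤ 2 ^ k` for all `w` with `w.length ≤ p.eval x.length`, and `sg_pre`.
-/

set_option autoImplicit false

namespace Pool.Agent.TO42

open Pool.Agent.PT Pool.Agent.TMB67 Pool.Agent.POpt67 Pool.Agent.POpt70 Pool.Agent.ROr14
open N68a2faeb N793a5b8e N487b59b3

theorem NP_subset_up {A : List Bool → Bool} (h : NPOracle A ⊆ POracle A) (T : ℕ → Bool) :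
    NPOracle (join A (tal T)) ⊆ POracle (join A (tal T)) := by
  classical
  intro L hL
  obtain ⟨p, F, hF, rfl⟩ := mem_NPOracle_iff.1 hL
  obtain ⟨D, hD, hD'⟩ := Compat.dec (α := List Bool × List Bool)
  obtain ⟨U, hU⟩ := exists_use_tal hF
  set B : DecisionProblem := fun z => decide (∃ w : List Bool,
    w.length ≤ p.eval (D z).2.length ∧
      F (join A (tal (sg (D z).1))) ((D z).2, w) = true) with hBdef
  have hB : B ∈ NPOracle A := by
    obtain ⟨q, hq⟩ := exists_length_bound (s := fun z => p.eval (D z).2.length)
      ((polyEval_length p (PolyTime.snd hD)).pbdd.of_le fun x => by rw [sz_nat]; omega)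
    refine mem_NPOracle_iff.2 ⟨q, fun X z => decide (z.2.length ≤ p.eval (D z.1).2.length) &&
      F (join X (tal (sg (D z.1).1))) ((D z.1).2, z.2), ?_, ?_⟩
    · have hD1 : PolyTime (fun z : List Bool × List Bool => D z.1) := hD.comp PolyTime.fst'
      have h1 : UT (fun (_ : List Bool → Bool) (z : List Bool × List Bool) =>
          decide (z.2.length ≤ p.eval (D z.1).2.length)) :=
        UT.of (PolyTime.decide_le (by fun_prop) (polyEval_length p (PolyTime.snd hD1)))
      have h2 : UT (fun X (z : List Bool × List Bool) =>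
          F (join X (tal (sg (D z.1).1))) ((D z.1).2, z.2)) :=
        ((UT_seg hF).pre (g := fun z : List Bool × List Bool => ((D z.1).1, ((D z.1).2, z.2)))
          (PolyTime.pair (PolyTime.fst hD1) (PolyTime.pair (PolyTime.snd hD1)
            PolyTime.snd'))).congr fun X x => rfl
      exact ((h1.pair h2).post (g := fun y : Bool × Bool => y.1 && y.2)
        (PolyTime.and PolyTime.fst' PolyTime.snd')).congr fun X x => rfl
    · funext z
      rw [Bool.eq_iff_iff, npf_iff, hBdef, decide_eq_true_iff]
      simp only [Bool.and_eq_true, decide_eq_true_iff]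
      constructor
      · rintro ⟨w, hw, hw'⟩
        exact ⟨w, hw.trans (hq z), hw, hw'⟩
      · rintro ⟨w, _, hw, hw'⟩
        exact ⟨w, hw, hw'⟩
  have hBX : IsPolyTimeOracle (join A (tal T)) B :=
    IsPolyTimeOracle.join_left (h hB) (tal T)
  obtain ⟨G, hG, hGB⟩ := hBX.exists_UT
  set l : List Bool → ℕ := fun x => 2 * U.eval (4 * x.length + 4 * p.eval x.length + 3) + 2
    with hl
  have hlP : PolyTime l := by
    have h1 : PolyTime (fun x : List Bool => 4 * x.length + 4 * p.eval x.length + 3) :=
      PolyTime.natAdd (PolyTime.natAdd (PolyTime.natMul (by fun_prop) (by fun_prop))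
        (PolyTime.natMul (by fun_prop) (polyEval_length p PolyTime.id))) (by fun_prop)
    exact PolyTime.natAdd (PolyTime.natMul (by fun_prop) (polyEval_polyTime h1 U)) (by fun_prop)
  have hUT : UT (fun X (x : List Bool) => G X (bitEncode (readT X (l x), x))) :=
    hG.comp (((readT_UT.pre hlP).pair (UT.of (f := fun x : List Bool => x)
      PolyTime.id)).post (Compat.enc (α := List Bool × List Bool)))
  have hfin := hUT.isPolyTimeOracle (join A (tal T))
  have heq : npf p F (join A (tal T)) =
      fun x => G (join A (tal T)) (bitEncode (readT (join A (tal T)) (l x), x)) := by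
    funext x
    rw [hGB, readT_eq, Bool.eq_iff_iff, npf_iff, hBdef]
    beta_reduce
    rw [hD', decide_eq_true_iff]
    refine exists_congr fun w => and_congr_right fun hw => ?_
    have hk : U.eval (sz (x, w)) ≤ 2 ^ Nat.log 2 (l x) := by
      have h1 : U.eval (sz (x, w)) ≤ U.eval (4 * x.length + 4 * p.eval x.length + 3) := by
        refine eval_mono U ?_
        have h2 := sz_listBool x
        have h3 := sz_listBool w
        rw [sz_prod]
        simp only
        omega
      have h4 : l x < 2 ^ (Nat.log 2 (l x) + 1) := Nat.lt_pow_succ_log_self (by norm_num) _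
      rw [pow_succ] at h4
      have h5 : l x = 2 * U.eval (4 * x.length + 4 * p.eval x.length + 3) + 2 := rfl
      omega
    have h6 : F (join A (tal T)) (x, w) =
        F (join A (tal (sg (pre T (Nat.log 2 (l x)))))) (x, w) := by
      refine hU A T _ (x, w) fun j hj => (sg_pre ?_).symm
      exact (Nat.pow_lt_pow_iff_right (by norm_num : 1 < 2)).1 (hj.trans_le hk)
    rw [h6]
  change IsPolyTimeOracle _ _
  rw [heq]
  exact hfin

end Pool.Agent.TO42
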