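import Pool.Agent.TO42.Tal
import Pool.Agent.POpt70.RelSys

/-!
# Module TO42/Thin

The thin oracle that records the deaths of the programs.

PROOF (compare `gS`, `oS`, `oS_card` in POpt70/RelSparse.lean). Classical. Let
`Act i J := (nu J = i ∧ ∀ k, J ≤ k → 2 * (i + 1) ≤ β k) ∧ ∀ J' < J, ¬ (nu J' = i ∧ ∀ k, J' ≤ k →
2 * (i + 1) ≤ β k)` (exists for every `i`, unique, as `exists_act`). With `J = Nat.log 2 k` let
`g k s := decide (k = 2 ^ J) && (decide (Act (nu J) J) || decide ((∃ j < J, Act (nu J) j) ∧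
(∀ j < J, nu j = nu J → ¬ Act (nu J) j → s.getD (2 ^ j) false = false) ∧
Bad (nu J) (2 ^ 2 ^ J) (join A (tal (sg s)))))` and `T := recT g`; `recT_eq` and `pre_getD`
unfold it.
-/

set_option autoImplicit false

namespace Pool.Agent.TO42

open Pool.Agent.PT Pool.Agent.TMB67 Pool.Agent.POpt67 Pool.Agent.POpt70 Pool.Agent.ROr14
open N68a2faeb N793a5b8e N487b59b3

/-- The place `J` may be the start of program `i`. -/
def May (β : ℕ → ℕ) (i J : ℕ) : Prop := nu J = i ∧ ∀ k, J ≤ k → 2 * (i + 1) ≤ β k

/-- The place `J` is the start of program `i`. -/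
def Sta (β : ℕ → ℕ) (i J : ℕ) : Prop := May β i J ∧ ∀ J' < J, ¬ May β i J'

theorem exists_sta {β : ℕ → ℕ} (hβ : ∀ k, ∃ n, ∀ i, n ≤ i → k ≤ β i) (i : ℕ) :
    ∃ J, Sta β i J := by
  classical
  have h : ∃ J, May β i J := by
    obtain ⟨n, hn⟩ := hβ (2 * (i + 1))
    refine ⟨pos i 0 n 0, nu_pos _ _ _ _, fun k hk => hn k ?_⟩
    have := lt_pos i 0 n 0
    omega
  exact ⟨Nat.find h, Nat.find_spec h, fun J' hJ' => Nat.find_min h hJ'⟩

theorem Sta.unique {β : ℕ → ℕ} {i J J' : ℕ} (h : Sta β i J) (h' : Sta β i J') : J = J' := by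
  rcases lt_trichotomy J J' with hlt | heq | hgt
  · exact absurd h.1 (h'.2 J hlt)
  · exact heq
  · exact absurd h'.1 (h.2 J' hgt)

open Classical in
/-- The recursion of the thin oracle. -/
noncomputable def gT (A : List Bool → Bool) (β : ℕ → ℕ)
    (Bad : ℕ → ℕ → (List Bool → Bool) → Prop) (k : ℕ) (s : List Bool) : Bool :=
  decide (k = 2 ^ Nat.log 2 k) &&
    (decide (Sta β (nu (Nat.log 2 k)) (Nat.log 2 k)) ||
      decide ((∃ j < Nat.log 2 k, Sta β (nu (Nat.log 2 k)) j) ∧
        (∀ j < Nat.log 2 k, nu j = nu (Nat.log 2 k) → ¬ Sta β (nu (Nat.log 2 k)) j →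
          s.getD (2 ^ j) false = false) ∧
        Bad (nu (Nat.log 2 k)) (2 ^ 2 ^ Nat.log 2 k) (join A (tal (sg s)))))

/-- The thin oracle. -/
theorem exists_thin (A : List Bool → Bool) (β : ℕ → ℕ) (hβ : ∀ k, ∃ n, ∀ i, n ≤ i → k ≤ β i)
    (Bad : ℕ → ℕ → (List Bool → Bool) → Prop)
    (hBad : ∀ i l X Y, (∀ w : List Bool, w.length < l → X w = Y w) → (Bad i l X ↔ Bad i l Y)) :
    ∃ T : ℕ → Bool, IsThin β T ∧ ∀ i, ∃ s, nu s = i ∧ T (2 ^ s) = true ∧
      (∀ j < s, nu j = i → T (2 ^ j) = false) ∧
      ∀ J, s < J → nu J = i → (T (2 ^ J) = true ↔ (Bad i (2 ^ 2 ^ J) (join A (tal T)) ∧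
        ∀ j, s < j → j < J → nu j = i → T (2 ^ j) = false)) := by
  classical
  set T : ℕ → Bool := recT (gT A β Bad) with hT
  have hpow : ∀ k, T k = true → ∃ i, k = 2 ^ i := by
    intro k h
    rw [hT, recT_eq, gT, Bool.and_eq_true, decide_eq_true_iff] at h
    exact ⟨_, h.1⟩
  have hval : ∀ J, T (2 ^ J) = true ↔ (Sta β (nu J) J ∨ ((∃ j < J, Sta β (nu J) j) ∧
      (∀ j < J, nu j = nu J → ¬ Sta β (nu J) j → T (2 ^ j) = false) ∧
        Bad (nu J) (2 ^ 2 ^ J) (join A (tal T)))) := by
    intro J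
    have hb : Bad (nu J) (2 ^ 2 ^ J) (join A (tal (sg (pre T (2 ^ J))))) ↔
        Bad (nu J) (2 ^ 2 ^ J) (join A (tal T)) := by
      refine hBad _ _ _ _ fun w hw => ?_
      refine join_congr (n := w.length) (fun j hj => ?_) w le_rfl
      refine sg_pre ?_
      have h1 : 2 ^ j < 2 ^ 2 ^ J := hj.trans hw
      exact (Nat.pow_lt_pow_iff_right (by norm_num)).1 h1
    have h3 : ∀ j < J, (pre T (2 ^ J)).getD (2 ^ j) false = T (2 ^ j) :=
      fun j hj => pre_getD _ (Nat.pow_lt_pow_right (by norm_num) hj)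
    have h4 : T (2 ^ J) = gT A β Bad (2 ^ J) (pre T (2 ^ J)) := by
      rw [hT]
      exact recT_eq _ _
    rw [h4, gT, Nat.log_pow (by norm_num)]
    simp only [decide_true, Bool.true_and, Bool.or_eq_true, decide_eq_true_iff]
    refine or_congr Iff.rfl (and_congr_right fun _ => and_congr (forall₂_congr fun j hj => ?_) hb)
    rw [h3 j hj]
  -- a true place which is not the start comes after the start
  have hafter : ∀ J, T (2 ^ J) = true → ∃ j ≤ J, Sta β (nu J) j := by
    intro J hJ
    rcases (hval J).1 hJ with h | ⟨⟨j, hj, h⟩, _⟩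
    · exact ⟨J, le_rfl, h⟩
    · exact ⟨j, hj.le, h⟩
  refine ⟨T, ⟨hpow, fun n => ?_⟩, fun i => ?_⟩
  · -- thinness
    have h1 : Set.MapsTo (fun j => 2 * nu j + (if Sta β (nu j) j then 0 else 1))
        ↑((Finset.range n).filter fun i => T (2 ^ i) = true) (↑(Finset.range (β n)) : Set ℕ) := by
      intro j hj
      simp only [Finset.coe_filter, Finset.mem_range, Set.mem_ofPred_eq] at hj
      simp only [Finset.coe_range, Set.mem_Iio]
      obtain ⟨s, hs, hs'⟩ := hafter j hj.2
      have h2 := hs'.1.2 n (hs.trans hj.1.le)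
      split_ifs <;> omega
    have h2 : Set.InjOn (fun j => 2 * nu j + (if Sta β (nu j) j then 0 else 1))
        ↑((Finset.range n).filter fun i => T (2 ^ i) = true) := by
      intro i hi j hj h
      simp only [Finset.coe_filter, Finset.mem_range, Set.mem_ofPred_eq] at hi hj
      have hnu : nu i = nu j := by
        simp only at h
        split_ifs at h <;> omega
      by_cases hsi : Sta β (nu i) i
      · by_cases hsj : Sta β (nu j) j
        · rw [hnu] at hsi
          exact hsi.unique hsj
        · simp only [hsi, hsj, if_true, if_false] at h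
          omega
      · by_cases hsj : Sta β (nu j) j
        · simp only [hsi, hsj, if_true, if_false] at h
          omega
        · have key : ∀ i j, T (2 ^ i) = true → T (2 ^ j) = true → nu i = nu j →
              ¬ Sta β (nu i) i → ¬ Sta β (nu j) j → ¬ i < j := by
            intro i j hi hj hnu hsi hsj hij
            rcases (hval j).1 hj with h | ⟨_, h, _⟩
            · exact hsj h
            · have := h i hij hnu (by rw [← hnu]; exact hsi)
              rw [hi] at this
              exact absurd this (by simp)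
          rcases lt_trichotomy i j with hlt | heq | hgt
          · exact absurd hlt (key i j hi.2 hj.2 hnu hsi hsj)
          · exact heq
          · exact absurd hgt (key j i hj.2 hi.2 hnu.symm hsj hsi)
    simpa using Finset.card_le_card_of_injOn _ h1 h2
  · obtain ⟨s, hs⟩ := exists_sta hβ i
    have hnus : nu s = i := hs.1.1
    refine ⟨s, hnus, (hval s).2 (Or.inl (by rw [hnus]; exact hs)), fun j hj hji => ?_,
      fun J hJ hJi => ?_⟩
    · rw [← Bool.not_eq_true]
      intro h
      obtain ⟨s', hs', hs''⟩ := hafter j h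
      rw [hji] at hs''
      have := hs.unique hs''
      omega
    · rw [hval J, hJi]
      have hnot : ¬ Sta β i J := fun h => by
        have := hs.unique h
        omega
      constructor
      · rintro (h | ⟨_, h1, h2⟩)
        · exact absurd h hnot
        · refine ⟨h2, fun j hj hjJ hji => h1 j hjJ hji fun h => ?_⟩
          have := hs.unique h
          omega
      · rintro ⟨h1, h2⟩
        refine Or.inr ⟨⟨s, hJ, hs⟩, fun j hjJ hji hns => ?_, h1⟩
        rcases lt_trichotomy j s with hlt | heq | hgt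
        · rw [← Bool.not_eq_true]
          intro h
          obtain ⟨s', hs', hs''⟩ := hafter j h
          rw [hji] at hs''
          have := hs.unique hs''
          omega
        · exact absurd (heq ▸ hs) hns
        · exact h2 j hgt hjJ hji

end Pool.Agent.TO42
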