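import Pool.Agent.TO42.Sys
import Pool.Agent.TO42.Thin

/-!
# Module TO42/Sound

Soundness and optimality of the system.

PROOF. `sysX_sound`: if the test fails the value is `y0`. Otherwise `u := (D π).1 = word J` with
`J = ll u.length` (`trustB_word` of POpt70/RelSys.lean), `u.length = 2 ^ 2 ^ J`. Let `i = nu J` and
`s` the start of `i` from `hT i`. By `trust_iff` there is exactly one `s' ≤ J` with `nu s' = i` and
`T (2^s')`, and `s' < J`. As `T (2^j) = false` for `j < s`, `nu j = i`, we get `s ≤ s' < J`, and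
`s = s'` by uniqueness. So `T (2^j) = false` for all `s < j ≤ J` with `nu j = i`, and the last
clause of `hT` at `J` gives `¬ Bad … i (2^2^J) X`; as `Val` holds, `Λ (ix i).2.2 X (run ..) = true`.
`sysX_sim`: let `⟨i, hi, hrun, C, hC⟩ := exists_index hF U c m`. For no `l` is `Bad … i l X`: if `Val`
holds for `run X (i,l,x)`, the guards hold, so `run X (i,l,x) = F X x = S x` is in the language.
Let `s` be the start of `i`; by strong induction `T (2 ^ J) = false` for all `J > s` with
`nu J = i`. Let `J x := pos i C (s + 1) x.length` (POpt70/Sparse.lean: `nu_pos`,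
`lt_pos`: `size ((C + 1) * (size n + 1)) + (s + 1) < pos .. + 1`, `pos_bound`), so
`nu (J x) = i`, `s < J x`, `C * (size n + 1) ≤ 2 ^ J x = log 2 (2 ^ 2 ^ J x)` (`Nat.lt_size_self`).
`h x := bitEncode (replicate (cp2 ((4 * x.length + 2) ^ (2 ^ (s + 1 + 2 ^ (i + 1) + 2 ^ i) *
(3 * (C + 1)))) (J x)) true, x) = bitEncode (word (J x), x)` (`word_eq_cp2`, `pos_bound`) is
polynomial time (as in `sysR_sim`). The test holds for `π = h x`: `trust_iff` with `s`;
`Val` by `hC`.
-/

set_option autoImplicit false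

namespace Pool.Agent.TO42

open Pool.Agent.PT Pool.Agent.TMB67 Pool.Agent.POpt67 Pool.Agent.POpt70 Pool.Agent.ROr14
open N68a2faeb N793a5b8e N487b59b3

/-- The property of the thin oracle. -/
def Records (Bd : ℕ → ℕ → (List Bool → Bool) → Prop) (A : List Bool → Bool) (T : ℕ → Bool) :
    Prop :=
  ∀ i, ∃ s, nu s = i ∧ T (2 ^ s) = true ∧ (∀ j < s, nu j = i → T (2 ^ j) = false) ∧
    ∀ J, s < J → nu J = i → (T (2 ^ J) = true ↔ (Bd i (2 ^ 2 ^ J) (join A (tal T)) ∧
      ∀ j, s < j → j < J → nu j = i → T (2 ^ j) = false))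

variable {Λ : ℕ → (List Bool → Bool) → DecisionProblem} {U : Polynomial ℕ} {c : ℕ → ℕ}
  {A : List Bool → Bool} {T : ℕ → Bool}

theorem sysX_sound (hT : Records (Bad Λ U c) A T) (m : ℕ) (D : List Bool → List Bool × List Bool)
    {y0 : List Bool} (h0 : Λ m (join A (tal T)) y0 = true) (π : List Bool) :
    Λ m (join A (tal T)) (sysX U (c m) m D y0 (join A (tal T)) π) = true := by
  set X := join A (tal T) with hX
  unfold sysX
  split_ifs with hc
  · obtain ⟨⟨⟨h1, h2⟩, h3⟩, h4, h5⟩ := hc
    have hx := trustB_word h1 h2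
    have hlen : (D π).1.length = 2 ^ 2 ^ ll (D π).1.length := by
      conv_lhs => rw [hx, word_length]
    generalize ll (D π).1.length = J at hx hlen h3 h5 ⊢
    rw [hlen] at h4 h5 ⊢
    generalize (D π).2 = x at h5 ⊢
    obtain ⟨s', hs', hnu', hTs', huniq⟩ := (trust_iff A T J).1 h4
    obtain ⟨s, hnu, hTs, hbefore, hafter⟩ := hT (nu J)
    have hss' : s ≤ s' := by
      by_contra hlt
      have := hbefore s' (not_le.1 hlt) hnu'
      rw [hTs'] at this
      exact absurd this (by simp)
    have hs_eq : s = s' := by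
      by_contra hne
      have := huniq s (hss'.trans hs'.le) hnu hne
      rw [hTs] at this
      exact absurd this (by simp)
    subst hs_eq
    have hJ : T (2 ^ J) = false := huniq J le_rfl rfl (by omega)
    have hnb : ¬ Bad Λ U c (nu J) (2 ^ 2 ^ J) X := by
      intro hb
      have := (hafter J hs' rfl).2 ⟨hb, fun j hj hjJ hji => huniq j hjJ.le hji (by omega)⟩
      rw [hJ] at this
      exact absurd this (by simp)
    by_contra hL
    refine hnb ⟨x, ?_, ?_⟩
    · rw [h3]
      exact h5
    · rw [h3, ← Bool.not_eq_true]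
      exact hL
  · exact h0

theorem sysX_sim (hT : Records (Bad Λ U c) A T) (m : ℕ) {D : List Bool → List Bool × List Bool}
    (hD' : ∀ x, D (bitEncode x) = x) (y0 : List Bool)
    {F : (List Bool → Bool) → List Bool → List Bool} (hF : UT F)
    (hFL : ∀ x, Λ m (join A (tal T)) (F (join A (tal T)) x) = true) :
    ∃ h : List Bool → List Bool, PolyTime h ∧
      ∀ x, sysX U (c m) m D y0 (join A (tal T)) (h x) = F (join A (tal T)) x := by
  set X := join A (tal T) with hX
  obtain ⟨i, hi, hrun, C, hC⟩ := exists_index hF U c m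
  have hnb : ∀ l, ¬ Bad Λ U c i l X := by
    rintro l ⟨x, hval, hL⟩
    rw [hi, hrun X l x hval.1.1 hval.1.2, hFL x] at hL
    exact absurd hL (by simp)
  obtain ⟨s, hnu, hTs, hbefore, hafter⟩ := hT i
  have hdead : ∀ J, s < J → nu J = i → T (2 ^ J) = false := by
    intro J hJ hJi
    rw [← Bool.not_eq_true]
    intro h
    exact hnb _ ((hafter J hJ hJi).1 h).1
  refine ⟨fun x => bitEncode (List.replicate (cp2 ((4 * x.length + 2) ^
    (2 ^ ((s + 1) + 2 ^ (i + 1) + 2 ^ i) * (3 * (C + 1)))) (pos i C (s + 1) x.length)) true, x),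
    ?_, fun x => ?_⟩
  · refine (Compat.enc (α := List Bool × List Bool)).comp (PolyTime.pair
      (PolyTime.replicate (cp2_polyTime (by fun_prop) ?_) (by fun_prop)) (by fun_prop))
    unfold pos
    have h1 : PolyTime (fun u : List Bool =>
        (Nat.size ((C + 1) * (Nat.size u.length + 1)) + (s + 1)) / 2 ^ (i + 1)) :=
      PolyTime.natDiv (by fun_prop) (by fun_prop)
    fun_prop
  · have hb := pos_bound i C (s + 1) x.length
    have hw := word_eq_cp2 hb
    have hnuJ := nu_pos i C (s + 1) x.length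
    have hlt := lt_pos i C (s + 1) x.length
    beta_reduce
    rw [hw]
    generalize pos i C (s + 1) x.length = J at hnuJ hlt ⊢
    have hg : C * (Nat.size x.length + 1) ≤ Nat.log 2 (2 ^ 2 ^ J) := by
      rw [log_word]
      have h1 : C * (Nat.size x.length + 1) ≤ (C + 1) * (Nat.size x.length + 1) :=
        Nat.mul_le_mul_right _ (Nat.le_succ C)
      exact h1.trans ((Nat.lt_size_self _).le.trans (Nat.pow_le_pow_right (by norm_num)
        (by omega)))
    have hV := hC X (2 ^ 2 ^ J) x hg
    have hR : run X (i, 2 ^ 2 ^ J, x) = F X x := hrun X _ x hV.1.1 hV.1.2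
    have htest : Test U (c m) m (word J) x (bits X (word J).length)
        (run X (nu (ll (word J).length), (word J).length, x)) := by
      rw [Test, ll_word, word_length, hnuJ, hR]
      refine ⟨⟨⟨(word_eq_cp2 le_rfl).symm, ?_⟩, hi⟩, ?_, hV⟩
      · calc 2 = 2 ^ 2 ^ 0 := by norm_num
          _ ≤ 2 ^ 2 ^ J :=
            Nat.pow_le_pow_right (by norm_num) (Nat.pow_le_pow_right (by norm_num) (Nat.zero_le _))
      · rw [hX, trust_iff]
        refine ⟨s, by omega, by rw [hnu, hnuJ], hTs, fun j hj hji hne => ?_⟩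
        rcases lt_trichotomy j s with hlt' | heq | hgt
        · exact hbefore j hlt' (by rw [hji, hnuJ])
        · exact absurd heq hne
        · exact hdead j hgt (by rw [hji, hnuJ])
    unfold sysX
    simp only [hD']
    rw [if_pos htest, ll_word, word_length, hnuJ, hR]

/-- All languages of the family have optimal systems. -/
theorem hasPOptimal_of_records (hT : Records (Bad Λ U c) A T) (m : ℕ)
    (hne : ∃ y, Λ m (join A (tal T)) y = true) :
    HasPOptimal (join A (tal T)) (Λ m (join A (tal T))) := by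
  obtain ⟨y0, h0⟩ := hne
  obtain ⟨D, hD, hD'⟩ := Compat.dec (α := List Bool × List Bool)
  refine ⟨sysX U (c m) m D y0 (join A (tal T)), ⟨(sysX_UT U (c m) m hD y0).isPolyTimeOracle _,
    fun y => ⟨fun hy => ?_, ?_⟩⟩, fun S hS => ?_⟩
  · obtain ⟨h, _, hh⟩ := sysX_sim hT m hD' y0 (F := fun _ _ => y) (UT.of (PolyTime.const y))
      fun _ => hy
    exact ⟨h [], hh []⟩
  · rintro ⟨π, rfl⟩
    exact sysX_sound hT m D h0 π
  · obtain ⟨F, hF, hFS⟩ := hS.1.exists_UT
    obtain ⟨h, hh, hh'⟩ := sysX_sim hT m hD' y0 hF fun x => by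
      rw [hFS]
      exact (hS.2 _).2 ⟨x, rfl⟩
    refine ⟨h, (UT.of hh).isPolyTimeOracle _, fun x => ?_⟩
    rw [hh' x, hFS]

end Pool.Agent.TO42
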