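import Pool.Agent.TO42.Bad
import Pool.Agent.TO42.Tal

/-!
# Module TO42/Sys

The optimal proof system.

PROOF. `bits_UT`: `UT.map` over `List.range (ll l + 1)` of the functional
`fun X (l, j) => decide (nu j = nu (ll l)) && X (true :: replicate (cp2 l j) true)`
(`UT.query`, `UT.pre`, `UT.pair`, `UT.post`), `ll_polyTime`, `nu_polyTime`, `cp2_polyTime`.
`sysX_UT`: `UT.pair` of `fun π => π`, `fun π => bits X (D π).1.length` and
`fun π => run X (nu (ll (D π).1.length), (D π).1.length, (D π).2)` (`run_UT.pre`), then `UT.post`
with the polynomial-time function that performs the test (`PolyTime.ite`, `PolyTime.decide_and`,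
`PolyTime.decide_eq`, `Val_polyTime`, `PolyTime.filter`, `PolyTime.getD`, `PolyTime.replicate`).
`bits_getD`: `List.getD`/`List.getElem_map`, `cp2_eq` (for `j ≤ J`, `2^2^j ≤ 2^2^J`), `tal_ones`.
`trust_iff`: the length of the filtered list is the number of the true entries; it is `1` iff there
is exactly one `j ≤ J` with `nu j = nu J` and `T (2 ^ j) = true`; the entry number `J` is false iff
`T (2 ^ J) = false`.
-/

set_option autoImplicit false

namespace Pool.Agent.TO42

open Pool.Agent.PT Pool.Agent.TMB67 Pool.Agent.POpt67 Pool.Agent.POpt70 Pool.Agent.ROr14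
open N68a2faeb N793a5b8e N487b59b3

/-- The bits of the oracle at the places `j ≤ ll l` of the current program. -/
def bits (X : List Bool → Bool) (l : ℕ) : List Bool :=
  (List.range (ll l + 1)).map fun j =>
    decide (nu j = nu (ll l)) && X (true :: List.replicate (cp2 l j) true)

/-- The current program was started and did not die. -/
def trustB (l : ℕ) (b : List Bool) : Prop :=
  (b.filter fun c => c).length = 1 ∧ b.getD (ll l) false = false

instance (l : ℕ) (b : List Bool) : Decidable (trustB l b) := by unfold trustB; infer_instance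

/-- The test of the proof system: `u` is a word `1^(2^(2^J))`, the current program is trusted and
belongs to the language `m`, and the clocks suffice. -/
def Test (U : Polynomial ℕ) (c m : ℕ) (u x b y : List Bool) : Prop :=
  ((u = List.replicate (cp2 u.length (ll u.length)) true ∧ 2 ≤ u.length) ∧
    (ix (nu (ll u.length))).2.2 = m) ∧ trustB u.length b ∧
      Val U c (nu (ll u.length)) u.length x y

instance (U : Polynomial ℕ) (c m : ℕ) (u x b y : List Bool) : Decidable (Test U c m u x b y) := by
  unfold Test; infer_instance

/-- The proof system for the language number `m`. -/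
noncomputable def sysX (U : Polynomial ℕ) (c m : ℕ) (D : List Bool → List Bool × List Bool)
    (y0 : List Bool) (X : List Bool → Bool) (π : List Bool) : List Bool :=
  if Test U c m (D π).1 (D π).2 (bits X (D π).1.length)
      (run X (nu (ll (D π).1.length), (D π).1.length, (D π).2)) then
    run X (nu (ll (D π).1.length), (D π).1.length, (D π).2) else y0

theorem bits_UT : UT bits := by
  have h1 : UT (fun (X : List Bool → Bool) (z : ℕ × ℕ) =>
      X (true :: List.replicate (cp2 z.1 z.2) true)) :=
    UT.query.pre (g := fun z : ℕ × ℕ => true :: List.replicate (cp2 z.1 z.2) true)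
      (PolyTime.cons (PolyTime.const _) (PolyTime.replicate (by fun_prop) (PolyTime.const _)))
  have h2 : UT (fun (_ : List Bool → Bool) (z : ℕ × ℕ) => decide (nu z.2 = nu (ll z.1))) :=
    UT.of (PolyTime.decide_eq (nu_polyTime (by fun_prop)) (nu_polyTime (by fun_prop)))
  have h3 : UT (fun (X : List Bool → Bool) (z : ℕ × ℕ) => decide (nu z.2 = nu (ll z.1)) &&
      X (true :: List.replicate (cp2 z.1 z.2) true)) :=
    (h2.pair h1).post (g := fun b : Bool × Bool => b.1 && b.2) (by fun_prop)
  exact UT.map (l := fun l : ℕ => List.range (ll l + 1)) (PolyTime.range (by fun_prop)) h3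

private theorem ix_polyTime' {α : Type} [Enc α] {i : α → ℕ} (hi : PolyTime i) :
    PolyTime (fun z => (ix (i z)).2.2) := by
  have h : PolyTime (fun z => (n5 (i z)).2.2.2.2) :=
    PolyTime.snd (PolyTime.snd (PolyTime.snd (PolyTime.snd (n5_polyTime hi))))
  simpa only [ix] using h

private theorem Test_polyTime {α : Type} [Enc α] (U : Polynomial ℕ) (c m : ℕ)
    {u x b y : α → List Bool} (hu : PolyTime u) (hx : PolyTime x) (hb : PolyTime b)
    (hy : PolyTime y) : PolyTime (fun z => decide (Test U c m (u z) (x z) (b z) (y z))) := by
  have hl : PolyTime (fun z => (u z).length) := PolyTime.length hu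
  have hll : PolyTime (fun z => ll (u z).length) := ll_polyTime hl
  have hnu : PolyTime (fun z => nu (ll (u z).length)) := nu_polyTime hll
  have h1 : PolyTime (fun z => decide (u z = List.replicate (cp2 (u z).length
      (ll (u z).length)) true)) :=
    PolyTime.decide_eq hu (PolyTime.replicate (cp2_polyTime hl hll) (PolyTime.const _))
  have h2 : PolyTime (fun z => decide (2 ≤ (u z).length)) :=
    PolyTime.decide_le (PolyTime.const _) hl
  have h3 : PolyTime (fun z => decide ((ix (nu (ll (u z).length))).2.2 = m)) :=
    PolyTime.decide_eq (ix_polyTime' hnu) (PolyTime.const _)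
  have h4 : PolyTime (fun z => decide (((b z).filter fun c => c).length = 1)) :=
    PolyTime.decide_eq (PolyTime.length (PolyTime.filter (g := fun _ c => c) hb
      PolyTime.snd')) (PolyTime.const _)
  have h5 : PolyTime (fun z => decide ((b z).getD (ll (u z).length) false = false)) :=
    PolyTime.decide_eq (PolyTime.getD hb hll (PolyTime.const _)) (PolyTime.const _)
  have h6 := Val_polyTime U c hnu hl hx hy
  have h7 : PolyTime (fun z => decide (trustB (u z).length (b z))) :=
    PolyTime.decide_and (P := fun z => ((b z).filter fun c => c).length = 1)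
      (Q := fun z => (b z).getD (ll (u z).length) false = false) h4 h5
  exact PolyTime.decide_and (P := fun z => ((u z = List.replicate (cp2 (u z).length
      (ll (u z).length)) true ∧ 2 ≤ (u z).length) ∧ (ix (nu (ll (u z).length))).2.2 = m))
    (Q := fun z => trustB (u z).length (b z) ∧
      Val U c (nu (ll (u z).length)) (u z).length (x z) (y z))
    (PolyTime.decide_and (P := fun z => (u z = List.replicate (cp2 (u z).length
      (ll (u z).length)) true ∧ 2 ≤ (u z).length)) (PolyTime.decide_and
      (P := fun z => u z = List.replicate (cp2 (u z).length (ll (u z).length)) true) h1 h2) h3)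
    (PolyTime.decide_and (P := fun z => trustB (u z).length (b z)) h7 h6)

theorem sysX_UT (U : Polynomial ℕ) (c m : ℕ) {D : List Bool → List Bool × List Bool}
    (hD : PolyTime D) (y0 : List Bool) : UT (sysX U c m D y0) := by
  have h1 : UT (fun (X : List Bool → Bool) (π : List Bool) => bits X (D π).1.length) :=
    bits_UT.pre (g := fun π => (D π).1.length) (PolyTime.length (PolyTime.fst hD))
  have h2 : UT (fun (X : List Bool → Bool) (π : List Bool) =>
      run X (nu (ll (D π).1.length), (D π).1.length, (D π).2)) :=
    run_UT.pre (g := fun π => (nu (ll (D π).1.length), (D π).1.length, (D π).2))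
      (PolyTime.pair (nu_polyTime (ll_polyTime (PolyTime.length (PolyTime.fst hD))))
        (PolyTime.pair (PolyTime.length (PolyTime.fst hD)) (PolyTime.snd hD)))
  have h3 : UT (fun (_ : List Bool → Bool) (π : List Bool) => D π) := UT.of hD
  refine ((h3.pair (h1.pair h2)).post (g := fun z : (List Bool × List Bool) ×
    (List Bool × List Bool) => if Test U c m z.1.1 z.1.2 z.2.1 z.2.2 then z.2.2 else y0) ?_).congr
    fun X π => rfl
  exact PolyTime.ite (P := fun z : (List Bool × List Bool) ×
    (List Bool × List Bool) => Test U c m z.1.1 z.1.2 z.2.1 z.2.2)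
    (Test_polyTime U c m (by fun_prop) (by fun_prop) (by fun_prop) (by fun_prop))
    (by fun_prop) (PolyTime.const _)

private theorem filter_range_one (p : ℕ → Bool) (n : ℕ) :
    ((List.range n).filter p).length = 1 ↔
      ∃ s < n, p s = true ∧ ∀ j < n, p j = true → j = s := by
  constructor
  · intro h
    obtain ⟨s, hs⟩ := List.length_eq_one_iff.1 h
    have h1 : s ∈ (List.range n).filter p := by rw [hs]; simp
    rw [List.mem_filter, List.mem_range] at h1
    refine ⟨s, h1.1, h1.2, fun j hj hp => ?_⟩
    have h2 : j ∈ (List.range n).filter p := by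
      rw [List.mem_filter, List.mem_range]
      exact ⟨hj, hp⟩
    rw [hs] at h2
    simpa using h2
  · rintro ⟨s, hs, hp, hu⟩
    have h1 : ((List.range n).filter p).Perm [s] := by
      rw [List.perm_ext_iff_of_nodup (List.nodup_range.filter _) (List.nodup_singleton s)]
      intro j
      rw [List.mem_filter, List.mem_range, List.mem_singleton]
      exact ⟨fun h => hu j h.1 h.2, fun h => h ▸ ⟨hs, hp⟩⟩
    exact h1.length_eq

/-- The meaning of trust at the word number `J`. -/
theorem trust_iff (A : List Bool → Bool) (T : ℕ → Bool) (J : ℕ) :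
    trustB (2 ^ 2 ^ J) (bits (join A (tal T)) (2 ^ 2 ^ J)) ↔
      ∃ s < J, nu s = nu J ∧ T (2 ^ s) = true ∧
        ∀ j ≤ J, nu j = nu J → j ≠ s → T (2 ^ j) = false := by
  set f : ℕ → Bool := fun j => decide (nu j = nu J) && T (2 ^ j) with hf
  have hbits : bits (join A (tal T)) (2 ^ 2 ^ J) = (List.range (J + 1)).map f := by
    unfold bits
    rw [ll_pow]
    refine List.map_congr_left fun j hj => ?_
    rw [List.mem_range] at hj
    have h1 : 2 ^ 2 ^ j ≤ 2 ^ 2 ^ J := Nat.pow_le_pow_right (by norm_num)
      (Nat.pow_le_pow_right (by norm_num) (by omega))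
    rw [cp2_eq h1]
    simp only [join, tal_ones, hf]
  unfold trustB
  rw [hbits, ll_pow, List.filter_map, List.length_map]
  have hcomp : ((fun c : Bool => c) ∘ f) = f := rfl
  rw [hcomp, filter_range_one]
  have hget : ((List.range (J + 1)).map f).getD J false = f J := by
    rw [List.getD_eq_getElem _ _ (by simp)]
    simp
  rw [hget]
  constructor
  · rintro ⟨⟨s, hs, hfs, hu⟩, hJ⟩
    have hsJ : s ≠ J := by
      rintro rfl
      rw [hJ] at hfs
      exact absurd hfs (by decide)
    simp only [hf, Bool.and_eq_true, decide_eq_true_eq] at hfs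
    refine ⟨s, by omega, hfs.1, hfs.2, fun j hj hn hne => ?_⟩
    by_contra hT
    rw [Bool.not_eq_false] at hT
    exact hne (hu j (by omega) (by simp [hf, hn, hT]))
  · rintro ⟨s, hs, hn, hT, hu⟩
    refine ⟨⟨s, by omega, by simp [hf, hn, hT], fun j hj hfj => ?_⟩, ?_⟩
    · by_contra hne
      simp only [hf, Bool.and_eq_true, decide_eq_true_eq] at hfj
      have := hu j (by omega) hfj.1 hne
      rw [this] at hfj
      exact absurd hfj.2 (by decide)
    · have := hu J le_rfl rfl (by omega)
      simp [hf, this]

end Pool.Agent.TO42
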